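import Pool.Agent.Lib.MP_3145b1_co.UI.Spec

/-!
# MP_3145b1_co, project UI: block inequality
-/

set_option autoImplicit false

namespace Pool.Agent.MP3145b1.UI

open Finset Pool.Agent.MP3145b1 Pool.Agent.MP3145b1.RC Pool.Agent.MP3145b1.RD Pool.Agent.MP3145b1.RT

private theorem UBlk_union (J : Finset ℕ) (W : Finset ℕ → ℝ) (hW : ∀ T, 0 ≤ W T) (B C : Finset ℕ) :
    ∑ T ∈ J.powerset.filter (fun T => ¬ Disjoint T (B ∪ C)), W T ≤
      ∑ T ∈ J.powerset.filter (fun T => ¬ Disjoint T B), W T +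
        ∑ T ∈ J.powerset.filter (fun T => ¬ Disjoint T C), W T := by
  have hsub : J.powerset.filter (fun T => ¬ Disjoint T (B ∪ C)) ⊆
      J.powerset.filter (fun T => ¬ Disjoint T B) ∪ J.powerset.filter (fun T => ¬ Disjoint T C) := by
    intro T hT
    rw [Finset.mem_filter] at hT
    rw [Finset.mem_union, Finset.mem_filter, Finset.mem_filter]
    by_cases h : Disjoint T B
    · right
      refine ⟨hT.1, fun h' => hT.2 ?_⟩
      rw [Finset.disjoint_union_right]
      exact ⟨h, h'⟩
    · left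
      exact ⟨hT.1, h⟩
  refine (Finset.sum_le_sum_of_subset_of_nonneg hsub (fun T _ _ => hW T)).trans ?_
  have h := Finset.sum_union_inter (s₁ := J.powerset.filter (fun T => ¬ Disjoint T B))
    (s₂ := J.powerset.filter (fun T => ¬ Disjoint T C)) (f := W)
  have h2 : 0 ≤ ∑ T ∈ J.powerset.filter (fun T => ¬ Disjoint T B) ∩
      J.powerset.filter (fun T => ¬ Disjoint T C), W T := Finset.sum_nonneg fun T _ => hW T
  linarith

private theorem UBlk_empty (J : Finset ℕ) (W : Finset ℕ → ℝ) :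
    ∑ T ∈ J.powerset.filter (fun T => ¬ Disjoint T (∅ : Finset ℕ)), W T = 0 := by
  rw [Finset.filter_false_of_mem, Finset.sum_empty]
  intro T _
  simp

private theorem UBlk_single (a p : ℕ → ℝ) (F : ℝ → ℝ) (t i : ℕ) (z : ℝ) :
    ∑ T ∈ (range t).powerset.filter (fun T => ¬ Disjoint T {i}),
      wt p T * Co a p (range t) T (gA (p t) (a t) F) z ^ 2 = ch a p F t i z := by
  unfold ch
  refine Finset.sum_congr (Finset.filter_congr fun T _ => ?_) fun T _ => rfl
  rw [Finset.disjoint_singleton_right, not_not]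

private theorem UBlk_sum (a p : ℕ → ℝ) (hp : ∀ i, 0 ≤ p i ∧ p i ≤ 1) (F : ℝ → ℝ) (t : ℕ) (z : ℝ)
    (B : Finset ℕ) :
    ∑ T ∈ (range t).powerset.filter (fun T => ¬ Disjoint T B),
      wt p T * Co a p (range t) T (gA (p t) (a t) F) z ^ 2 ≤ ∑ i ∈ B, ch a p F t i z := by
  induction B using Finset.induction_on with
  | empty => rw [UBlk_empty, Finset.sum_empty]
  | insert i B hi ih =>
    rw [Finset.sum_insert hi, Finset.insert_eq]
    refine (UBlk_union (range t) _ (fun T => mul_nonneg (wt_nonneg hp T) (sq_nonneg _)) {i} B).trans ?_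
    rw [UBlk_single]
    linarith

private theorem UBlk_block (h1 : S_TPar) (a p : ℕ → ℝ) (hp : ∀ i, 0 ≤ p i ∧ p i ≤ 1) (F : ℝ → ℝ)
    (t : ℕ) (z : ℝ) (B : Finset ℕ) (hB : B ⊆ range t) (c : ℝ)
    (h : ∀ y, Av a p B (fun y' => gA (p t) (a t) F y' ^ 2) y - Av a p B (gA (p t) (a t) F) y ^ 2 ≤
      c * Av a p B (fun y' => hA (a t) F y' ^ 2) y) :
    ∑ T ∈ (range t).powerset.filter (fun T => ¬ Disjoint T B),
      wt p T * Co a p (range t) T (gA (p t) (a t) F) z ^ 2 ≤ c * WW a p F t z := by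
  rw [(h1 a p (range t) B (gA (p t) (a t) F) z hB).2.2.1]
  refine (Av_mono a hp (range t \ B) h z).trans ?_
  rw [Av_mul a p (range t \ B) c (fun y => Av a p B (fun y' => hA (a t) F y' ^ 2) y) z]
  unfold WW
  rw [Av_sdiff a p (range t) B hB]

theorem rUBlk (h1 : S_TPar) (h2 : S_USgl) (h3 : S_UFar) (h4 : S_ULev) : S_UBlk := by
  intro a p t b F Θ hp hat ha hSC z
  have hW : ∀ T, 0 ≤ wt p T * Co a p (range t) T (gA (p t) (a t) F) z ^ 2 :=
    fun T => mul_nonneg (wt_nonneg hp T) (sq_nonneg _)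
  have hWW := WW_nonneg a hp F t z
  by_cases hNR : NR Θ (a t)
  · have hsplit : (Bl a p t b).filter (fun i => 2 * a i ≤ a t) ∪
        (Bl a p t b).filter (fun i => ¬ 2 * a i ≤ a t) = Bl a p t b := Finset.filter_union_filter_not_eq _ _
    have e1 := UBlk_union (range t) _ hW ((Bl a p t b).filter (fun i => 2 * a i ≤ a t))
      ((Bl a p t b).filter (fun i => ¬ 2 * a i ≤ a t))
    rw [hsplit] at e1
    have e2 := UBlk_sum a p hp F t z ((Bl a p t b).filter (fun i => ¬ 2 * a i ≤ a t))
    have e3 : ∑ i ∈ (Bl a p t b).filter (fun i => ¬ 2 * a i ≤ a t), ch a p F t i z ≤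
        ∑ i ∈ Bl a p t b, cg a Θ t i * ch a p F t i z := by
      have e4 : ∑ i ∈ (Bl a p t b).filter (fun i => ¬ 2 * a i ≤ a t), ch a p F t i z =
          ∑ i ∈ (Bl a p t b).filter (fun i => ¬ 2 * a i ≤ a t), cg a Θ t i * ch a p F t i z := by
        refine Finset.sum_congr rfl fun i hi => ?_
        rw [cg_near a Θ t i (not_le.1 (Finset.mem_filter.1 hi).2), one_mul]
      rw [e4]
      exact Finset.sum_le_sum_of_subset_of_nonneg (Finset.filter_subset _ _)
        (fun i _ _ => mul_nonneg (cg_nonneg a Θ t i) (ch_nonneg a hp F t i z))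
    have e5 : ∑ T ∈ (range t).powerset.filter
        (fun T => ¬ Disjoint T ((Bl a p t b).filter (fun i => 2 * a i ≤ a t))),
        wt p T * Co a p (range t) T (gA (p t) (a t) F) z ^ 2 ≤ 40 * WW a p F t z := by
      have hLt : ∀ i ∈ (Bl a p t b).filter (fun i => 2 * a i ≤ a t), i < t ∧ 2 * a i ≤ a t := by
        intro i hi
        rw [Finset.mem_filter, mem_Bl] at hi
        exact ⟨hi.1.1, hi.2⟩
      have hLB : (Bl a p t b).filter (fun i => 2 * a i ≤ a t) ⊆ Bl a p t b := Finset.filter_subset _ _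
      generalize (Bl a p t b).filter (fun i => 2 * a i ≤ a t) = L at hLt hLB
      rcases L.eq_empty_or_nonempty with hL | hL
      · rw [hL, UBlk_empty]
        linarith
      · have hi := L.max'_mem hL
        have hmax : ∀ j ∈ L, j ≤ L.max' hL := fun j hj => L.le_max' j hj
        generalize L.max' hL = i at hi hmax
        have e6 := UBlk_union (range t) _ hW {i} (L.erase i)
        rw [← Finset.insert_eq, Finset.insert_erase hi] at e6
        have e7 := UBlk_block h1 a p hp F t z {i}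
          (Finset.singleton_subset_iff.2 (Finset.mem_range.2 (hLt i hi).1)) 4
          (fun y => h2 a p i F Θ (a t) (p t) y hat hSC hNR hp (ha i (hLt i hi).1).1 (hLt i hi).2
            (hp t).1 (hp t).2)
        have hBd : Bd a p (L.erase i) (a t / 2) := by
          refine ⟨fun j hj => ?_, hp⟩
          have hj' := hLt j (Finset.mem_of_mem_erase hj)
          exact ⟨(ha j hj'.1).1, by linarith [hj'.2]⟩
        have e8 := UBlk_block h1 a p hp F t z (L.erase i)
          (fun j hj => Finset.mem_range.2 (hLt j (Finset.mem_of_mem_erase hj)).1) 36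
          (fun y => h3 a p (L.erase i) F Θ (a t) (p t) y hat hSC hNR hBd
            ((h4 a p t hp hat ha).2.2 b L i hLB hi hmax) (hp t).1 (hp t).2)
        linarith
    linarith
  · have e1 := UBlk_sum a p hp F t z (Bl a p t b)
    have e2 : ∑ i ∈ Bl a p t b, ch a p F t i z = ∑ i ∈ Bl a p t b, cg a Θ t i * ch a p F t i z := by
      refine Finset.sum_congr rfl fun i _ => ?_
      rw [cg_res a Θ t i hNR, one_mul]
    linarith

end Pool.Agent.MP3145b1.UI
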