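import Pool.Agent.Lib.MP_3145b1_co.UI.Spec

/-!
# MP_3145b1_co, project UI: charges (module UChg)
-/

set_option autoImplicit false

namespace Pool.Agent.MP3145b1.UI

open Finset Pool.Agent.MP3145b1 Pool.Agent.MP3145b1.RC Pool.Agent.MP3145b1.RD Pool.Agent.MP3145b1.RT

private theorem UChg_single (a p : ℕ → ℝ) (i : ℕ) (G : ℝ → ℝ) (y : ℝ) :
    Av a p {i} G y = p i * G y + (1 - p i) * G (y + a i) := by
  have h := Av_insert a p ∅ i (Finset.notMem_empty i) G y
  rw [Av_empty, Av_empty] at h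
  exact h

private theorem UChg_ch (h1 : S_TPar) (a p : ℕ → ℝ) (F : ℝ → ℝ) (t i : ℕ) (hi : i < t) (y : ℝ) :
    ch a p F t i y = Av a p (range t \ {i}) (fun y' => Av a p {i} (fun u => gA (p t) (a t) F u ^ 2) y' -
      Av a p {i} (gA (p t) (a t) F) y' ^ 2) y := by
  have h := (h1 a p (range t) {i} (gA (p t) (a t) F) y
    (Finset.singleton_subset_iff.2 (Finset.mem_range.2 hi))).2.2.1
  rw [← h]
  unfold ch
  refine Finset.sum_congr ?_ fun _ _ => rfl
  refine Finset.filter_congr fun T _ => ?_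
  rw [Finset.disjoint_singleton_right, not_not]

private theorem UChg_pt (a : ℕ → ℝ) {p : ℕ → ℝ} (hp : ∀ i, 0 ≤ p i ∧ p i ≤ 1) (F : ℝ → ℝ) (t i : ℕ) (y : ℝ) :
    Av a p {i} (fun u => gA (p t) (a t) F u ^ 2) y - Av a p {i} (gA (p t) (a t) F) y ^ 2 ≤
      4 * (p i * (1 - p i)) * Av a p {t} (fun u => hA (a i) F u ^ 2) y := by
  rw [UChg_single, UChg_single, UChg_single]
  have e : gA (p t) (a t) F y - gA (p t) (a t) F (y + a i) =
      2 * (p t * hA (a i) F y + (1 - p t) * hA (a i) F (y + a t)) := by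
    unfold gA hA
    rw [show y + a t + a i = y + a i + a t by ring]
    ring
  have e1 : p i * gA (p t) (a t) F y ^ 2 + (1 - p i) * gA (p t) (a t) F (y + a i) ^ 2 -
      (p i * gA (p t) (a t) F y + (1 - p i) * gA (p t) (a t) F (y + a i)) ^ 2 =
      p i * (1 - p i) * (gA (p t) (a t) F y - gA (p t) (a t) F (y + a i)) ^ 2 := by ring
  rw [e1, e]
  have hv : 0 ≤ p i * (1 - p i) := mul_nonneg (hp i).1 (by linarith [(hp i).2])
  have hw : 0 ≤ p t * (1 - p t) := mul_nonneg (hp t).1 (by linarith [(hp t).2])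
  have h3 : (p t * hA (a i) F y + (1 - p t) * hA (a i) F (y + a t)) ^ 2 ≤
      p t * hA (a i) F y ^ 2 + (1 - p t) * hA (a i) F (y + a t) ^ 2 := by
    have h4 := mul_nonneg hw (sq_nonneg (hA (a i) F y - hA (a i) F (y + a t)))
    linarith [h4]
  have h5 := mul_le_mul_of_nonneg_left h3 hv
  linarith [h5]

theorem rUChg (h1 : S_TPar) : S_UChg := by
  intro a p n t i F z hp hit htn
  have hd1 : Disjoint (range t \ {i}) {t} := by
    rw [Finset.disjoint_singleton_right]
    intro h
    exact absurd (Finset.mem_range.1 (Finset.mem_sdiff.1 h).1) (lt_irrefl t)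
  have hd2 : Disjoint (Ico (t + 1) n) ((range t \ {i}) ∪ {t}) := by
    rw [Finset.disjoint_left]
    intro j hj hj'
    rw [Finset.mem_Ico] at hj
    rw [Finset.mem_union, Finset.mem_sdiff, Finset.mem_range, Finset.mem_singleton] at hj'
    rcases hj' with h | h
    · omega
    · rw [Finset.mem_singleton] at h
      omega
  have hs : Ico (t + 1) n ∪ ((range t \ {i}) ∪ {t}) = (range n).erase i := by
    ext j
    simp only [Finset.mem_union, Finset.mem_Ico, Finset.mem_sdiff, Finset.mem_range,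
      Finset.mem_singleton, Finset.mem_erase]
    omega
  have hc : ∀ y, ch a p F t i y ≤ 4 * (p i * (1 - p i)) *
      Av a p ((range t \ {i}) ∪ {t}) (fun u => hA (a i) F u ^ 2) y := by
    intro y
    rw [UChg_ch h1 a p F t i hit y, Av_union a p _ _ hd1, ← Av_mul]
    exact Av_mono a hp _ (fun y' => UChg_pt a hp F t i y') y
  calc Av a p (Ico (t + 1) n) (ch a p F t i) z
      ≤ Av a p (Ico (t + 1) n) (fun y => 4 * (p i * (1 - p i)) *
          Av a p ((range t \ {i}) ∪ {t}) (fun u => hA (a i) F u ^ 2) y) z := Av_mono a hp _ hc z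
    _ = 4 * (p i * (1 - p i)) * Iv a p F n i z := by
        rw [Av_mul, ← Av_union a p _ _ hd2, hs]
        rfl

end Pool.Agent.MP3145b1.UI
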