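import Pool.Agent.Lib.MP_3145b1_co.UI.Spec

/-! MP_3145b1_co, project UI, piece UCls: the class lemma. -/

set_option autoImplicit false

namespace Pool.Agent.MP3145b1.UI

open Finset Pool.Agent.MP3145b1 Pool.Agent.MP3145b1.RC Pool.Agent.MP3145b1.RD Pool.Agent.MP3145b1.RT

private theorem UCls_step (x w l A : ℝ) (hx : 0 ≤ x) (hw : 0 ≤ w) (hw4 : w ≤ 1 / 4) (hl : 1 ≤ l)
    (hxl : x ≤ l) (hA : A ≤ 9 / 2 * (1 - 1 / (1 + x))) :
    w / l ^ 2 + A ≤ 9 / 2 * (1 - 1 / (1 + (w + x))) := by
  have hl0 : 0 < l := by linarith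
  have h1x : 0 < 1 + x := by linarith
  have h1w : 0 < 1 + (w + x) := by linarith
  have hD : 0 < (1 + x) * (1 + (w + x)) := mul_pos h1x h1w
  have h1 : (1 + x) * (1 + (w + x)) ≤ 9 / 2 * l ^ 2 := by
    have h2 : 1 + x ≤ 2 * l := by linarith
    have h3 : 1 + (w + x) ≤ 9 / 4 * l := by linarith
    calc (1 + x) * (1 + (w + x)) ≤ (2 * l) * (9 / 4 * l) :=
          mul_le_mul h2 h3 h1w.le (by linarith)
      _ = 9 / 2 * l ^ 2 := by ring
  have h3 : 1 ≤ 9 / 2 * l ^ 2 / ((1 + x) * (1 + (w + x))) := (one_le_div hD).2 h1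
  have h4 : 1 / (1 + x) - 1 / (1 + (w + x)) = w / ((1 + x) * (1 + (w + x))) := by
    field_simp
    ring
  have h5 : w / l ^ 2 ≤ 9 / 2 * (w / ((1 + x) * (1 + (w + x)))) := by
    calc w / l ^ 2 = w / l ^ 2 * 1 := (mul_one _).symm
      _ ≤ w / l ^ 2 * (9 / 2 * l ^ 2 / ((1 + x) * (1 + (w + x)))) :=
          mul_le_mul_of_nonneg_left h3 (div_nonneg hw (sq_nonneg _))
      _ = 9 / 2 * (w / ((1 + x) * (1 + (w + x)))) := by
          field_simp
  rw [← h4] at h5
  linarith

theorem rUCls : S_UCls := by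
  intro v l P _ i n hv hl hs
  have key : ∀ N, N ≤ n → ∑ t ∈ (Ico (i + 1) N).filter P, v t / l t ^ 2 ≤
      9 / 2 * (1 - 1 / (1 + ∑ u ∈ (Ico (i + 1) N).filter P, v u)) := by
    intro N
    induction N with
    | zero =>
      intro _
      have h : Ico (i + 1) 0 = ∅ := Finset.Ico_eq_empty (by omega)
      rw [h]
      simp
    | succ N ih =>
      intro hN
      by_cases hiN : i + 1 ≤ N
      · have h : Ico (i + 1) (N + 1) = insert N (Ico (i + 1) N) := by
          ext t
          simp only [Finset.mem_Ico, Finset.mem_insert]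
          omega
        rw [h, Finset.filter_insert]
        by_cases hP : P N
        · have hnot : N ∉ (Ico (i + 1) N).filter P := by
            simp
          rw [if_pos hP, Finset.sum_insert hnot, Finset.sum_insert hnot]
          exact UCls_step _ _ _ _ (Finset.sum_nonneg fun u _ => (hv u).1) (hv N).1 (hv N).2 (hl N)
            (hs N (by omega) (by omega) hP) (ih (by omega))
        · rw [if_neg hP]
          exact ih (by omega)
      · have h : Ico (i + 1) (N + 1) = ∅ := Finset.Ico_eq_empty (by omega)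
        rw [h]
        simp
  have h1 := key n le_rfl
  have h2 : 0 ≤ ∑ u ∈ (Ico (i + 1) n).filter P, v u := Finset.sum_nonneg fun u _ => (hv u).1
  have h3 : 0 < 1 / (1 + ∑ u ∈ (Ico (i + 1) n).filter P, v u) := by positivity
  linarith

end Pool.Agent.MP3145b1.UI
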