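import Pool.Agent.Lib.MP_3145b1_co.UI.Spec2

/-! MP_3145b1_co, project UI, piece UEn: sorted enumeration of a finite set. -/

set_option autoImplicit false

namespace Pool.Agent.MP3145b1.UI

open Finset Pool.Agent.MP3145b1 Pool.Agent.MP3145b1.RC Pool.Agent.MP3145b1.RD Pool.Agent.MP3145b1.RT Pool.Agent.MP3145b1.AG

theorem rUEn : S_UEn := by
  intro J a
  refine Finset.induction_on_max_value a J ?_ ?_
  · refine ⟨fun i => i, ?_, ?_, ?_⟩
    · intro i j hi
      exact absurd hi (by rw [Finset.card_empty]; omega)
    · rw [Finset.card_empty, Finset.range_zero, Finset.image_empty]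
    · intro i j _ hj
      exact absurd hj (by rw [Finset.card_empty]; omega)
  · rintro j s hj hmax ⟨e, h1, h2, h3⟩
    have hc : (insert j s).card = s.card + 1 := Finset.card_insert_of_notMem hj
    have hmem : ∀ i, i < s.card → e i ∈ s := by
      intro i hi
      have h := Finset.mem_image_of_mem e (Finset.mem_range.2 hi)
      rwa [h2] at h
    have hpos : ∀ i, i < s.card → (if i < s.card then e i else j) = e i := fun i hi => if_pos hi
    have hneg : ∀ i, ¬ i < s.card → (if i < s.card then e i else j) = j := fun i hi => if_neg hi
    refine ⟨fun i => if i < s.card then e i else j, ?_, ?_, ?_⟩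
    · rw [hc]
      intro i i' hi hi' h
      have h' : (if i < s.card then e i else j) = (if i' < s.card then e i' else j) := h
      by_cases h4 : i < s.card
      · by_cases h5 : i' < s.card
        · rw [hpos i h4, hpos i' h5] at h'
          exact h1 i i' h4 h5 h'
        · rw [hpos i h4, hneg i' h5] at h'
          exact absurd (h' ▸ hmem i h4) hj
      · by_cases h5 : i' < s.card
        · rw [hneg i h4, hpos i' h5] at h'
          exact absurd (h'.symm ▸ hmem i' h5) hj
        · omega
    · rw [hc, Finset.range_add_one, Finset.image_insert]
      have e1 : (if s.card < s.card then e s.card else j) = j := hneg _ (lt_irrefl _)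
      have e3 : (range s.card).image (fun i => if i < s.card then e i else j) =
          (range s.card).image e :=
        Finset.image_congr fun i hi => hpos i (Finset.mem_range.1 (Finset.mem_coe.1 hi))
      have e2 : (range s.card).image (fun i => if i < s.card then e i else j) = s := e3.trans h2
      rw [e1, e2]
    · rw [hc]
      intro i i' hii hi'
      show a (if i < s.card then e i else j) ≤ a (if i' < s.card then e i' else j)
      by_cases h4 : i' < s.card
      · rw [hpos i (lt_of_le_of_lt hii h4), hpos i' h4]
        exact h3 i i' hii h4
      · by_cases h5 : i < s.card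
        · rw [hpos i h5, hneg i' h4]
          exact hmax _ (hmem i h5)
        · rw [hneg i h5, hneg i' h4]

end Pool.Agent.MP3145b1.UI
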