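import Pool.Agent.Lib.MP_3145b1_co.UI.Spec

/-!
# MP_3145b1_co, project UI, module UFar: a group of light variables
-/

set_option autoImplicit false

namespace Pool.Agent.MP3145b1.UI

open Finset Pool.Agent.MP3145b1 Pool.Agent.MP3145b1.RC Pool.Agent.MP3145b1.RD Pool.Agent.MP3145b1.RT

private theorem UFar_sq {g c : ℝ} (hg : |g| ≤ 1) (hc : c = 1 ∨ c = -1) : (g - c) ^ 2 ≤ 4 := by
  rw [abs_le] at hg
  rcases hc with rfl | rfl <;> nlinarith [hg.1, hg.2]

/-- the average of a window is at most the average of the squares of the half differences -/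
private theorem UFar_win (a p : ℕ → ℝ) (hp : ∀ i, 0 ≤ p i ∧ p i ≤ 1) (B : Finset ℕ) (F : ℝ → ℝ) (Θ : Finset ℝ)
    (A z θ : ℝ) (hSC : SC F Θ) (hθ : ∀ u, θ - A / 2 ≤ u → u < θ → F u ≠ F (u + A)) :
    Av a p B (Wn θ (A / 2)) z ≤ Av a p B (fun y => hA A F y ^ 2) z := by
  refine Av_mono a hp B (fun y => ?_) z
  unfold Wn
  by_cases h : θ - A / 2 ≤ y ∧ y < θ
  · rw [if_pos h]
    rcases hSC.h_sq A y with h1 | h1
    · exact absurd h1.1 (hθ y h.1 h.2)
    · rw [h1.2.1]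
  · rw [if_neg h]
    exact sq_nonneg _

theorem rUFar (h1 : S_TPos) (h2 : S_UWin) : S_UFar := by
  intro a p B F Θ A q z hA0 hSC hNR hBd hv hq0 hq1
  have hp := hBd.2
  obtain ⟨W, hW⟩ : ∃ W, W = Av a p B (fun y => hA A F y ^ 2) z := ⟨_, rfl⟩
  have hW0 : 0 ≤ W := by
    rw [hW]
    exact Av_nonneg a hp B (fun y => sq_nonneg _) z
  obtain ⟨μ, hμ⟩ : ∃ μ, μ = z + mn a p B := ⟨_, rfl⟩
  have hv' : vr a p B ≤ (A / 2) ^ 2 / 64 := by
    refine le_trans hv (le_of_eq ?_)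
    ring
  have hpos := fun θ => h1 a p B θ (A / 2) z (half_pos hA0) hBd hv'
  classical
  obtain ⟨Win, hWin⟩ : ∃ Win : Finset ℝ, ∀ θ, θ ∈ Win ↔ θ ∈ Θ ∧ ∀ u, θ - A / 2 ≤ u → u < θ → F u ≠ F (u + A) :=
    ⟨Θ.filter (fun θ => ∀ u, θ - A / 2 ≤ u → u < θ → F u ≠ F (u + A)), fun θ => Finset.mem_filter⟩
  -- right part
  obtain ⟨E1, hE1n, hE1, hE1a⟩ : ∃ E1 : ℝ → ℝ, (∀ y, 0 ≤ E1 y) ∧
      (∀ y, (∀ θ ∈ Win, μ < θ - A / 4 → y < θ) ∨ 1 ≤ E1 y) ∧ Av a p B E1 z ≤ 4 * W := by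
    by_cases hne : (Win.filter (fun θ => μ < θ - A / 4)).Nonempty
    · obtain ⟨θ1, hθ1, hmin⟩ := Finset.exists_min_image _ (fun θ => θ) hne
      rw [Finset.mem_filter] at hθ1
      refine ⟨Hv θ1, ?_, ?_, ?_⟩
      · intro y
        unfold Hv
        split_ifs <;> norm_num
      · intro y
        by_cases hy : θ1 ≤ y
        · right
          unfold Hv
          rw [if_pos hy]
        · left
          intro θ hθ hθμ
          have := hmin θ (Finset.mem_filter.2 ⟨hθ, hθμ⟩)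
          exact lt_of_lt_of_le (not_le.1 hy) this
      · have h3 := (hpos θ1).1 (by
          rw [← hμ]
          have := hθ1.2
          linarith)
        have h4 := UFar_win a p hp B F Θ A z θ1 hSC ((hWin θ1).1 hθ1.1).2
        rw [← hW] at h4
        linarith
    · refine ⟨fun _ => 0, fun _ => le_rfl, ?_, ?_⟩
      · intro y
        left
        intro θ hθ hθμ
        exact absurd ⟨θ, Finset.mem_filter.2 ⟨hθ, hθμ⟩⟩ hne
      · rw [Av_const]
        linarith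
  -- left part
  obtain ⟨E2, hE2n, hE2, hE2a⟩ : ∃ E2 : ℝ → ℝ, (∀ y, 0 ≤ E2 y) ∧
      (∀ y, (∀ θ ∈ Win, θ - A / 4 ≤ μ → θ - A / 2 ≤ y) ∨ 1 ≤ E2 y) ∧ Av a p B E2 z ≤ 4 * W := by
    by_cases hne : (Win.filter (fun θ => θ - A / 4 ≤ μ)).Nonempty
    · obtain ⟨θ2, hθ2, hmax⟩ := Finset.exists_max_image _ (fun θ => θ) hne
      rw [Finset.mem_filter] at hθ2
      refine ⟨fun y => if y < θ2 - A / 2 then 1 else 0, ?_, ?_, ?_⟩
      · intro y
        dsimp only
        split_ifs <;> norm_num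
      · intro y
        by_cases hy : y < θ2 - A / 2
        · right
          dsimp only
          rw [if_pos hy]
        · left
          intro θ hθ hθμ
          have := hmax θ (Finset.mem_filter.2 ⟨hθ, hθμ⟩)
          have h3 := not_lt.1 hy
          linarith
      · have h3 := (hpos θ2).2 (by
          rw [← hμ]
          have := hθ2.2
          linarith)
        have h4 := UFar_win a p hp B F Θ A z θ2 hSC ((hWin θ2).1 hθ2.1).2
        rw [← hW] at h4
        linarith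
    · refine ⟨fun _ => 0, fun _ => le_rfl, ?_, ?_⟩
      · intro y
        left
        intro θ hθ hθμ
        exact absurd ⟨θ, Finset.mem_filter.2 ⟨hθ, hθμ⟩⟩ hne
      · rw [Av_const]
        linarith
  -- two good points
  have hclaim : ∀ y y', y < y' → F y = F (y + A) → F y' = F (y' + A) →
      (∀ θ ∈ Win, θ - A / 4 ≤ μ → θ - A / 2 ≤ y) → (∀ θ ∈ Win, μ < θ - A / 4 → y' < θ) → F y = F y' := by
    intro y y' hlt hy hy' hG2 hG1
    by_contra hne
    obtain ⟨θ, hθ, hθ1, hθ2, hθ3⟩ := h2 F Θ A hA0 hSC hNR y y' hlt hy hy' hne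
    have hθW : θ ∈ Win := (hWin θ).2 ⟨hθ, hθ3⟩
    rcases lt_or_ge μ (θ - A / 4) with h3 | h3
    · have := hG1 θ hθW h3
      linarith
    · have := hG2 θ hθW h3
      linarith
  obtain ⟨c, hc, hgood⟩ : ∃ c : ℝ, (c = 1 ∨ c = -1) ∧ ∀ y, F y = F (y + A) →
      (∀ θ ∈ Win, μ < θ - A / 4 → y < θ) → (∀ θ ∈ Win, θ - A / 4 ≤ μ → θ - A / 2 ≤ y) → F y = c := by
    by_cases hex : ∃ y0, F y0 = F (y0 + A) ∧ (∀ θ ∈ Win, μ < θ - A / 4 → y0 < θ) ∧
        (∀ θ ∈ Win, θ - A / 4 ≤ μ → θ - A / 2 ≤ y0)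
    · obtain ⟨y0, h3, h4, h5⟩ := hex
      refine ⟨F y0, hSC.1 y0, fun y h6 h7 h8 => ?_⟩
      rcases lt_trichotomy y y0 with h9 | h9 | h9
      · exact hclaim y y0 h9 h6 h3 h8 h4
      · rw [h9]
      · exact (hclaim y0 y h9 h3 h6 h5 h7).symm
    · exact ⟨1, Or.inl rfl, fun y h6 h7 h8 => absurd ⟨y, h6, h7, h8⟩ hex⟩
  -- the pointwise estimate
  have hpt : ∀ y, (gA q A F y - c) ^ 2 ≤ 4 * (hA A F y ^ 2 + (E1 y + E2 y)) := by
    intro y
    have hb := UFar_sq (hSC.g_abs hq0 hq1 A y) hc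
    have hn1 := hE1n y
    have hn2 := hE2n y
    have hn3 := sq_nonneg (hA A F y)
    rcases hSC.h_sq A y with h3 | h3
    · rcases hE1 y with h4 | h4
      · rcases hE2 y with h5 | h5
        · rw [gA_eq q y h3.1, hgood y h3.1 h4 h5, sub_self]
          have : (0 : ℝ) ^ 2 = 0 := by norm_num
          rw [this]
          linarith
        · linarith
      · linarith
    · rw [h3.2.1]
      linarith
  have h3 := Av_var_le a p B (gA q A F) c z
  have h4 := Av_mono a hp B hpt z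
  rw [Av_mul a p B 4 (fun y => hA A F y ^ 2 + (E1 y + E2 y)), Av_add a p B (fun y => hA A F y ^ 2) (fun y => E1 y + E2 y),
    Av_add a p B E1 E2, ← hW] at h4
  rw [← hW]
  linarith

end Pool.Agent.MP3145b1.UI
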