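import Pool.Agent.Lib.MP_3145b1_co.UI.Spec2

/-!
# MP_3145b1_co, project UI, module UGI: gate inequality for any set of variables
-/

set_option autoImplicit false

namespace Pool.Agent.MP3145b1.UI

open Finset Pool.Agent.MP3145b1 Pool.Agent.MP3145b1.RC Pool.Agent.MP3145b1.RD Pool.Agent.MP3145b1.RT Pool.Agent.MP3145b1.AG

theorem rUGI (h1 : S_UEn) (h2 : S_UTrf) (h3 : S_UGat) : S_UGI := by
  intro a p J m F Θ hp ha hSC hcard z
  obtain ⟨e, hinj, himg, hsort⟩ := h1 J a
  generalize J.card = n at hinj himg hsort
  subst himg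
  obtain ⟨hsum, hterm⟩ := h2 a p e n hinj
  have hg := h3 (fun i => a (e i)) (fun i => p (e i)) n m F Θ (fun i => hp (e i))
    (fun i j hij hj => ⟨ha (e i) (Finset.mem_image_of_mem e (Finset.mem_range.2 (lt_of_le_of_lt hij hj))),
      hsort i j hij hj⟩) hSC hcard z
  have hAv : |Av a p ((range n).image e) F z| ≤ 1 := by
    rw [abs_le]
    constructor
    · have h := Av_le_const a hp ((range n).image e) (F := fun y => -1 * F y) (c := 1)
        (fun y => by rcases hSC.1 y with h | h <;> rw [h] <;> norm_num) z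
      rw [Av_mul] at h
      linarith
    · exact Av_le_const a hp ((range n).image e)
        (fun y => by rcases hSC.1 y with h | h <;> rw [h] <;> norm_num) z
  have h0 : 0 ≤ wt p ∅ * hh (Co a p ((range n).image e) ∅ F z ^ 2) := by
    refine mul_nonneg (wt_nonneg hp ∅) ?_
    rw [Co_empty]
    exact Real.negMulLog_nonneg (sq_nonneg _) (by
      have h := abs_le.1 hAv
      nlinarith)
  have hle : Hs a p ((range n).image e) F z ≤
      ∑ T ∈ ((range n).image e).powerset, wt p T * hh (Co a p ((range n).image e) T F z ^ 2) := by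
    have hm : (∅ : Finset ℕ) ∈ ((range n).image e).powerset := Finset.empty_mem_powerset _
    rw [← Finset.add_sum_erase _ _ hm]
    unfold Hs
    linarith
  have e1 : ∑ T ∈ ((range n).image e).powerset, wt p T * hh (Co a p ((range n).image e) T F z ^ 2) =
      ∑ T ∈ (range n).powerset, wt (fun i => p (e i)) T *
        hh (Co (fun i => a (e i)) (fun i => p (e i)) (range n) T F z ^ 2) := by
    rw [hsum (fun T => wt p T * hh (Co a p ((range n).image e) T F z ^ 2))]
    refine Finset.sum_congr rfl fun T hT => ?_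
    obtain ⟨_, h5, h6⟩ := hterm T (Finset.mem_powerset.1 hT)
    rw [h5, h6 F z]
  have e2 : Ti a p ((range n).image e) F z =
      ∑ T ∈ (range n).powerset, (T.card : ℝ) * (wt (fun i => p (e i)) T *
        Co (fun i => a (e i)) (fun i => p (e i)) (range n) T F z ^ 2) := by
    unfold Ti
    rw [hsum (fun T => (T.card : ℝ) * (wt p T * Co a p ((range n).image e) T F z ^ 2))]
    refine Finset.sum_congr rfl fun T hT => ?_
    obtain ⟨h4, h5, h6⟩ := hterm T (Finset.mem_powerset.1 hT)
    rw [h4, h5, h6 F z]
  rw [e1] at hle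
  rw [e2]
  exact hle.trans hg

end Pool.Agent.MP3145b1.UI
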