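import Pool.Agent.Lib.MP_3145b1_co.UI.Spec

/-!
# MP_3145b1_co, project UI, module UGat: the gate inequality

The telescoped node costs are bounded by the node inequality; the charges are collected at the charged variable.
-/

set_option autoImplicit false

namespace Pool.Agent.MP3145b1.UI

open Finset Pool.Agent.MP3145b1 Pool.Agent.MP3145b1.RC Pool.Agent.MP3145b1.RD Pool.Agent.MP3145b1.RT

private theorem UGat_exchange (n : ℕ) (f : ℕ → ℕ → ℝ) :
    ∑ t ∈ range n, ∑ i ∈ range t, f t i = ∑ i ∈ range n, ∑ t ∈ Ico (i + 1) n, f t i := by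
  refine Finset.sum_comm' ?_
  intro t i
  simp only [Finset.mem_range, Finset.mem_Ico]
  omega

private theorem UGat_log (m : ℕ) : (126 : ℝ) ≤ 280 * Real.log ((m : ℝ) + 2) := by
  have h0 : (0 : ℝ) ≤ (m : ℝ) := Nat.cast_nonneg m
  have h1 : Real.log 2 ≤ Real.log ((m : ℝ) + 2) := Real.log_le_log (by norm_num) (by linarith)
  have h2 := Real.log_two_gt_d9
  linarith

private theorem UGat_const (m : ℕ) : 28 * (1 / ((m : ℝ) + 2) ^ 2) * (9 / 2 * ((m : ℝ) ^ 2 + 1)) ≤ 126 := by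
  have h0 : (0 : ℝ) ≤ (m : ℝ) := Nat.cast_nonneg m
  have h1 : (0 : ℝ) < ((m : ℝ) + 2) ^ 2 := by positivity
  rw [show 28 * (1 / ((m : ℝ) + 2) ^ 2) * (9 / 2 * ((m : ℝ) ^ 2 + 1)) =
    126 * ((m : ℝ) ^ 2 + 1) / ((m : ℝ) + 2) ^ 2 by ring, div_le_iff₀ h1]
  nlinarith

private theorem UGat_Iv {a p : ℕ → ℝ} (hp : ∀ i, 0 ≤ p i ∧ p i ≤ 1) (F : ℝ → ℝ) (n t : ℕ) (z : ℝ) :
    0 ≤ Iv a p F n t z := by
  unfold Iv
  exact Av_nonneg a hp _ (fun y => sq_nonneg _) z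

private theorem UGat_node (h1 : S_UNod) (h3 : S_UInf) (h4 : S_UChg) (a p : ℕ → ℝ) (n m t : ℕ) (F : ℝ → ℝ)
    (Θ : Finset ℝ) (hp : ∀ i, 0 ≤ p i ∧ p i ≤ 1) (ha : ∀ i j, i ≤ j → j < n → 0 ≤ a i ∧ a i ≤ a j)
    (hF : SC F Θ) (hm : Θ.card ≤ m) (z : ℝ) (ht : t < n) :
    Av a p (Ico (t + 1) n) (Nd a p F t) z ≤ 60 * Real.log ((m : ℝ) + 2) * Iv a p F n t z +
      1 / ((m : ℝ) + 2) ^ 2 * ∑ i ∈ range t, cg a Θ t i / ((lev a p t i : ℝ) + 1) ^ 2 *
        (4 * (p i * (1 - p i)) * Iv a p F n i z) := by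
  have e1 := Av_mono a hp (Ico (t + 1) n) (F := Nd a p F t)
    (G := fun y => 60 * Real.log ((m : ℝ) + 2) * WW a p F t y +
      1 / ((m : ℝ) + 2) ^ 2 * ∑ i ∈ range t, cg a Θ t i / ((lev a p t i : ℝ) + 1) ^ 2 * ch a p F t i y)
    (fun y => h1 a p t m F Θ hp (ha t t le_rfl ht).1 (fun i hi => ha i t hi.le ht) hF hm y) z
  have e2 : Av a p (Ico (t + 1) n) (fun y => 60 * Real.log ((m : ℝ) + 2) * WW a p F t y +
      1 / ((m : ℝ) + 2) ^ 2 * ∑ i ∈ range t, cg a Θ t i / ((lev a p t i : ℝ) + 1) ^ 2 * ch a p F t i y) z =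
      60 * Real.log ((m : ℝ) + 2) * Iv a p F n t z +
      1 / ((m : ℝ) + 2) ^ 2 * ∑ i ∈ range t, cg a Θ t i / ((lev a p t i : ℝ) + 1) ^ 2 *
        Av a p (Ico (t + 1) n) (ch a p F t i) z := by
    rw [Av_add a p (Ico (t + 1) n) (fun y => 60 * Real.log ((m : ℝ) + 2) * WW a p F t y)
      (fun y => 1 / ((m : ℝ) + 2) ^ 2 * ∑ i ∈ range t,
        cg a Θ t i / ((lev a p t i : ℝ) + 1) ^ 2 * ch a p F t i y) z,
      Av_mul a p (Ico (t + 1) n) (60 * Real.log ((m : ℝ) + 2)) (WW a p F t) z,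
      Av_mul a p (Ico (t + 1) n) (1 / ((m : ℝ) + 2) ^ 2) (fun y => ∑ i ∈ range t,
        cg a Θ t i / ((lev a p t i : ℝ) + 1) ^ 2 * ch a p F t i y) z,
      Av_sum a p (Ico (t + 1) n) (range t)
        (fun i y => cg a Θ t i / ((lev a p t i : ℝ) + 1) ^ 2 * ch a p F t i y) z,
      (h3 a p n F z).2 t ht]
    congr 2
    refine Finset.sum_congr rfl fun i _ => ?_
    exact Av_mul a p (Ico (t + 1) n) (cg a Θ t i / ((lev a p t i : ℝ) + 1) ^ 2) (ch a p F t i) z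
  rw [e2] at e1
  refine e1.trans ?_
  have e3 : ∑ i ∈ range t, cg a Θ t i / ((lev a p t i : ℝ) + 1) ^ 2 *
        Av a p (Ico (t + 1) n) (ch a p F t i) z ≤
      ∑ i ∈ range t, cg a Θ t i / ((lev a p t i : ℝ) + 1) ^ 2 *
        (4 * (p i * (1 - p i)) * Iv a p F n i z) := by
    refine Finset.sum_le_sum fun i hi => ?_
    exact mul_le_mul_of_nonneg_left (h4 a p n t i F z hp (Finset.mem_range.1 hi) ht)
      (div_nonneg (cg_nonneg a Θ t i) (by positivity))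
  have e4 : (0 : ℝ) ≤ 1 / ((m : ℝ) + 2) ^ 2 := by positivity
  have e5 := mul_le_mul_of_nonneg_left e3 e4
  linarith

/-- **UGat**, the gate inequality. -/
theorem rUGat (h1 : S_UNod) (h2 : S_UTel) (h3 : S_UInf) (h4 : S_UChg) (h5 : S_USmc) : S_UGat := by
  intro a p n m F Θ hp ha hF hm z
  have hv : ∀ i, 0 ≤ p i * (1 - p i) := fun i => mul_nonneg (hp i).1 (by linarith [(hp i).2])
  have hI : ∀ i, 0 ≤ Iv a p F n i z := fun i => UGat_Iv hp F n i z
  rw [(h3 a p n F z).1]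
  refine (h2 a p n F hp hF.1 z).trans ?_
  -- insert the node bound
  have s1 : ∑ t ∈ range n, 28 * (p t * (1 - p t)) * Av a p (Ico (t + 1) n) (Nd a p F t) z ≤
      ∑ t ∈ range n, (420 * Real.log ((m : ℝ) + 2) * (4 * (p t * (1 - p t)) * Iv a p F n t z) +
        28 * (1 / ((m : ℝ) + 2) ^ 2) * ∑ i ∈ range t, (p t * (1 - p t)) *
          (cg a Θ t i / ((lev a p t i : ℝ) + 1) ^ 2) * (4 * (p i * (1 - p i)) * Iv a p F n i z)) := by
    refine Finset.sum_le_sum fun t ht => ?_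
    have e := UGat_node h1 h3 h4 a p n m t F Θ hp ha hF hm z (Finset.mem_range.1 ht)
    have e' := mul_le_mul_of_nonneg_left e (mul_nonneg (by norm_num : (0 : ℝ) ≤ 28) (hv t))
    refine e'.trans (le_of_eq ?_)
    rw [mul_add]
    congr 1
    · ring
    · rw [Finset.mul_sum, Finset.mul_sum, Finset.mul_sum]
      exact Finset.sum_congr rfl fun i _ => by ring
  refine s1.trans ?_
  rw [Finset.sum_add_distrib, ← Finset.mul_sum, ← Finset.mul_sum,
    UGat_exchange n (fun t i => (p t * (1 - p t)) *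
      (cg a Θ t i / ((lev a p t i : ℝ) + 1) ^ 2) * (4 * (p i * (1 - p i)) * Iv a p F n i z))]
  have s2 : ∑ i ∈ range n, ∑ t ∈ Ico (i + 1) n, (p t * (1 - p t)) *
      (cg a Θ t i / ((lev a p t i : ℝ) + 1) ^ 2) * (4 * (p i * (1 - p i)) * Iv a p F n i z) ≤
      (9 / 2 * ((m : ℝ) ^ 2 + 1)) * ∑ i ∈ range n, 4 * (p i * (1 - p i)) * Iv a p F n i z := by
    rw [Finset.mul_sum]
    refine Finset.sum_le_sum fun i _ => ?_
    rw [← Finset.sum_mul]
    exact mul_le_mul_of_nonneg_right (h5 a p n m i Θ hp ha hm)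
      (mul_nonneg (mul_nonneg (by norm_num) (hv i)) (hI i))
  have s3 : 0 ≤ ∑ i ∈ range n, 4 * (p i * (1 - p i)) * Iv a p F n i z :=
    Finset.sum_nonneg fun i _ => mul_nonneg (mul_nonneg (by norm_num) (hv i)) (hI i)
  have s4 : (0 : ℝ) ≤ 28 * (1 / ((m : ℝ) + 2) ^ 2) := by positivity
  have s5 := mul_le_mul_of_nonneg_left s2 s4
  rw [← mul_assoc] at s5
  have s6 := mul_le_mul_of_nonneg_right (UGat_const m) s3
  have s7 := mul_le_mul_of_nonneg_right (UGat_log m) s3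
  linarith

end Pool.Agent.MP3145b1.UI
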