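import Pool.Agent.Lib.MP_3145b1_co.UI.Spec

/-!
MP_3145b1_co, project UI (owner helper90), module UHar: a sum of reciprocals with a truncated factor.
-/

set_option autoImplicit false

namespace Pool.Agent.MP3145b1.UI

open Finset Pool.Agent.MP3145b1 Pool.Agent.MP3145b1.RC Pool.Agent.MP3145b1.RD Pool.Agent.MP3145b1.RT

private theorem UHar_ii {x y : ℝ} (hx : 0 < x) (hy : 0 < y) (h : y ^ 2 = x ^ 2 + 1) :
    1 / y ^ 2 * (1 / y) ≤ 2 / x - 2 / y := by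
  have hxy : x < y := by
    by_contra hc
    push Not at hc
    nlinarith
  have h1 : x ≤ 2 * y ^ 2 * (y - x) := by
    have h2 : x * (x + y) ≤ 2 * y ^ 2 * (y - x) * (x + y) := by
      have e : 2 * y ^ 2 * (y - x) * (x + y) = 2 * y ^ 2 * (y ^ 2 - x ^ 2) := by ring
      have e2 : y ^ 2 - x ^ 2 = 1 := by linarith
      rw [e, e2, mul_one]
      nlinarith
    exact le_of_mul_le_mul_right h2 (by linarith)
  have e : 2 / x - 2 / y - 1 / y ^ 2 * (1 / y) = (2 * y ^ 2 * (y - x) - x) / (x * y ^ 3) := by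
    field_simp
  have h3 : 0 ≤ (2 * y ^ 2 * (y - x) - x) / (x * y ^ 3) :=
    div_nonneg (by linarith) (by positivity)
  linarith

private theorem UHar_i (s : ℕ) :
    ∑ r ∈ range (s + 2), (if 1 ≤ r then 1 / (r : ℝ) else 0) ≤ 1 + Real.log ((s : ℝ) + 1) := by
  induction s with
  | zero =>
    rw [Finset.sum_range_succ, Finset.sum_range_succ]
    simp
  | succ s ih =>
    rw [Finset.sum_range_succ, if_pos (by omega)]
    have hs : (0 : ℝ) < (s : ℝ) + 1 := by positivity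
    have hs2 : (0 : ℝ) < (s : ℝ) + 1 + 1 := by positivity
    have h1 := Real.one_sub_inv_le_log_of_pos (div_pos hs2 hs)
    rw [Real.log_div hs2.ne' hs.ne'] at h1
    have e : 1 - (((s : ℝ) + 1 + 1) / ((s : ℝ) + 1))⁻¹ = 1 / ((s : ℝ) + 1 + 1) := by
      rw [inv_div, eq_div_iff hs2.ne', sub_mul, div_mul_cancel₀ _ hs2.ne']
      ring
    rw [e] at h1
    push_cast
    have e2 : (s : ℝ) + 2 = (s : ℝ) + 1 + 1 := by ring
    have e4 : s + 1 + 1 = s + 2 := rfl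
    rw [e4, e2]
    linarith

private noncomputable def UHar_f (κ r : ℕ) : ℝ :=
  if 1 ≤ r then 1 / (r : ℝ) * min 1 ((κ : ℝ) / Real.sqrt r) else 0

private theorem UHar_f0 (κ r : ℕ) : 0 ≤ UHar_f κ r := by
  unfold UHar_f
  split_ifs
  · exact mul_nonneg (by positivity) (le_min zero_le_one (by positivity))
  · exact le_rfl

private theorem UHar_f1 (κ r : ℕ) : UHar_f κ r ≤ if 1 ≤ r then 1 / (r : ℝ) else 0 := by
  unfold UHar_f
  split_ifs
  · exact mul_le_of_le_one_right (by positivity) (min_le_left _ _)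
  · exact le_rfl

private theorem UHar_f2 (κ r : ℕ) (hr : 2 ≤ r) :
    UHar_f κ r ≤ κ * (2 / Real.sqrt ((r : ℝ) - 1) - 2 / Real.sqrt r) := by
  unfold UHar_f
  rw [if_pos (by omega)]
  have hr' : (2 : ℝ) ≤ (r : ℝ) := by exact_mod_cast hr
  have hx : 0 < Real.sqrt ((r : ℝ) - 1) := Real.sqrt_pos.mpr (by linarith)
  have hy : 0 < Real.sqrt (r : ℝ) := Real.sqrt_pos.mpr (by linarith)
  have h := UHar_ii hx hy (by
    rw [Real.sq_sqrt (by linarith), Real.sq_sqrt (by linarith)]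
    ring)
  rw [Real.sq_sqrt (by linarith : (0 : ℝ) ≤ (r : ℝ))] at h
  have h1 : 1 / (r : ℝ) * min 1 ((κ : ℝ) / Real.sqrt r) ≤ 1 / (r : ℝ) * ((κ : ℝ) / Real.sqrt r) :=
    mul_le_mul_of_nonneg_left (min_le_right _ _) (by positivity)
  have h2 : 1 / (r : ℝ) * ((κ : ℝ) / Real.sqrt r) = κ * (1 / (r : ℝ) * (1 / Real.sqrt r)) := by ring
  have h3 : (κ : ℝ) * (1 / (r : ℝ) * (1 / Real.sqrt r)) ≤
      κ * (2 / Real.sqrt ((r : ℝ) - 1) - 2 / Real.sqrt r) :=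
    mul_le_mul_of_nonneg_left h (by positivity)
  linarith

private theorem UHar_low (κ : ℕ) (hκ : 1 ≤ κ) :
    ∑ r ∈ range (κ ^ 2 + 1), UHar_f κ r ≤ 1 + 2 * Real.log κ := by
  obtain ⟨s, hs⟩ : ∃ s, κ ^ 2 = s + 1 := ⟨κ ^ 2 - 1, by
    have : 1 ≤ κ ^ 2 := Nat.one_le_pow _ _ hκ
    omega⟩
  have h1 := UHar_i s
  have h2 : ∑ r ∈ range (κ ^ 2 + 1), UHar_f κ r ≤
      ∑ r ∈ range (κ ^ 2 + 1), (if 1 ≤ r then 1 / (r : ℝ) else 0) :=
    Finset.sum_le_sum fun r _ => UHar_f1 κ r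
  have e : ((s : ℝ) + 1) = (κ : ℝ) ^ 2 := by exact_mod_cast hs.symm
  rw [e, Real.log_pow] at h1
  rw [hs] at h2 ⊢
  push_cast at h1
  linarith

private theorem UHar_high (κ : ℕ) (hκ : 1 ≤ κ) (R : ℕ) :
    ∑ r ∈ range (κ ^ 2 + 1 + R), UHar_f κ r ≤
      1 + 2 * Real.log κ + κ * (2 / (κ : ℝ) - 2 / Real.sqrt ((κ : ℝ) ^ 2 + R)) := by
  induction R with
  | zero =>
    have h := UHar_low κ hκ
    have e : Real.sqrt ((κ : ℝ) ^ 2 + (0 : ℕ)) = κ := by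
      rw [Nat.cast_zero, add_zero, Real.sqrt_sq (by positivity)]
    rw [e, sub_self, mul_zero, add_zero, add_zero]
    exact h
  | succ R ih =>
    have e0 : κ ^ 2 + 1 + (R + 1) = κ ^ 2 + 1 + R + 1 := rfl
    rw [e0, Finset.sum_range_succ]
    have h1 : 1 ≤ κ ^ 2 := Nat.one_le_pow _ _ hκ
    have h := UHar_f2 κ (κ ^ 2 + 1 + R) (by omega)
    have e1 : ((κ ^ 2 + 1 + R : ℕ) : ℝ) - 1 = (κ : ℝ) ^ 2 + R := by push_cast; ring
    have e2 : ((κ ^ 2 + 1 + R : ℕ) : ℝ) = (κ : ℝ) ^ 2 + ((R + 1 : ℕ) : ℝ) := by push_cast; ring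
    rw [e1, e2] at h
    nlinarith

theorem rUHar : S_UHar := by
  intro κ R hκ
  have hk : (1 : ℝ) ≤ (κ : ℝ) := by exact_mod_cast hκ
  have hsub : range R ⊆ range (κ ^ 2 + 1 + R) := by
    intro r hr
    rw [Finset.mem_range] at hr ⊢
    omega
  have h1 : ∑ r ∈ range R, UHar_f κ r ≤ ∑ r ∈ range (κ ^ 2 + 1 + R), UHar_f κ r :=
    Finset.sum_le_sum_of_subset_of_nonneg hsub fun r _ _ => UHar_f0 κ r
  have h2 := UHar_high κ hκ R
  have h3 : (κ : ℝ) * (2 / (κ : ℝ) - 2 / Real.sqrt ((κ : ℝ) ^ 2 + R)) ≤ 2 := by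
    have e : (κ : ℝ) * (2 / (κ : ℝ)) = 2 := by field_simp
    have h4 : 0 ≤ (κ : ℝ) * (2 / Real.sqrt ((κ : ℝ) ^ 2 + R)) := by positivity
    rw [mul_sub, e]
    linarith
  change ∑ r ∈ range R, UHar_f κ r ≤ 3 + 2 * Real.log κ
  linarith

end Pool.Agent.MP3145b1.UI
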