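import Pool.Agent.Lib.MP_3145b1_co.UI.Spec

/-!
UHd (heads of the clusters of thresholds), module of the project UI (MP_3145b1_co).
-/

set_option autoImplicit false

namespace Pool.Agent.MP3145b1.UI

open Finset Pool.Agent.MP3145b1 Pool.Agent.MP3145b1.RC Pool.Agent.MP3145b1.RD Pool.Agent.MP3145b1.RT

private theorem UHd_first (Θ : Finset ℝ) (A : ℝ) (hA : 0 < A) (hN : NR Θ A) (θ : ℝ) (hθ : θ ∈ Θ) :
    ∃ β, Hd Θ A β ∧ β ≤ θ ∧ θ < β + A / 2 := by
  classical
  have hne : (Θ.filter (fun t => θ - A / 2 < t ∧ t ≤ θ)).Nonempty :=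
    ⟨θ, Finset.mem_filter.2 ⟨hθ, by linarith, le_refl _⟩⟩
  obtain ⟨β, hβ, hmin⟩ := Finset.exists_min_image _ id hne
  obtain ⟨h1, h2, h3⟩ := Finset.mem_filter.1 hβ
  refine ⟨β, ⟨h1, ?_⟩, h3, by linarith⟩
  rintro t ht ⟨h4, h5⟩
  by_cases h6 : θ - A / 2 < t
  · have h7 := hmin t (Finset.mem_filter.2 ⟨ht, h6, by linarith⟩)
    simp only [id] at h7
    linarith
  · have h6' := not_lt.1 h6
    rcases hN t ht θ hθ (by linarith) with h7 | h7 <;> linarith

theorem rUHd : S_UHd := by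
  intro F Θ A hA hS hN
  refine ⟨fun θ hθ => UHd_first Θ A hA hN θ hθ, ?_⟩
  intro β hβ
  have ha : ∀ y, β - 2 * A ≤ y → y < β → F y = F (β - 2 * A) := by
    intro y h1 h2
    rcases h1.eq_or_lt with h3 | h3
    · rw [h3]
    · refine (hS.2 _ _ h3 ?_).symm
      rintro θ hθ ⟨h4, h5⟩
      by_cases h6 : β - A / 2 < θ
      · exact hβ.2 θ hθ ⟨h6, by linarith⟩
      · have h6' := not_lt.1 h6
        rcases hN θ hθ β hβ.1 (by linarith) with h7 | h7 <;> linarith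
  have hno : ∀ θ ∈ Θ, β + A / 2 ≤ θ → θ ≤ β + 2 * A → False := by
    intro θ hθ h1 h2
    rcases hN β hβ.1 θ hθ (by linarith) with h7 | h7 <;> linarith
  have hb : ∀ y, β + A / 2 ≤ y → y ≤ β + 2 * A → F y = F (β + A) := by
    intro y h1 h2
    rcases lt_trichotomy y (β + A) with h3 | h3 | h3
    · refine hS.2 _ _ h3 ?_
      rintro θ hθ ⟨h4, h5⟩
      exact hno θ hθ (by linarith) (by linarith)
    · rw [h3]
    · refine (hS.2 _ _ h3 ?_).symm
      rintro θ hθ ⟨h4, h5⟩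
      exact hno θ hθ (by linarith) (by linarith)
  refine ⟨ha, hb, ?_⟩
  intro y' h1 h2 h3
  by_cases h4 : β + A / 2 ≤ y'
  · rw [← hb (β + A / 2) le_rfl (by linarith)]
    rcases h4.eq_or_lt with h5 | h5
    · rw [h5]
    · refine (hS.2 _ _ h5 ?_).symm
      rintro θ hθ ⟨h6, h7⟩
      obtain ⟨β', hβ', h8, h9⟩ := UHd_first Θ A hA hN θ hθ
      have h10 : ¬ (β < β' ∧ β' ≤ y') := h3 β' hβ'
      have h11 : β' ≤ β := by
        by_contra h12
        exact h10 ⟨not_le.1 h12, by linarith⟩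
      linarith
  · have h4' := not_le.1 h4
    rw [h2]
    exact hb _ (by linarith) (by linarith)

end Pool.Agent.MP3145b1.UI
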