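import Pool.Agent.Lib.MP_3145b1_co.UI.Spec

/-!
# MP_3145b1_co, project UI, module UInf: influences
-/

set_option autoImplicit false

namespace Pool.Agent.MP3145b1.UI

open Finset Pool.Agent.MP3145b1 Pool.Agent.MP3145b1.RC Pool.Agent.MP3145b1.RD Pool.Agent.MP3145b1.RT

private theorem UInf_one (a p : ℕ → ℝ) (t : ℕ) (G : ℝ → ℝ) (y : ℝ) :
    Av a p {t} G y = p t * G y + (1 - p t) * G (y + a t) := by
  have h := Av_insert a p ∅ t (Finset.notMem_empty t) G y
  rw [Av_empty, Av_empty] at h
  exact h

private theorem UInf_var (a p : ℕ → ℝ) (t : ℕ) (F : ℝ → ℝ) (y : ℝ) :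
    Av a p {t} (fun y' => F y' ^ 2) y - Av a p {t} F y ^ 2 =
      4 * (p t * (1 - p t)) * hA (a t) F y ^ 2 := by
  rw [UInf_one, UInf_one]
  unfold hA
  ring

private theorem UInf_term (h1 : S_TPar) (a p : ℕ → ℝ) (n : ℕ) (F : ℝ → ℝ) (z : ℝ) (t : ℕ)
    (ht : t ∈ range n) :
    ∑ T ∈ (range n).powerset, (if t ∈ T then 1 else 0) * (wt p T * Co a p (range n) T F z ^ 2) =
      4 * (p t * (1 - p t)) * Iv a p F n t z := by
  have hB : ({t} : Finset ℕ) ⊆ range n := Finset.singleton_subset_iff.2 ht
  have h3 := (h1 a p (range n) {t} F z hB).2.2.1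
  have e1 : ∑ T ∈ (range n).powerset, (if t ∈ T then (1 : ℝ) else 0) *
      (wt p T * Co a p (range n) T F z ^ 2) =
      ∑ T ∈ (range n).powerset.filter (fun T => ¬ Disjoint T {t}),
        wt p T * Co a p (range n) T F z ^ 2 := by
    rw [Finset.sum_filter]
    refine Finset.sum_congr rfl fun T _ => ?_
    by_cases h : t ∈ T
    · rw [if_pos h, if_pos (by rw [Finset.disjoint_singleton_right]; exact not_not.2 h), one_mul]
    · rw [if_neg h, if_neg (by rw [Finset.disjoint_singleton_right]; exact not_not.2 h), zero_mul]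
  rw [e1, h3]
  unfold Iv
  rw [← Av_mul, Finset.sdiff_singleton_eq_erase]
  exact Av_congr a p _ (fun y => UInf_var a p t F y) z

/-- **UInf** (influences) -/
theorem rUInf (h1 : S_TPar) : S_UInf := by
  intro a p n F z
  constructor
  · have hc : ∀ T ∈ (range n).powerset, (T.card : ℝ) * (wt p T * Co a p (range n) T F z ^ 2) =
        ∑ t ∈ range n, (if t ∈ T then (1 : ℝ) else 0) * (wt p T * Co a p (range n) T F z ^ 2) := by
      intro T hT
      rw [← Finset.sum_mul, ← Finset.sum_filter, Finset.sum_const, nsmul_eq_mul, mul_one]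
      congr 2
      congr 1
      ext t
      rw [Finset.mem_filter]
      exact ⟨fun h => ⟨Finset.mem_powerset.1 hT h, h⟩, fun h => h.2⟩
    rw [Finset.sum_congr rfl hc, Finset.sum_comm]
    exact Finset.sum_congr rfl fun t ht => UInf_term h1 a p n F z t ht
  · intro t ht
    unfold Iv
    have e : (range n).erase t = Ico (t + 1) n ∪ range t := by
      ext j
      rw [Finset.mem_erase, Finset.mem_union, Finset.mem_range, Finset.mem_Ico, Finset.mem_range]
      omega
    have hd : Disjoint (Ico (t + 1) n) (range t) := by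
      rw [Finset.disjoint_left]
      intro j h2 h3
      rw [Finset.mem_Ico] at h2
      rw [Finset.mem_range] at h3
      omega
    rw [e, Av_union a p _ _ hd]
    rfl

end Pool.Agent.MP3145b1.UI
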