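import Pool.Agent.Lib.MP_3145b1_co.UI.Spec

/-!
# MP_3145b1_co, project UI: levels of the variables
-/

set_option autoImplicit false

namespace Pool.Agent.MP3145b1.UI

open Finset Pool.Agent.MP3145b1 Pool.Agent.MP3145b1.RC Pool.Agent.MP3145b1.RD Pool.Agent.MP3145b1.RT

private theorem ULev_mono (a : ℕ → ℝ) {p : ℕ → ℝ} (hp : ∀ i, 0 ≤ p i ∧ p i ≤ 1) {B C : Finset ℕ}
    (h : B ⊆ C) : vr a p B ≤ vr a p C := by
  unfold vr
  exact Finset.sum_le_sum_of_subset_of_nonneg h fun i _ _ =>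
    mul_nonneg (mul_nonneg (hp i).1 (by linarith [(hp i).2])) (sq_nonneg _)

/-- Levels. -/
theorem rULev : S_ULev := by
  intro a p t hp hat ha
  have hat2 : 0 < a t ^ 2 := by positivity
  have hq : ∀ i, 0 ≤ 512 * vr a p (Ico i t) / a t ^ 2 := fun i =>
    div_nonneg (mul_nonneg (by norm_num) (vr_nonneg a hp _)) hat2.le
  have hup : ∀ i, 512 * vr a p (Ico i t) ≤ ((lev a p t i : ℝ) + 1) * a t ^ 2 := by
    intro i
    have h := (Nat.lt_floor_add_one (512 * vr a p (Ico i t) / a t ^ 2)).le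
    rw [div_le_iff₀ hat2] at h
    exact h
  have hlow : ∀ i, (lev a p t i : ℝ) * a t ^ 2 ≤ 512 * vr a p (Ico i t) := by
    intro i
    have h := Nat.floor_le (hq i)
    rw [le_div_iff₀ hat2] at h
    exact h
  refine ⟨hup, ?_, ?_⟩
  · rintro r hr ⟨i1, hi1, hri1⟩
    classical
    obtain ⟨i0, hi0S, hmax⟩ : ∃ i0 ∈ (range t).filter (fun i => r ≤ lev a p t i),
        ∀ i ∈ (range t).filter (fun i => r ≤ lev a p t i), i ≤ i0 := by
      have hS : ((range t).filter (fun i => r ≤ lev a p t i)).Nonempty :=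
        ⟨i1, by rw [Finset.mem_filter, Finset.mem_range]; exact ⟨hi1, hri1⟩⟩
      exact ⟨Finset.max' _ hS, Finset.max'_mem _ hS, fun i hi => Finset.le_max' _ i hi⟩
    rw [Finset.mem_filter, Finset.mem_range] at hi0S
    have hsub : Ico (i0 + 1) t ⊆ Gr a p t r := by
      intro i hi
      rw [Finset.mem_Ico] at hi
      rw [mem_Gr]
      refine ⟨hi.2, ?_⟩
      by_contra hcon
      have h1 := hmax i (by
        rw [Finset.mem_filter, Finset.mem_range]
        exact ⟨hi.2, by omega⟩)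
      omega
    have hsplit : vr a p (Ico i0 t) = p i0 * (1 - p i0) * a i0 ^ 2 + vr a p (Ico (i0 + 1) t) := by
      unfold vr
      rw [Finset.sum_eq_sum_Ico_succ_bot hi0S.1]
    have h1 := hlow i0
    have h2 : (r : ℝ) * a t ^ 2 ≤ (lev a p t i0 : ℝ) * a t ^ 2 :=
      mul_le_mul_of_nonneg_right (by exact_mod_cast hi0S.2) hat2.le
    have h3 : p i0 * (1 - p i0) ≤ 1 / 4 := by nlinarith [sq_nonneg (p i0 - 1 / 2)]
    have h4 : a i0 ^ 2 ≤ a t ^ 2 := pow_le_pow_left₀ (ha i0 hi0S.1).1 (ha i0 hi0S.1).2 2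
    have h5 : p i0 * (1 - p i0) * a i0 ^ 2 ≤ 1 / 4 * a t ^ 2 :=
      mul_le_mul h3 h4 (sq_nonneg _) (by norm_num)
    have h6 := ULev_mono a hp hsub
    linarith
  · intro b B i hB hi hmax
    classical
    have hne : B.Nonempty := ⟨i, hi⟩
    obtain ⟨i', hi'B, hmin⟩ : ∃ i' ∈ B, ∀ j ∈ B, i' ≤ j :=
      ⟨B.min' hne, B.min'_mem hne, fun j hj => B.min'_le j hj⟩
    have hlevi := (mem_Bl a p t b i).1 (hB hi)
    have hlevi' := (mem_Bl a p t b i').1 (hB hi'B)
    have hsub : B.erase i ⊆ Ico i' i := by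
      intro j hj
      rw [Finset.mem_erase] at hj
      rw [Finset.mem_Ico]
      exact ⟨hmin j hj.2, lt_of_le_of_ne (hmax j hj.2) hj.1⟩
    have hadd : vr a p (Ico i' i) + vr a p (Ico i t) = vr a p (Ico i' t) := by
      unfold vr
      exact Finset.sum_Ico_consecutive _ (hmin i hi) hlevi.1.le
    have h1 := hup i'
    have h2 := hlow i
    rw [hlevi'.2] at h1
    rw [hlevi.2] at h2
    have h3 := ULev_mono a hp hsub
    linarith

end Pool.Agent.MP3145b1.UI
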