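import Pool.Agent.Lib.MP_3145b1_co.UI.Spec

/-!
# MP_3145b1_co, project UI, module UNod: the node inequality
-/

set_option autoImplicit false

namespace Pool.Agent.MP3145b1.UI

open Finset Pool.Agent.MP3145b1 Pool.Agent.MP3145b1.RC Pool.Agent.MP3145b1.RD Pool.Agent.MP3145b1.RT

/-- scaling of the first argument -/
private theorem UNod_lg (U d M : ℝ) (hM : 1 ≤ M) :
    lg |U| (2 * d) ≤ Real.log M + lg |U / M| (2 * d) := by
  have hM0 : 0 < M := by linarith
  have hL : 0 ≤ Real.log M := Real.log_nonneg hM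
  have h0 : 0 ≤ lg |U / M| (2 * d) := lg_nonneg _ _
  by_cases hd : d = 0
  · have e : lg |U| (2 * d) = 0 := by unfold lg; rw [hd]; simp
    linarith
  by_cases hU : U = 0
  · have e : lg |U| (2 * d) = 0 := by unfold lg; rw [hU]; simp
    linarith
  have h2d : (0 : ℝ) < |2 * d| := abs_pos.2 (mul_ne_zero two_ne_zero hd)
  have hU0 : 0 < |U| := abs_pos.2 hU
  have e : |U| / |2 * d| = M * (|U / M| / |2 * d|) := by
    rw [abs_div, abs_of_pos hM0]
    field_simp
  have hq : 0 < |U / M| / |2 * d| := div_pos (abs_pos.2 (div_ne_zero hU hM0.ne')) h2d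
  have h1 : Real.log (|U| / |2 * d|) = Real.log M + Real.log (|U / M| / |2 * d|) := by
    rw [e, Real.log_mul hM0.ne' hq.ne']
  have h2 : Real.log (|U / M| / |2 * d|) ≤ lg |U / M| (2 * d) := le_max_right _ _
  have h3 : lg |U| (2 * d) = max 0 (Real.log (|U| / |2 * d|)) := rfl
  rw [h3, h1]
  exact max_le (by linarith) (by linarith)

/-- the term of the empty set -/
private theorem UNod_emp (U d : ℝ) (hU : |U| ≤ 1) : d ^ 2 * lg |U| (2 * d) ≤ |d| / 2 := by
  by_cases hd : d = 0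
  · rw [hd]; simp
  have hd0 : 0 < |d| := abs_pos.2 hd
  have h2d : (0 : ℝ) < |2 * d| := abs_pos.2 (mul_ne_zero two_ne_zero hd)
  have e2 : |2 * d| = 2 * |d| := by rw [abs_mul, abs_two]
  have hq : 0 ≤ |U| / |2 * d| := div_nonneg (abs_nonneg _) h2d.le
  have hlog : Real.log (|U| / |2 * d|) ≤ |U| / |2 * d| := by
    rcases hq.eq_or_lt with h0 | h0
    · rw [← h0]; simp
    · have := Real.log_le_sub_one_of_pos h0
      linarith
  have hlg : lg |U| (2 * d) ≤ |U| / |2 * d| := max_le hq hlog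
  have h1 : |U| / |2 * d| ≤ 1 / (2 * |d|) := by
    rw [e2]
    exact div_le_div_of_nonneg_right hU (by positivity)
  have h3 : d ^ 2 * lg |U| (2 * d) ≤ d ^ 2 * (1 / (2 * |d|)) :=
    mul_le_mul_of_nonneg_left (hlg.trans h1) (sq_nonneg _)
  have h4 : d ^ 2 * (1 / (2 * |d|)) = |d| / 2 := by
    rw [← sq_abs]
    field_simp
  rw [h4] at h3
  exact h3

/-- the averages of the half difference -/
private theorem UNod_h {F : ℝ → ℝ} {Θ : Finset ℝ} (hF : SC F Θ) (a : ℕ → ℝ) {p : ℕ → ℝ}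
    (hp : ∀ i, 0 ≤ p i ∧ p i ≤ 1) (B : Finset ℕ) (A z : ℝ) :
    |Av a p B (hA A F) z| ≤ Av a p B (fun y => hA A F y ^ 2) z := by
  have hab : ∀ y, |hA A F y| ≤ hA A F y ^ 2 := by
    intro y
    rcases hF.h_sq A y with ⟨_, h⟩ | ⟨_, h, h'⟩
    · rw [h]; simp
    · rw [h, h']
  rw [abs_le]
  constructor
  · have h := Av_mono a hp B (F := fun y => -1 * hA A F y ^ 2) (G := hA A F) (fun y => by
      have h1 := neg_abs_le (hA A F y)
      have h2 := hab y
      linarith) z
    rw [Av_mul a p B (-1) (fun y => hA A F y ^ 2)] at h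
    linarith
  · exact Av_mono a hp B (fun y => (le_abs_self _).trans (hab y)) z

/-- the averages of the smoothed function -/
private theorem UNod_g {F : ℝ → ℝ} {Θ : Finset ℝ} (hF : SC F Θ) (a : ℕ → ℝ) {p : ℕ → ℝ}
    (hp : ∀ i, 0 ≤ p i ∧ p i ≤ 1) (B : Finset ℕ) {q : ℝ} (h0 : 0 ≤ q) (h1 : q ≤ 1) (A z : ℝ) :
    |Av a p B (gA q A F) z| ≤ 1 := by
  rw [abs_le]
  constructor
  · have h := Av_mono a hp B (F := fun _ => (-1 : ℝ)) (G := gA q A F)
      (fun y => (abs_le.1 (hF.g_abs h0 h1 A y)).1) z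
    rwa [Av_const] at h
  · exact Av_le_const a hp B (fun y => (abs_le.1 (hF.g_abs h0 h1 A y)).2) z

/-- the constants -/
private theorem UNod_num (m : ℕ) : 9 / 2 + Real.log ((m : ℝ) + 2) +
    2 * Real.log (640 * ((m : ℝ) + 1)) + 80 * (1 / ((m : ℝ) + 2) ^ 2) ≤
    60 * Real.log ((m : ℝ) + 2) := by
  have hm : (0 : ℝ) ≤ m := Nat.cast_nonneg m
  have h2 : Real.log 2 ≤ Real.log ((m : ℝ) + 2) := Real.log_le_log (by norm_num) (by linarith)
  have hg : 0.6931471803 < Real.log 2 := Real.log_two_gt_d9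
  have h3 : Real.log (640 * ((m : ℝ) + 1)) ≤ 10 * Real.log 2 + Real.log ((m : ℝ) + 2) := by
    have e : 10 * Real.log 2 + Real.log ((m : ℝ) + 2) = Real.log (2 ^ 10 * ((m : ℝ) + 2)) := by
      rw [Real.log_mul (by norm_num) (by linarith), Real.log_pow]
      norm_num
    rw [e]
    exact Real.log_le_log (by positivity) (by nlinarith)
  have h4 : 1 / ((m : ℝ) + 2) ^ 2 ≤ 1 / 4 :=
    one_div_le_one_div_of_le (by norm_num) (by nlinarith)
  norm_num at hg
  linarith

theorem rUNod (h1 : S_TPar) (h2 : S_TPtw) (h3 : S_UPt1) (h4 : S_UPt2) : S_UNod := by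
  intro a p t m F Θ hp ha0 ha hF hm z
  have hW0 := WW_nonneg a hp F t z
  have hm0 : (0 : ℝ) ≤ m := Nat.cast_nonneg m
  have hM1 : (1 : ℝ) ≤ (m : ℝ) + 2 := by linarith
  have hL0 : 0 ≤ Real.log ((m : ℝ) + 2) := Real.log_nonneg hM1
  have hC0 : 0 ≤ ∑ i ∈ range t, cg a Θ t i / ((lev a p t i : ℝ) + 1) ^ 2 * ch a p F t i z :=
    Finset.sum_nonneg fun i _ =>
      mul_nonneg (div_nonneg (cg_nonneg a Θ t i) (sq_nonneg _)) (ch_nonneg a hp F t i z)
  have hM2 : 0 ≤ 1 / ((m : ℝ) + 2) ^ 2 := by positivity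
  rcases ha0.eq_or_lt with h0 | h0
  · -- a step of weight 0
    have hd : ∀ T, Co a p (range t) T (hA (a t) F) z = 0 := by
      intro T
      rw [Co_hA, ← h0, add_zero, sub_self, zero_div]
    have hN : Nd a p F t z = 0 := by
      unfold Nd
      refine Finset.sum_eq_zero fun T _ => ?_
      rw [hd T]
      simp
    rw [hN]
    have h5 := mul_nonneg (mul_nonneg (by norm_num : (0 : ℝ) ≤ 60) hL0) hW0
    have h6 := mul_nonneg hM2 hC0
    linarith
  · set R : ℕ := (range t).sup (lev a p t) + 1 with hR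
    set d : Finset ℕ → ℝ := fun T => Co a p (range t) T (hA (a t) F) z with hd
    set U : Finset ℕ → ℝ := fun T => Co a p (range t) T (gA (p t) (a t) F) z with hU
    set M : ℝ := (m : ℝ) + 2 with hM
    have hMne : M ≠ 0 := by linarith
    have hw : ∀ T, 0 ≤ wt p T := fun T => wt_nonneg hp T
    -- the sum of the squares
    have hX : ∑ T ∈ (range t).powerset, wt p T * d T ^ 2 = WW a p F t z :=
      (h1 a p (range t) ∅ (hA (a t) F) z (Finset.empty_subset _)).1
    have hmem : (∅ : Finset ℕ) ∈ (range t).powerset := Finset.empty_mem_powerset _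
    have hw0 : wt p ∅ = 1 := by simp [wt]
    rw [← Finset.add_sum_erase _ _ hmem, hw0, one_mul] at hX
    -- the pointwise inequality
    have key : ∀ T ∈ (range t).powerset.erase ∅, wt p T * (d T ^ 2 * (1 + lg |U T| (2 * d T))) ≤
        (1 + Real.log M) * (wt p T * d T ^ 2) +
        (∑ r ∈ range R, (if 1 ≤ r ∧ Disjoint T (Gr a p t r) then
          1 / (r : ℝ) * (wt p T * d T ^ 2) else 0)) +
        1 / M ^ 2 * ∑ b ∈ range R, (if ¬ Disjoint T (Bl a p t b) then
          1 / ((b : ℝ) + 1) ^ 2 * (wt p T * U T ^ 2) else 0) := by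
      intro T hT
      obtain ⟨hT0, hTJ⟩ := Finset.mem_erase.1 hT
      have hTJ' : T ⊆ range t := Finset.mem_powerset.1 hTJ
      obtain ⟨i, hi⟩ := Finset.nonempty_iff_ne_empty.2 hT0
      have hit : i < t := Finset.mem_range.1 (hTJ' hi)
      have hlt : lev a p t i < R := Nat.lt_succ_of_le (Finset.le_sup (hTJ' hi))
      have hex : ∃ b, b < R ∧ ¬ Disjoint T (Bl a p t b) :=
        ⟨lev a p t i, hlt, fun h => Finset.disjoint_left.1 h hi ((mem_Bl a p t _ i).2 ⟨hit, rfl⟩)⟩
      have h5 := h2 R (Bl a p t) T hex (U T / M) (d T)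
      have h6 : d T ^ 2 * lg |U T| (2 * d T) ≤
          d T ^ 2 * (Real.log M + lg |U T / M| (2 * d T)) :=
        mul_le_mul_of_nonneg_left (UNod_lg _ _ _ hM1) (sq_nonneg _)
      have h7 : d T ^ 2 * (1 + lg |U T| (2 * d T)) ≤ (1 + Real.log M) * d T ^ 2 +
          (∑ r ∈ range R, (if 1 ≤ r ∧ Disjoint T ((range r).biUnion (Bl a p t)) then
            (1 : ℝ) / r * d T ^ 2 else 0) +
          ∑ b ∈ range R, (if ¬ Disjoint T (Bl a p t b) then
            (1 : ℝ) / (b + 1) ^ 2 * (U T / M) ^ 2 else 0)) := by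
        linarith
      refine (mul_le_mul_of_nonneg_left h7 (hw T)).trans (le_of_eq ?_)
      rw [mul_add, mul_add, Finset.mul_sum, Finset.mul_sum, Finset.mul_sum, ← add_assoc]
      congr 1
      · congr 1
        · ring
        · refine Finset.sum_congr rfl fun r _ => ?_
          unfold Gr
          split_ifs
          · ring
          · rw [mul_zero]
      · refine Finset.sum_congr rfl fun b _ => ?_
        split_ifs
        · rw [mul_zero, mul_zero]
        · rw [div_pow]; ring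
    have hsum := Finset.sum_le_sum key
    rw [Finset.sum_add_distrib, Finset.sum_add_distrib, ← Finset.mul_sum, ← Finset.mul_sum] at hsum
    have e3 : ∑ T ∈ (range t).powerset.erase ∅, ∑ r ∈ range R,
        (if 1 ≤ r ∧ Disjoint T (Gr a p t r) then 1 / (r : ℝ) * (wt p T * d T ^ 2) else 0) ≤
        (3 + 2 * Real.log (640 * ((m : ℝ) + 1))) * WW a p F t z :=
      h3 a p t m R F Θ hp h0 ha hF hm z
    have e4 : ∑ T ∈ (range t).powerset.erase ∅, ∑ b ∈ range R,
        (if ¬ Disjoint T (Bl a p t b) then 1 / ((b : ℝ) + 1) ^ 2 * (wt p T * U T ^ 2) else 0) ≤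
        80 * WW a p F t z +
          ∑ i ∈ range t, cg a Θ t i / ((lev a p t i : ℝ) + 1) ^ 2 * ch a p F t i z :=
      h4 a p t R F Θ hp h0 ha hF z
    have e4' := mul_le_mul_of_nonneg_left e4 hM2
    rw [mul_add] at e4'
    -- the empty set
    have hdW : |d ∅| ≤ WW a p F t z := by
      have h8 := UNod_h hF a hp (range t) (a t) z
      rw [hd]
      dsimp only
      rw [Co_empty]
      exact h8
    have hU1 : |U ∅| ≤ 1 := by
      have h8 := UNod_g hF a hp (range t) (hp t).1 (hp t).2 (a t) z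
      rw [hU]
      dsimp only
      rw [Co_empty]
      exact h8
    have h9 := UNod_emp (U ∅) (d ∅) hU1
    have hNd : Nd a p F t z = wt p ∅ * (d ∅ ^ 2 * (1 + lg |U ∅| (2 * d ∅))) +
        ∑ T ∈ (range t).powerset.erase ∅, wt p T * (d T ^ 2 * (1 + lg |U T| (2 * d T))) :=
      (Finset.add_sum_erase _ _ hmem).symm
    rw [hw0, one_mul] at hNd
    have hn := mul_le_mul_of_nonneg_right (UNod_num m) hW0
    have hS0 : 0 ≤ ∑ T ∈ (range t).powerset.erase ∅, wt p T * d T ^ 2 :=
      Finset.sum_nonneg fun T _ => mul_nonneg (hw T) (sq_nonneg _)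
    have h10 : Real.log M * ∑ T ∈ (range t).powerset.erase ∅, wt p T * d T ^ 2 ≤
        Real.log M * WW a p F t z :=
      mul_le_mul_of_nonneg_left (by linarith [sq_nonneg (d ∅)]) hL0
    rw [← hM] at hn
    rw [hNd]
    linarith
end Pool.Agent.MP3145b1.UI
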