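import Pool.Agent.Lib.MP_3145b1_co.UI.Spec

/-!
# MP_3145b1_co, project UI, module UPt2: the large sums
-/

set_option autoImplicit false

namespace Pool.Agent.MP3145b1.UI

open Finset Pool.Agent.MP3145b1 Pool.Agent.MP3145b1.RC Pool.Agent.MP3145b1.RD Pool.Agent.MP3145b1.RT

/-- sum over the blocks and their elements -/
private theorem UPt2_blocks (a p : ℕ → ℝ) (t R : ℕ) (X : ℕ → ℝ) (hX : ∀ i, 0 ≤ X i) :
    ∑ b ∈ range R, 1 / ((b : ℝ) + 1) ^ 2 * ∑ i ∈ Bl a p t b, X i ≤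
      ∑ i ∈ range t, 1 / ((lev a p t i : ℝ) + 1) ^ 2 * X i := by
  have e1 : ∀ b ∈ range R, 1 / ((b : ℝ) + 1) ^ 2 * ∑ i ∈ Bl a p t b, X i =
      ∑ i ∈ range t, (if lev a p t i = b then 1 / ((b : ℝ) + 1) ^ 2 * X i else 0) := by
    intro b _
    unfold Bl
    rw [Finset.mul_sum, Finset.sum_filter]
  rw [Finset.sum_congr rfl e1, Finset.sum_comm]
  refine Finset.sum_le_sum fun i _ => ?_
  have h0 : 0 ≤ 1 / ((lev a p t i : ℝ) + 1) ^ 2 * X i := mul_nonneg (by positivity) (hX i)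
  by_cases hR : lev a p t i ∈ range R
  · rw [Finset.sum_eq_single_of_mem _ hR (fun b _ hb => if_neg (Ne.symm hb)), if_pos rfl]
  · rw [Finset.sum_eq_zero]
    · exact h0
    · intro b hb
      refine if_neg ?_
      intro h
      rw [h] at hR
      exact hR hb

theorem rUPt2 (h1 : S_TSrs) (h2 : S_UBlk) : S_UPt2 := by
  intro a p t R F Θ hp ha hm hF z
  have hW : 0 ≤ WW a p F t z := WW_nonneg a hp F t z
  rw [Finset.sum_comm]
  have hb : ∀ b ∈ range R, ∑ T ∈ (range t).powerset.erase ∅, (if ¬ Disjoint T (Bl a p t b) then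
      1 / ((b : ℝ) + 1) ^ 2 * (wt p T * Co a p (range t) T (gA (p t) (a t) F) z ^ 2) else 0) ≤
      1 / ((b : ℝ) + 1) ^ 2 * (40 * WW a p F t z + ∑ i ∈ Bl a p t b, cg a Θ t i * ch a p F t i z) := by
    intro b _
    have hpos : (0 : ℝ) ≤ 1 / ((b : ℝ) + 1) ^ 2 := by positivity
    refine le_trans (le_of_eq ?_) (mul_le_mul_of_nonneg_left (h2 a p t b F Θ hp ha hm hF z) hpos)
    rw [Finset.mul_sum, Finset.sum_filter]
    refine Finset.sum_subset (Finset.erase_subset _ _) ?_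
    intro T hT hT'
    have hT0 : T = ∅ := by
      by_contra h
      exact hT' (Finset.mem_erase.2 ⟨h, hT⟩)
    refine if_neg ?_
    rw [hT0, not_not]
    exact Finset.disjoint_empty_left _
  refine (Finset.sum_le_sum hb).trans ?_
  have e : ∀ b ∈ range R, 1 / ((b : ℝ) + 1) ^ 2 * (40 * WW a p F t z +
      ∑ i ∈ Bl a p t b, cg a Θ t i * ch a p F t i z) = 1 / ((b : ℝ) + 1) ^ 2 * (40 * WW a p F t z) +
      1 / ((b : ℝ) + 1) ^ 2 * ∑ i ∈ Bl a p t b, cg a Θ t i * ch a p F t i z := fun b _ => mul_add _ _ _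
  rw [Finset.sum_congr rfl e, Finset.sum_add_distrib, ← Finset.sum_mul]
  refine add_le_add ?_ ?_
  · have h3 := (h1 R).1
    nlinarith
  · refine (UPt2_blocks a p t R (fun i => cg a Θ t i * ch a p F t i z)
      (fun i => mul_nonneg (cg_nonneg a Θ t i) (ch_nonneg a hp F t i z))).trans (le_of_eq ?_)
    refine Finset.sum_congr rfl fun i _ => ?_
    ring

end Pool.Agent.MP3145b1.UI
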