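import Pool.Agent.Lib.MP_3145b1_co.UI.Spec

/-! Module USgl: one light variable. -/

set_option autoImplicit false

namespace Pool.Agent.MP3145b1.UI

open Finset Pool.Agent.MP3145b1 Pool.Agent.MP3145b1.RC Pool.Agent.MP3145b1.RD Pool.Agent.MP3145b1.RT

private lemma USgl_le (P g0 g1 h0 h1 : ℝ) (hP0 : 0 ≤ P) (hP1 : P ≤ 1) (hg0 : |g0| ≤ 1) (hg1 : |g1| ≤ 1)
    (hh : h0 ^ 2 = 1 ∨ h1 ^ 2 = 1) :
    P * g0 ^ 2 + (1 - P) * g1 ^ 2 - (P * g0 + (1 - P) * g1) ^ 2 ≤ 4 * (P * h0 ^ 2 + (1 - P) * h1 ^ 2) := by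
  have e : P * g0 ^ 2 + (1 - P) * g1 ^ 2 - (P * g0 + (1 - P) * g1) ^ 2 = P * (1 - P) * (g0 - g1) ^ 2 := by
    ring
  rw [e]
  have h2 : 0 ≤ 1 - P := by linarith
  have h3 : 0 ≤ P * (1 - P) := mul_nonneg hP0 h2
  obtain ⟨a1, a2⟩ := abs_le.1 hg0
  obtain ⟨b1, b2⟩ := abs_le.1 hg1
  have h4 : (g0 - g1) ^ 2 ≤ 4 := by nlinarith
  have h5 : P * (1 - P) * (g0 - g1) ^ 2 ≤ P * (1 - P) * 4 := mul_le_mul_of_nonneg_left h4 h3
  have h6 : P * (1 - P) ≤ P := by nlinarith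
  have h7 : P * (1 - P) ≤ 1 - P := by nlinarith
  have h8 : 0 ≤ P * h0 ^ 2 := mul_nonneg hP0 (sq_nonneg _)
  have h9 : 0 ≤ (1 - P) * h1 ^ 2 := mul_nonneg h2 (sq_nonneg _)
  rcases hh with hh | hh
  · rw [hh] at h8 ⊢
    linarith
  · rw [hh] at h9 ⊢
    linarith

theorem rUSgl (h1 : S_UWin) : S_USgl := by
  intro a p i F Θ A q z hA0 hSC hNR hp ha hai hq0 hq1
  have key : ∀ G : ℝ → ℝ, Av a p {i} G z = p i * G z + (1 - p i) * G (z + a i) := by
    intro G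
    have h2 := Av_insert a p ∅ i (Finset.notMem_empty i) G z
    rw [Av_empty, Av_empty] at h2
    exact h2
  rw [key, key, key]
  have g0 := hSC.g_abs hq0 hq1 A z
  have g1 := hSC.g_abs hq0 hq1 A (z + a i)
  rcases hSC.h_sq A z with ⟨e0, k0⟩ | ⟨e0, k0, -⟩
  · rcases hSC.h_sq A (z + a i) with ⟨e1, k1⟩ | ⟨e1, k1, -⟩
    · have hF : F z = F (z + a i) := by
        by_contra hne
        have hpos : 0 < a i := by
          rcases ha.lt_or_eq with h | h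
          · exact h
          · exfalso
            apply hne
            rw [← h, add_zero]
        obtain ⟨θ, -, ht1, ht2, -⟩ := h1 F Θ A hA0 hSC hNR z (z + a i) (by linarith) e0 e1 hne
        linarith
      have r0 : gA q A F z = F z := gA_eq q z e0
      have r1 : gA q A F (z + a i) = F z := by rw [gA_eq q (z + a i) e1, ← hF]
      simp only [r0, r1, k0, k1]
      apply le_of_eq
      ring
    · exact USgl_le (p i) _ _ _ _ (hp i).1 (hp i).2 g0 g1 (Or.inr k1)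
  · exact USgl_le (p i) _ _ _ _ (hp i).1 (hp i).2 g0 g1 (Or.inl k0)

end Pool.Agent.MP3145b1.UI
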