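import Pool.Agent.Lib.MP_3145b1_co.UI.Spec

set_option autoImplicit false

namespace Pool.Agent.MP3145b1.UI

open Finset Pool.Agent.MP3145b1 Pool.Agent.MP3145b1.RC Pool.Agent.MP3145b1.RD Pool.Agent.MP3145b1.RT

open Classical in
/-- indicator of the class of `L` -/
private noncomputable def USmc_I (a : ℕ → ℝ) (L : ℝ) (t : ℕ) : ℝ :=
  if 0 < L ∧ L ≤ a t ∧ a t ≤ 4 * L then 1 else 0

private lemma USmc_I_nonneg (a : ℕ → ℝ) (L : ℝ) (t : ℕ) : 0 ≤ USmc_I a L t := by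
  unfold USmc_I; split_ifs <;> norm_num

private lemma USmc_I_one (a : ℕ → ℝ) (L : ℝ) (t : ℕ) (h : 0 < L ∧ L ≤ a t ∧ a t ≤ 4 * L) :
    USmc_I a L t = 1 := by
  unfold USmc_I; rw [if_pos h]

/-- the sum over one class -/
private lemma USmc_class (h1 : S_ULev) (h2 : S_UCls) (a p : ℕ → ℝ) (n i : ℕ) (L : ℝ)
    (hp : ∀ i, 0 ≤ p i ∧ p i ≤ 1) (ha : ∀ i j, i ≤ j → j < n → 0 ≤ a i ∧ a i ≤ a j) :
    ∑ t ∈ Ico (i + 1) n, p t * (1 - p t) / ((lev a p t i : ℝ) + 1) ^ 2 * USmc_I a L t ≤ 9 / 2 := by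
  classical
  by_cases hL : 0 < L
  swap
  · have h0 : ∑ t ∈ Ico (i + 1) n, p t * (1 - p t) / ((lev a p t i : ℝ) + 1) ^ 2 * USmc_I a L t = 0 := by
      apply Finset.sum_eq_zero
      intro t _
      have : USmc_I a L t = 0 := by
        unfold USmc_I; rw [if_neg]; exact fun h => hL h.1
      rw [this, mul_zero]
    rw [h0]; norm_num
  have hv : ∀ t, 0 ≤ p t * (1 - p t) := fun t => mul_nonneg (hp t).1 (by linarith [(hp t).2])
  have hv4 : ∀ t, p t * (1 - p t) ≤ 1 / 4 := fun t => by nlinarith [sq_nonneg (p t - 1 / 2)]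
  have key := h2 (fun t => p t * (1 - p t)) (fun t => (lev a p t i : ℝ) + 1)
    (fun t => L ≤ a t ∧ a t ≤ 4 * L) i n (fun t => ⟨hv t, hv4 t⟩)
    (fun t => by
      have : (0 : ℝ) ≤ (lev a p t i : ℝ) := Nat.cast_nonneg _
      linarith) ?_
  · refine le_trans (le_of_eq ?_) key
    rw [Finset.sum_filter]
    refine Finset.sum_congr rfl fun t _ => ?_
    unfold USmc_I
    by_cases hP : L ≤ a t ∧ a t ≤ 4 * L
    · rw [if_pos hP, if_pos ⟨hL, hP⟩, mul_one]
    · rw [if_neg hP, if_neg (fun h => hP h.2), mul_zero]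
  · intro t hit htn hP
    have hat : 0 < a t := lt_of_lt_of_le hL hP.1
    have hlev := (h1 a p t hp hat (fun j hj => ha j t hj.le htn)).1 i
    have e1 : L ^ 2 * ∑ u ∈ (Ico (i + 1) t).filter (fun t => L ≤ a t ∧ a t ≤ 4 * L), p u * (1 - p u)
        ≤ vr a p (Ico i t) := by
      unfold vr
      rw [Finset.mul_sum]
      calc _ ≤ ∑ u ∈ (Ico (i + 1) t).filter (fun t => L ≤ a t ∧ a t ≤ 4 * L),
            p u * (1 - p u) * a u ^ 2 := by
            refine Finset.sum_le_sum fun u hu => ?_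
            have hu' := (Finset.mem_filter.1 hu).2
            have : L ^ 2 ≤ a u ^ 2 := by nlinarith [hu'.1]
            nlinarith [hv u]
        _ ≤ _ := by
            refine Finset.sum_le_sum_of_subset_of_nonneg ?_ (fun u _ _ => mul_nonneg (hv u) (sq_nonneg _))
            intro u hu
            have hu' := Finset.mem_Ico.1 (Finset.mem_filter.1 hu).1
            exact Finset.mem_Ico.2 ⟨by omega, hu'.2⟩
    have e2 : a t ^ 2 ≤ 16 * L ^ 2 := by nlinarith [hP.2]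
    have e3 : (0 : ℝ) ≤ (lev a p t i : ℝ) + 1 := by positivity
    have e4 : 512 * (L ^ 2 * ∑ u ∈ (Ico (i + 1) t).filter (fun t => L ≤ a t ∧ a t ≤ 4 * L),
        p u * (1 - p u)) ≤ ((lev a p t i : ℝ) + 1) * (16 * L ^ 2) := by
      calc _ ≤ 512 * vr a p (Ico i t) := by linarith
        _ ≤ _ := hlev
        _ ≤ _ := mul_le_mul_of_nonneg_left e2 e3
    have hL2 : 0 < L ^ 2 := by positivity
    set s := ∑ u ∈ (Ico (i + 1) t).filter (fun t => L ≤ a t ∧ a t ≤ 4 * L), p u * (1 - p u) with hs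
    have e5 : 32 * s ≤ (lev a p t i : ℝ) + 1 := by
      have : L ^ 2 * (32 * s) ≤ L ^ 2 * ((lev a p t i : ℝ) + 1) := by nlinarith
      exact le_of_mul_le_mul_left this hL2
    have e6 : 0 ≤ s := Finset.sum_nonneg fun u _ => hv u
    show s ≤ (lev a p t i : ℝ) + 1
    linarith

/-- the indicator `cg` is at most the sum of the indicators of the classes -/
private lemma USmc_point (a : ℕ → ℝ) (n i t : ℕ) (Θ : Finset ℝ)
    (ha : ∀ i j, i ≤ j → j < n → 0 ≤ a i ∧ a i ≤ a j) (hit : i < t) (htn : t < n) :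
    cg a Θ t i ≤ USmc_I a (a i) t + ∑ q ∈ Θ ×ˢ Θ, USmc_I a ((q.2 - q.1) / 2) t := by
  have hs : 0 ≤ ∑ q ∈ Θ ×ˢ Θ, USmc_I a ((q.2 - q.1) / 2) t :=
    Finset.sum_nonneg fun q _ => USmc_I_nonneg a _ t
  have h0 := USmc_I_nonneg a (a i) t
  by_cases h1 : a t < 2 * a i
  · have h2 := ha i t hit.le htn
    have h3 := USmc_I_one a (a i) t ⟨by linarith, h2.2, by linarith⟩
    have h4 := cg_le_one a Θ t i
    linarith
  · by_cases h2 : NR Θ (a t)
    · rw [cg_zero a Θ t i (not_lt.1 h1) h2]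
      linarith
    · unfold NR at h2
      push Not at h2
      obtain ⟨θ, hθ, θ', hθ', hlt, h3, h4⟩ := h2
      have h5 : USmc_I a ((θ' - θ) / 2) t ≤ ∑ q ∈ Θ ×ˢ Θ, USmc_I a ((q.2 - q.1) / 2) t :=
        Finset.single_le_sum (f := fun q : ℝ × ℝ => USmc_I a ((q.2 - q.1) / 2) t)
          (fun q _ => USmc_I_nonneg a _ t) (Finset.mk_mem_product hθ hθ')
      have h6 := USmc_I_one a ((θ' - θ) / 2) t ⟨by linarith, by linarith, by linarith⟩
      have h7 := cg_le_one a Θ t i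
      linarith

theorem rUSmc (h1 : S_ULev) (h2 : S_UCls) : S_USmc := by
  intro a p n m i Θ hp ha hm
  have hv : ∀ t, 0 ≤ p t * (1 - p t) := fun t => mul_nonneg (hp t).1 (by linarith [(hp t).2])
  have hm2 : ((Θ ×ˢ Θ).card : ℝ) ≤ (m : ℝ) ^ 2 := by
    rw [Finset.card_product]
    have : (Θ.card : ℝ) ≤ m := by exact_mod_cast hm
    push_cast
    have h0 : (0 : ℝ) ≤ (Θ.card : ℝ) := Nat.cast_nonneg _
    nlinarith
  calc ∑ t ∈ Ico (i + 1) n, p t * (1 - p t) * (cg a Θ t i / ((lev a p t i : ℝ) + 1) ^ 2)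
      ≤ ∑ t ∈ Ico (i + 1) n, p t * (1 - p t) / ((lev a p t i : ℝ) + 1) ^ 2 *
          (USmc_I a (a i) t + ∑ q ∈ Θ ×ˢ Θ, USmc_I a ((q.2 - q.1) / 2) t) := by
        refine Finset.sum_le_sum fun t ht => ?_
        have ht' := Finset.mem_Ico.1 ht
        have h3 := USmc_point a n i t Θ ha (by omega) ht'.2
        have h4 : 0 ≤ p t * (1 - p t) / ((lev a p t i : ℝ) + 1) ^ 2 :=
          div_nonneg (hv t) (sq_nonneg _)
        calc p t * (1 - p t) * (cg a Θ t i / ((lev a p t i : ℝ) + 1) ^ 2)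
            = p t * (1 - p t) / ((lev a p t i : ℝ) + 1) ^ 2 * cg a Θ t i := by ring
          _ ≤ _ := mul_le_mul_of_nonneg_left h3 h4
    _ = ∑ t ∈ Ico (i + 1) n, p t * (1 - p t) / ((lev a p t i : ℝ) + 1) ^ 2 * USmc_I a (a i) t +
        ∑ q ∈ Θ ×ˢ Θ, ∑ t ∈ Ico (i + 1) n,
          p t * (1 - p t) / ((lev a p t i : ℝ) + 1) ^ 2 * USmc_I a ((q.2 - q.1) / 2) t := by
        rw [Finset.sum_comm, ← Finset.sum_add_distrib]
        refine Finset.sum_congr rfl fun t _ => ?_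
        rw [mul_add, Finset.mul_sum]
    _ ≤ 9 / 2 + ∑ q ∈ Θ ×ˢ Θ, (9 / 2 : ℝ) := by
        refine add_le_add (USmc_class h1 h2 a p n i _ hp ha) (Finset.sum_le_sum fun q _ => ?_)
        exact USmc_class h1 h2 a p n i _ hp ha
    _ ≤ 9 / 2 * ((m : ℝ) ^ 2 + 1) := by
        rw [Finset.sum_const, nsmul_eq_mul]
        nlinarith

end Pool.Agent.MP3145b1.UI
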