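import Pool.Agent.Lib.MP_3145b1_co.UI.Spec

/-!
# MP_3145b1_co, project UI, module USml: small ball
-/

set_option autoImplicit false

namespace Pool.Agent.MP3145b1.UI

open Finset Pool.Agent.MP3145b1 Pool.Agent.MP3145b1.RC Pool.Agent.MP3145b1.RD Pool.Agent.MP3145b1.RT

private theorem USml_pt {F : ℝ → ℝ} {Θ : Finset ℝ} (h : SC F Θ) (A : ℝ) (hA0 : 0 < A) (y : ℝ) :
    |hA A F y| ≤ ∑ θ ∈ Θ, Wn θ A y ∧ |hA A F y| ≤ 1 := by
  have hs : 0 ≤ ∑ θ ∈ Θ, Wn θ A y := Finset.sum_nonneg fun θ _ => Wn_nonneg θ A y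
  rcases h.h_sq A y with ⟨_, h2⟩ | ⟨h1, _, h3⟩
  · rw [h2, abs_zero]
    exact ⟨hs, zero_le_one⟩
  · rw [h3]
    refine ⟨?_, le_rfl⟩
    by_contra hcon
    apply h1
    apply h.2 y (y + A) (by linarith)
    rintro θ hθ ⟨h4, h5⟩
    apply hcon
    have e : Wn θ A y = 1 := if_pos ⟨by linarith, h4⟩
    rw [← e]
    exact Finset.single_le_sum (f := fun θ => Wn θ A y) (fun θ _ => Wn_nonneg θ A y) hθ

theorem rUSml (h1 : S_TEsn) : S_USml := by
  intro a p G F Θ A z m r hA0 hSC hcard hB hr hv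
  have hp := hB.2
  have hr0 : (1 : ℝ) ≤ r := by exact_mod_cast hr
  have hm0 : (0 : ℝ) ≤ m := Nat.cast_nonneg m
  have hneg : Av a p G (fun y => -1 * hA A F y) z = -Av a p G (hA A F) z := by
    rw [Av_mul]
    ring
  have hs : 0 < Real.sqrt r := Real.sqrt_pos.2 (by linarith)
  rcases lt_or_ge (r : ℝ) 1024 with hr1 | hr1
  · have hs2 : Real.sqrt r ≤ 32 := by
      rw [Real.sqrt_le_iff]
      exact ⟨by norm_num, by linarith⟩
    have hb : (1 : ℝ) ≤ 640 * ((m : ℝ) + 1) / Real.sqrt r := by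
      rw [le_div_iff₀ hs]
      nlinarith
    have u1 : Av a p G (hA A F) z ≤ 1 :=
      Av_le_const a hp G (fun y => (le_abs_self _).trans (USml_pt hSC A hA0 y).2) z
    have u2 : Av a p G (fun y => -1 * hA A F y) z ≤ 1 :=
      Av_le_const a hp G (fun y => by
        have h := (USml_pt hSC A hA0 y).2
        have h' := neg_abs_le (hA A F y)
        linarith) z
    rw [hneg] at u2
    rw [abs_le]
    constructor <;> linarith
  · have hx0 : (0 : ℝ) ≤ (r : ℝ) / 1024 := by positivity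
    have hx2 : Real.sqrt ((r : ℝ) / 1024) ^ 2 = (r : ℝ) / 1024 := Real.sq_sqrt hx0
    have hxn : 0 ≤ Real.sqrt ((r : ℝ) / 1024) := Real.sqrt_nonneg _
    have hx : 1 ≤ Real.sqrt ((r : ℝ) / 1024) := by
      apply Real.le_sqrt_of_sq_le
      linarith
    have hN1 : ((⌊Real.sqrt ((r : ℝ) / 1024)⌋₊ : ℕ) : ℝ) ≤ Real.sqrt ((r : ℝ) / 1024) := Nat.floor_le hxn
    have hN2 : Real.sqrt ((r : ℝ) / 1024) < (⌊Real.sqrt ((r : ℝ) / 1024)⌋₊ : ℕ) + 1 :=
      Nat.lt_floor_add_one _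
    have hN0 : 1 ≤ ⌊Real.sqrt ((r : ℝ) / 1024)⌋₊ := (Nat.one_le_floor_iff _).2 hx
    generalize ⌊Real.sqrt ((r : ℝ) / 1024)⌋₊ = N at hN1 hN2 hN0
    generalize hxe : Real.sqrt ((r : ℝ) / 1024) = x at hx2 hxn hx hN1 hN2
    have hN3 : (1 : ℝ) ≤ N := by exact_mod_cast hN0
    have hNv : (N : ℝ) ^ 2 * A ^ 2 ≤ vr a p G := by
      have h : (N : ℝ) ^ 2 ≤ (r : ℝ) / 1024 := by
        rw [← hx2]
        exact pow_le_pow_left₀ (by linarith) hN1 2
      have hA2 : 0 ≤ A ^ 2 := sq_nonneg A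
      have h5 : 0 ≤ ((r : ℝ) - 1024) * A ^ 2 := mul_nonneg (by linarith) hA2
      have h6 := mul_le_mul_of_nonneg_right h hA2
      nlinarith
    have hsum : Av a p G (fun y => ∑ θ ∈ Θ, Wn θ A y) z ≤ m * (10 / N) := by
      rw [Av_sum a p G Θ (fun θ y => Wn θ A y) z]
      have h7 : ∑ θ ∈ Θ, Av a p G (fun y => Wn θ A y) z ≤ ∑ _θ ∈ Θ, (10 : ℝ) / N :=
        Finset.sum_le_sum fun θ _ => h1 a p G A θ z N hA0 hB hN0 hNv
      rw [Finset.sum_const, nsmul_eq_mul] at h7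
      have h8 : (Θ.card : ℝ) ≤ m := by exact_mod_cast hcard
      have h9 : (0 : ℝ) ≤ 10 / N := by positivity
      exact h7.trans (mul_le_mul_of_nonneg_right h8 h9)
    have u1 : Av a p G (hA A F) z ≤ Av a p G (fun y => ∑ θ ∈ Θ, Wn θ A y) z :=
      Av_mono a hp G (fun y => (le_abs_self _).trans (USml_pt hSC A hA0 y).1) z
    have u2 : Av a p G (fun y => -1 * hA A F y) z ≤ Av a p G (fun y => ∑ θ ∈ Θ, Wn θ A y) z :=
      Av_mono a hp G (fun y => by
        have h := (USml_pt hSC A hA0 y).1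
        have h' := neg_abs_le (hA A F y)
        linarith) z
    rw [hneg] at u2
    have hs2 : Real.sqrt r ≤ 32 * x := by
      rw [Real.sqrt_le_iff]
      refine ⟨by linarith, ?_⟩
      have h : (r : ℝ) = 1024 * x ^ 2 := by rw [hx2]; ring
      rw [h]
      nlinarith [sq_nonneg x]
    have hfin : (m : ℝ) * (10 / N) ≤ 640 * ((m : ℝ) + 1) / Real.sqrt r := by
      have h10 : (10 : ℝ) / N ≤ 640 / Real.sqrt r := by
        rw [div_le_div_iff₀ (by linarith) hs]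
        have h : x ≤ 2 * N := by linarith
        nlinarith
      have h11 : (0 : ℝ) ≤ 640 / Real.sqrt r := by positivity
      calc (m : ℝ) * (10 / N) ≤ m * (640 / Real.sqrt r) := mul_le_mul_of_nonneg_left h10 hm0
        _ ≤ ((m : ℝ) + 1) * (640 / Real.sqrt r) := mul_le_mul_of_nonneg_right (by linarith) h11
        _ = _ := by ring
    rw [abs_le]
    constructor <;> linarith

end Pool.Agent.MP3145b1.UI
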