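import Pool.Agent.Lib.MP_3145b1_co.UI.Spec

/-!
# MP_3145b1_co, project UI: telescoping
-/

set_option autoImplicit false

namespace Pool.Agent.MP3145b1.UI

open Finset Pool.Agent.MP3145b1 Pool.Agent.MP3145b1.RC Pool.Agent.MP3145b1.RD Pool.Agent.MP3145b1.RT

private theorem UTel_step (h1 : S_GTw) (a p : ℕ → ℝ) (n : ℕ) (F : ℝ → ℝ) (hp : ∀ i, 0 ≤ p i ∧ p i ≤ 1) (z : ℝ) :
    ∑ T ∈ (range (n + 1)).powerset, wt p T * hh (Co a p (range (n + 1)) T F z ^ 2) ≤
      28 * (p n * (1 - p n)) * Nd a p F n z +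
      p n * (∑ T ∈ (range n).powerset, wt p T * hh (Co a p (range n) T F z ^ 2)) +
      (1 - p n) * (∑ T ∈ (range n).powerset, wt p T * hh (Co a p (range n) T F (z + a n) ^ 2)) := by
  have hn : n ∉ range n := Finset.notMem_range_self
  rw [Finset.range_add_one, Finset.sum_powerset_insert hn, ← Finset.sum_add_distrib]
  unfold Nd
  rw [Finset.mul_sum, Finset.mul_sum, Finset.mul_sum, ← Finset.sum_add_distrib, ← Finset.sum_add_distrib]
  refine Finset.sum_le_sum fun T hT => ?_
  have hTs : T ⊆ range n := Finset.mem_powerset.1 hT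
  have hnT : n ∉ T := fun h => hn (hTs h)
  rw [Co_insert_not a p (range n) T n hn hTs, Co_insert_mem a p (range n) T n hn hTs, Co_gA, Co_hA,
    wt_insert p T n hnT]
  have h := h1 (p n) (Co a p (range n) T F z) (Co a p (range n) T F (z + a n)) (hp n).1 (hp n).2
  have hw : 0 ≤ wt p T := wt_nonneg hp T
  have h' := mul_le_mul_of_nonneg_left h hw
  rw [show (2 : ℝ) * ((Co a p (range n) T F z - Co a p (range n) T F (z + a n)) / 2) =
    Co a p (range n) T F z - Co a p (range n) T F (z + a n) by ring]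
  unfold dlp at h'
  linarith [h']

private theorem UTel_sum (a p : ℕ → ℝ) (n : ℕ) (G : ℕ → ℝ → ℝ) (z : ℝ) :
    ∑ t ∈ range (n + 1), 28 * (p t * (1 - p t)) * Av a p (Ico (t + 1) (n + 1)) (G t) z =
      28 * (p n * (1 - p n)) * G n z +
      p n * (∑ t ∈ range n, 28 * (p t * (1 - p t)) * Av a p (Ico (t + 1) n) (G t) z) +
      (1 - p n) * (∑ t ∈ range n, 28 * (p t * (1 - p t)) * Av a p (Ico (t + 1) n) (G t) (z + a n)) := by
  rw [Finset.sum_range_succ, Finset.Ico_self, Av_empty, Finset.mul_sum, Finset.mul_sum]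
  have e : ∀ t ∈ range n, 28 * (p t * (1 - p t)) * Av a p (Ico (t + 1) (n + 1)) (G t) z =
      p n * (28 * (p t * (1 - p t)) * Av a p (Ico (t + 1) n) (G t) z) +
      (1 - p n) * (28 * (p t * (1 - p t)) * Av a p (Ico (t + 1) n) (G t) (z + a n)) := by
    intro t ht
    have ht' : t < n := Finset.mem_range.1 ht
    have e1 : Ico (t + 1) (n + 1) = insert n (Ico (t + 1) n) := by
      ext j
      simp only [Finset.mem_Ico, Finset.mem_insert]
      omega
    have e2 : n ∉ Ico (t + 1) n := by
      rw [Finset.mem_Ico]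
      omega
    rw [e1, Av_insert a p _ n e2]
    ring
  rw [Finset.sum_congr rfl e, Finset.sum_add_distrib]
  ring

theorem rUTel (h1 : S_GTw) : S_UTel := by
  intro a p n F hp hF
  induction n with
  | zero =>
    intro z
    rw [Finset.range_zero, Finset.powerset_empty, Finset.sum_singleton, Finset.sum_empty, Co_empty, Av_empty]
    have e : F z ^ 2 = 1 := by rcases hF z with h | h <;> rw [h] <;> norm_num
    rw [e]
    have e2 : hh 1 = 0 := by
      unfold hh
      exact Real.negMulLog_one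
    rw [e2, mul_zero]
  | succ n ih =>
    intro z
    refine (UTel_step h1 a p n F hp z).trans ?_
    rw [UTel_sum a p n (Nd a p F) z]
    have m1 := mul_le_mul_of_nonneg_left (ih z) (hp n).1
    have m2 := mul_le_mul_of_nonneg_left (ih (z + a n)) (sub_nonneg.2 (hp n).2)
    linarith

end Pool.Agent.MP3145b1.UI
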