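import Pool.Agent.Lib.MP_3145b1_co.UI.Spec

set_option autoImplicit false

namespace Pool.Agent.MP3145b1.UI

open Finset Pool.Agent.MP3145b1 Pool.Agent.MP3145b1.RC Pool.Agent.MP3145b1.RD Pool.Agent.MP3145b1.RT

/-- **UWin** (windows). -/
theorem rUWin (h1 : S_UHd) : S_UWin := by
  classical
  intro F Θ A hA hSC hNR
  obtain ⟨hex, hhd⟩ := h1 F Θ A hA hSC hNR
  have H : ∀ n : ℕ, ∀ y y' : ℝ, (Θ.filter (fun θ => y < θ ∧ θ ≤ y')).card < n → y < y' →
      F y = F (y + A) → F y' = F (y' + A) → F y ≠ F y' →
      ∃ θ ∈ Θ, y < θ - A / 2 ∧ θ ≤ y' ∧ ∀ u, θ - A / 2 ≤ u → u < θ → F u ≠ F (u + A) := by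
    intro n
    induction n with
    | zero => intro y y' h; exact absurd h (Nat.not_lt_zero _)
    | succ n ih =>
      intro y y' hc hyy e1 e2 hne
      by_cases hSe : (Θ.filter (fun β => Hd Θ A β ∧ y < β ∧ β ≤ y')).Nonempty
      · obtain ⟨β, hβm, hβmax⟩ := Finset.exists_max_image _ id hSe
        rw [Finset.mem_filter] at hβm
        obtain ⟨hβΘ, hβ, hyβ, hβy'⟩ := hβm
        obtain ⟨ha, hb, hcc⟩ := hhd β hβ
        have hF' : F y' = F (β + A) := by
          refine hcc y' hβy' e2 ?_
          rintro β' hβ' ⟨h2, h3⟩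
          have h4 := hβmax β' (Finset.mem_filter.2 ⟨hβ'.1, hβ', hyβ.trans h2, h3⟩)
          simp only [id] at h4
          linarith
        by_cases hs : F (β - 2 * A) = F (β + A)
        · have hy1 : y < β - 3 * A / 2 := by
            by_contra hcon
            push Not at hcon
            apply hne
            rw [ha y (by linarith) hyβ, hs, hF']
          have e3 : F (β - 3 * A / 2) = F (β - 2 * A) := ha _ (by linarith) (by linarith)
          have e4 : F (β - 3 * A / 2 + A) = F (β - 2 * A) := ha _ (by linarith) (by linarith)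
          have hlt : (Θ.filter (fun θ => y < θ ∧ θ ≤ β - 3 * A / 2)).card < n := by
            refine lt_of_lt_of_le ?_ (Nat.le_of_lt_succ hc)
            apply Finset.card_lt_card
            rw [Finset.ssubset_iff_of_subset]
            · refine ⟨β, Finset.mem_filter.2 ⟨hβΘ, hyβ, hβy'⟩, ?_⟩
              rw [Finset.mem_filter]
              rintro ⟨_, _, h5⟩
              linarith
            · intro θ hθ
              rw [Finset.mem_filter] at hθ ⊢
              exact ⟨hθ.1, hθ.2.1, by linarith [hθ.2.2]⟩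
          obtain ⟨θ, hθ, h6, h7, h8⟩ := ih y (β - 3 * A / 2) hlt hy1 e1 (by rw [e3, e4])
            (by rw [e3, hs, ← hF']; exact hne)
          exact ⟨θ, hθ, h6, by linarith, h8⟩
        · have hw : ∀ u, β - A / 2 ≤ u → u < β → F u ≠ F (u + A) := by
            intro u hu1 hu2
            rw [ha u (by linarith) hu2, hb (u + A) (by linarith) (by linarith)]
            exact hs
          refine ⟨β, hβΘ, ?_, hβy', hw⟩
          by_contra hcon
          push Not at hcon
          exact hw y hcon hyβ e1
      · exfalso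
        have hno : ∀ β', Hd Θ A β' → ¬ (y < β' ∧ β' ≤ y') := by
          rintro β' hβ' ⟨h2, h3⟩
          exact hSe ⟨β', Finset.mem_filter.2 ⟨hβ'.1, hβ', h2, h3⟩⟩
        by_cases hTe : (Θ.filter (fun β => Hd Θ A β ∧ β ≤ y)).Nonempty
        · obtain ⟨α, hαm, hαmax⟩ := Finset.exists_max_image _ id hTe
          rw [Finset.mem_filter] at hαm
          obtain ⟨hαΘ, hα, hαy⟩ := hαm
          obtain ⟨_, _, hcc⟩ := hhd α hα
          have h4 : F y = F (α + A) := by
            refine hcc y hαy e1 ?_
            rintro β' hβ' ⟨h2, h3⟩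
            have h5 := hαmax β' (Finset.mem_filter.2 ⟨hβ'.1, hβ', h3⟩)
            simp only [id] at h5
            linarith
          have h5 : F y' = F (α + A) := by
            refine hcc y' (by linarith) e2 ?_
            rintro β' hβ' ⟨h2, h3⟩
            by_cases h6 : β' ≤ y
            · have h7 := hαmax β' (Finset.mem_filter.2 ⟨hβ'.1, hβ', h6⟩)
              simp only [id] at h7
              linarith
            · exact hno β' hβ' ⟨not_le.1 h6, h3⟩
          exact hne (h4.trans h5.symm)
        · apply hne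
          refine hSC.2 y y' hyy ?_
          rintro θ hθ ⟨h2, h3⟩
          obtain ⟨β, hβ, h4, h5⟩ := hex θ hθ
          by_cases h6 : β ≤ y
          · exact hTe ⟨β, Finset.mem_filter.2 ⟨hβ.1, hβ, h6⟩⟩
          · exact hno β hβ ⟨not_le.1 h6, by linarith⟩
  intro y y' hyy e1 e2 hne
  exact H _ y y' (Nat.lt_succ_self _) hyy e1 e2 hne

end Pool.Agent.MP3145b1.UI
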