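import Pool.Agent.Lib.MP_3145b1_co.UI.Spec
import Pool.Agent.Lib.MP_3145b1_co.AG.Spec2

/-!
# MP_3145b1_co, project UI, part 2 (architect helper90): any set of variables, the sharp inequality, gates and compositions

The plain gate inequality (UI/Spec.lean, S_UGat) is transferred to every finite set of variables with nonnegative weights (S_UGI); S_AHr (project AG, helper45)
gives the sharp inequality (S_USh), so functions of a linear form with `m` sign changes are gates which preserve the sharp inequality (S_UGm), at any depth.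

RULES: as in UI/Spec.lean, import Pool.Agent.Lib.MP_3145b1_co.UI.Spec2; open in addition Pool.Agent.MP3145b1.AG (Hs, Dd, Ti). Inside the namespace UI the name
`Hd` means UI.Hd.
-/

set_option autoImplicit false

namespace Pool.Agent.MP3145b1.UI

open Finset Pool.Agent.MP3145b1 Pool.Agent.MP3145b1.RC Pool.Agent.MP3145b1.RD Pool.Agent.MP3145b1.RT Pool.Agent.MP3145b1.AG

/-- **UEn** (sorted enumeration). Uses: nothing.
Proof. Induction on `J.card` (Finset.induction_on_max_value, or remove an element of `J` with the largest `a`): `J = insert j J'`, `a i ≤ a j` for `i ∈ J'`, `e'` for `J'`; `e i = if i < J'.card then e' i else j`. -/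
def S_UEn : Prop := ∀ (J : Finset ℕ) (a : ℕ → ℝ), ∃ e : ℕ → ℕ, (∀ i j, i < J.card → j < J.card → e i = e j → i = j) ∧
  (range J.card).image e = J ∧ ∀ i j, i ≤ j → j < J.card → a (e i) ≤ a (e j)

/-- **UTrf** (renaming of the variables). Uses: nothing.
Proof. (1) Finset.sum_nbij' or Finset.powerset_image and Finset.sum_image (`T ↦ T.image e` is injective on the subsets of `range n`). (2) Finset.card_image_of_injOn, Finset.prod_image. (3) `Av a p (B.image e) G y = Av (a ∘ e) (p ∘ e) B G y` for `B ⊆ range n`, all `G`, `y`: Finset.induction_on `B` (Finset.image_insert, Av_insert). The same for `Df a (T.image e)` (Df_insert). `(range n).image e \ T.image e = (range n \ T).image e`. -/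
def S_UTrf : Prop := ∀ (a p : ℕ → ℝ) (e : ℕ → ℕ) (n : ℕ), (∀ i j, i < n → j < n → e i = e j → i = j) →
  (∀ Φ : Finset ℕ → ℝ, ∑ T ∈ ((range n).image e).powerset, Φ T = ∑ T ∈ (range n).powerset, Φ (T.image e)) ∧
  ∀ T, T ⊆ range n → (T.image e).card = T.card ∧ wt p (T.image e) = wt (fun i => p (e i)) T ∧
    ∀ (F : ℝ → ℝ) (z : ℝ), Co a p ((range n).image e) (T.image e) F z = Co (fun i => a (e i)) (fun i => p (e i)) (range n) T F z

/-- **UGI** (gate inequality for any set of variables). Uses: S_UEn, S_UTrf, S_UGat.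
Proof. `e` from S_UEn, `n = J.card`, S_UGat for `a ∘ e`, `p ∘ e` (`0 ≤ a (e i)` as `e i ∈ J`), rewrite both sides by S_UTrf; the term `T = ∅` of the left side of S_UGat is `hh (Co_∅^2) ≥ 0` (`|Co_∅| = |Av F| ≤ 1`: Real.negMulLog_nonneg), so `Hs ≤` that left side. -/
def S_UGI : Prop := ∀ (a p : ℕ → ℝ) (J : Finset ℕ) (m : ℕ) (F : ℝ → ℝ) (Θ : Finset ℝ), (∀ i, 0 ≤ p i ∧ p i ≤ 1) →
  (∀ i ∈ J, 0 ≤ a i) → SC F Θ → Θ.card ≤ m → ∀ z : ℝ,
  Hs a p J F z ≤ 700 * Real.log ((m : ℝ) + 2) * Ti a p J F z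

/-- **USh** (sharp gate inequality). Uses: S_AHr, S_UGI.
Proof. S_AHr with `c = 700 log (m+2) ≥ 0`; its hypothesis is S_UGI for `J' ⊆ J` and `z + ∑ i ∈ U, a i`. -/
def S_USh : Prop := ∀ (a p : ℕ → ℝ) (J : Finset ℕ) (m : ℕ) (F : ℝ → ℝ) (Θ : Finset ℝ) (K : ℝ), (∀ i, 0 ≤ p i ∧ p i ≤ 1) →
  (∀ i ∈ J, 0 ≤ a i) → SC F Θ → Θ.card ≤ m → 23 ≤ K → 2800 * Real.log ((m : ℝ) + 2) ≤ K → ∀ z : ℝ,
  Hs a p J F z ≤ K * Dd a p J F z

/-- **UGm** (the gate). Uses: S_Vsm, S_TPar, S_TCfo, S_TCmp, S_USh. MODEL: RT/TGth.lean (signs).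
Proof. As RT/TGth.lean with `F` in place of `Og θ1 θ2`: `u' i = u i` if `0 ≤ a i`, otherwise `- u i`, `a' i = |a i|`, `σ = ∑_{i<M, a i < 0} a i`, the function is `F (z + σ + ∑ (if u' i x = -1 then a' i else 0))`. S_TCfo; `c T = Co a' (pb u') (range M) T F (z + σ)`; the hypothesis of S_TCmp is S_USh for `J = range M`:
`∑_T wt hh (c T^2) = hh (c ∅^2) + Hs` and `∑ |T| wt (c T)^2 - (1 - c ∅^2) = Dd` (S_TPar (1): `∑_T wt (c T)^2 = Av (F^2) = 1`; `wt p ∅ = 1`). -/
def S_UGm : Prop := ∀ (K : ℝ) (N M m : ℕ) (P : ℕ → Finset (Fin N)) (u : ℕ → (Fin N → Bool) → ℝ) (a : ℕ → ℝ)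
  (F : ℝ → ℝ) (Θ : Finset ℝ) (z : ℝ), 23 ≤ K → 2800 * Real.log ((m : ℝ) + 2) ≤ K → Cp P u → (∀ i, Shp K (u i)) →
  SC F Θ → Θ.card ≤ m → Shp K (fun x => F (z + ∑ i ∈ range M, (if u i x = -1 then a i else 0)))

/-- **UInt** (unions of intervals on a finite set). Uses: nothing.
Proof. Induction on `m`. `m = 0`: `F = 1`, `Θ = ∅`. `m + 1`, `F, Θ` for `m`. If no `v ∈ V` is in `I m`: the same. Otherwise `l` = the least and `l'` = the largest element of `V` in `I m`, `r` = the least element of `V` larger than `l'`, or `l' + 1` if there is none. For `v ∈ V`: `v ∈ I m` iff `l ≤ v < r` (OrdConnected). `F' y = if l ≤ y ∧ y < r then -1 else F y`, `Θ' = insert l (insert r Θ)`. SC: for `y < y'` without `l`, `r` in `(y, y']`: `l ≤ y < r` iff `l ≤ y' < r`. -/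
def S_UInt : Prop := ∀ (m : ℕ) (I : ℕ → Set ℝ) (V : Finset ℝ), (∀ j, (I j).OrdConnected) →
  ∃ (F : ℝ → ℝ) (Θ : Finset ℝ), SC F Θ ∧ Θ.card ≤ 2 * m ∧ ∀ v ∈ V, (F v = -1 ↔ ∃ j, j < m ∧ v ∈ I j)

open Classical in
/-- **UGu** (unions of intervals as gates). Uses: S_UGm, S_UInt.
Proof. `V` = the image of the finite set of all `x` under `x ↦ ∑ i ∈ range M, (if u i x = -1 then a i else 0)`; `F`, `Θ` from S_UInt (`F v = -1` or `F v = 1`), the function is `F (0 + ∑ ..)`; S_UGm with `2 m` and `z = 0`: `2800 log (2 m + 2) ≤ 5600 log (m + 2)` (`2 m + 2 ≤ (m + 2)^2`). -/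
def S_UGu : Prop := ∀ (K : ℝ) (N M m : ℕ) (P : ℕ → Finset (Fin N)) (u : ℕ → (Fin N → Bool) → ℝ) (a : ℕ → ℝ)
  (I : ℕ → Set ℝ), 23 ≤ K → 5600 * Real.log ((m : ℝ) + 2) ≤ K → Cp P u → (∀ i, Shp K (u i)) → (∀ j, (I j).OrdConnected) →
  Shp K (fun x => if ∃ j, j < m ∧ ∑ i ∈ range M, (if u i x = -1 then a i else 0) ∈ I j then (-1 : ℝ) else 1)

open Classical in
/-- **Read-once compositions of branching programs of width `w`, unions of at most `m` intervals of linear forms and symmetric gates**: the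
smallest class of functions `(Fin N → Bool) → {1, -1}` which contains the constants and the variables, with `f`
also `-f`, and with functions `u i` (`i : ℕ`) of pairwise disjoint sets `P i` of variables also
(prog) every function computed by a read-once branching program with `w` states per level whose nodes read the
values of the `u i`; (int) the function which is `-1` iff the sum of the real weights `a i` over
the `i < M` with `u i x = -1` is in the union of the intervals (arbitrary order connected sets) `I j`, `j < m`; (sym) every function of the number of the `i < M` with `u i x = -1`. -/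
inductive RI (w m : ℕ) {N : ℕ} : ((Fin N → Bool) → ℝ) → Prop
  | const (c : Bool) : RI w m (fun _ => if c then -1 else 1)
  | var (b : Fin N) : RI w m (fun x => if x b then -1 else 1)
  | neg (f : (Fin N → Bool) → ℝ) (hf : RI w m f) : RI w m (fun x => - f x)
  | prog (P : ℕ → Finset (Fin N)) (u : ℕ → (Fin N → Bool) → ℝ)
      (hP : ∀ i j, i ≠ j → Disjoint (P i) (P j)) (hd : ∀ i, Dp (P i) (u i)) (hu : ∀ i, RI w m (u i))
      (n : ℕ) (s : ℕ → Fin w → Bool → Fin w) (v : ℕ → Fin w → ℕ) (x0 : Fin w) (o : Fin w → Bool)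
      (hr : ReadOnce s v n x0) :
      RI w m (fun x => if o (run s v x0 (fun i => decide (u i x = -1)) n) then -1 else 1)
  | int (P : ℕ → Finset (Fin N)) (u : ℕ → (Fin N → Bool) → ℝ)
      (hP : ∀ i j, i ≠ j → Disjoint (P i) (P j)) (hd : ∀ i, Dp (P i) (u i)) (hu : ∀ i, RI w m (u i))
      (M : ℕ) (a : ℕ → ℝ) (I : ℕ → Set ℝ) (hI : ∀ j, (I j).OrdConnected) :
      RI w m (fun x => if ∃ j, j < m ∧ ∑ i ∈ range M, (if u i x = -1 then a i else 0) ∈ I j then -1 else 1)
  | sym (P : ℕ → Finset (Fin N)) (u : ℕ → (Fin N → Bool) → ℝ)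
      (hP : ∀ i j, i ≠ j → Disjoint (P i) (P j)) (hd : ∀ i, Dp (P i) (u i)) (hu : ∀ i, RI w m (u i))
      (M : ℕ) (φ : ℕ → Bool) :
      RI w m (fun x => if φ ((range M).filter (fun i => u i x = -1)).card then -1 else 1)

/-- **UFn** (final statement). Uses: S_GVar, S_GPg, S_UGu, S_TGsy, S_TPrg. MODEL: RT/TFin.lean.
Proof. As RT/TFin.lean with `K = 4706 * (7000000 * w) + 5600 log (m + 2)`; case int: S_UGu. `C = (4706 * 7000000 + 5600) / log 2`. -/
def S_UFn : Prop := ∃ C : ℝ, 0 < C ∧ ∀ w m : ℕ, 1 ≤ w → ∀ (N : ℕ) (f : (Fin N → Bool) → ℝ), RI w m f →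
  ∑ S ∈ (univ : Finset (Finset (Fin N))).erase ∅, coeff f S ^ 2 * Real.logb 2 (1 / coeff f S ^ 2) ≤
    C * (w + Real.log ((m : ℝ) + 2)) * (influence f - (1 - coeff f ∅ ^ 2)) ∧
  specEntropy f ≤ C * (w + Real.log ((m : ℝ) + 2)) * influence f ∧
  ∃ S : Finset (Fin N), (2 : ℝ) ^ (-(C * (w + Real.log ((m : ℝ) + 2)) * influence f / 2)) ≤ |coeff f S|

end Pool.Agent.MP3145b1.UI
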