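import Pool.Agent.Lib.MP_3145b1_co.UI.Spec3

/-!
# MP_3145b1_co, project UI: change of signs
-/

set_option autoImplicit false

namespace Pool.Agent.MP3145b1.UI

open Finset Pool.Agent.MP3145b1 Pool.Agent.MP3145b1.RC Pool.Agent.MP3145b1.RD Pool.Agent.MP3145b1.RT Pool.Agent.MP3145b1.AG Pool.Agent.MP3145b1.LD

private noncomputable def UFl_s (a : ℕ → ℝ) (T : Finset ℕ) : ℝ := ∏ i ∈ T, (if a i < 0 then -1 else 1)

private theorem UFl_sq (a : ℕ → ℝ) (T : Finset ℕ) : UFl_s a T ^ 2 = 1 := by
  unfold UFl_s
  rw [← Finset.prod_pow]
  refine Finset.prod_eq_one fun i _ => ?_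
  split_ifs <;> norm_num

private theorem UFl_main (a p : ℕ → ℝ) (J : Finset ℕ) (F : ℝ → ℝ) : ∀ (T : Finset ℕ) (z : ℝ), T ⊆ J →
    Co a p J T F z = UFl_s a T * Co (aA a) (pA a p) J T F (z + nA a J) := by
  induction J using Finset.induction_on with
  | empty =>
    intro T z hT
    rw [Finset.subset_empty.1 hT, Co_empty, Co_empty, Av_empty, Av_empty]
    simp [UFl_s, nA]
  | insert i J hi ih =>
    intro T z hT
    have hn : nA a (insert i J) = (if a i < 0 then a i else 0) + nA a J := by
      unfold nA
      rw [Finset.sum_insert hi]
    by_cases hiT : i ∈ T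
    · have hT' : T.erase i ⊆ J := by
        intro j hj
        rcases Finset.mem_insert.1 (hT (Finset.mem_of_mem_erase hj)) with h | h
        · exact absurd h (Finset.ne_of_mem_erase hj)
        · exact h
      have hins : insert i (T.erase i) = T := Finset.insert_erase hiT
      have hs : UFl_s a T = (if a i < 0 then -1 else 1) * UFl_s a (T.erase i) := by
        unfold UFl_s
        exact (Finset.mul_prod_erase T (fun i => if a i < 0 then (-1 : ℝ) else 1) hiT).symm
      rw [hs, ← hins, Co_insert_mem _ _ _ _ _ hi hT', Co_insert_mem _ _ _ _ _ hi hT',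
        Finset.erase_insert (Finset.notMem_erase i T), ih _ z hT', ih _ (z + a i) hT', hn]
      by_cases hneg : a i < 0
      · have e1 : z + (a i + nA a J) + aA a i = z + nA a J := by
          unfold aA
          rw [abs_of_neg hneg]
          ring
        have e2 : z + (a i + nA a J) = z + a i + nA a J := by ring
        rw [if_pos hneg, if_pos hneg, e1, e2]
        ring
      · have e1 : z + (0 + nA a J) + aA a i = z + a i + nA a J := by
          unfold aA
          rw [abs_of_nonneg (not_lt.1 hneg)]
          ring
        have e2 : z + (0 + nA a J) = z + nA a J := by ring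
        rw [if_neg hneg, if_neg hneg, e1, e2]
        ring
    · have hT' : T ⊆ J := by
        intro j hj
        rcases Finset.mem_insert.1 (hT hj) with h | h
        · exact absurd (h ▸ hj) hiT
        · exact h
      rw [Co_insert_not _ _ _ _ _ hi hT', Co_insert_not _ _ _ _ _ hi hT', ih _ z hT',
        ih _ (z + a i) hT', hn]
      by_cases hneg : a i < 0
      · have e1 : z + (a i + nA a J) + aA a i = z + nA a J := by
          unfold aA
          rw [abs_of_neg hneg]
          ring
        have e2 : z + (a i + nA a J) = z + a i + nA a J := by ring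
        have e3 : pA a p i = 1 - p i := by
          unfold pA
          rw [if_pos hneg]
        rw [if_pos hneg, e1, e2, e3]
        ring
      · have e1 : z + (0 + nA a J) + aA a i = z + a i + nA a J := by
          unfold aA
          rw [abs_of_nonneg (not_lt.1 hneg)]
          ring
        have e2 : z + (0 + nA a J) = z + nA a J := by ring
        have e3 : pA a p i = p i := by
          unfold pA
          rw [if_neg hneg]
        rw [if_neg hneg, e1, e2, e3]
        ring

theorem rUFl : S_UFl := by
  intro a p J F z
  constructor
  · intro T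
    unfold wt
    refine Finset.prod_congr rfl fun i _ => ?_
    unfold pA
    split_ifs
    · ring
    · rfl
  · intro T hT
    rw [UFl_main a p J F T z hT, mul_pow, UFl_sq, one_mul]

end Pool.Agent.MP3145b1.UI
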