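import Pool.Agent.Lib.MP_3145b1_co.UI.Spec2

/-!
# MP_3145b1_co, project UI, module UFn: the final statement `S_UFn`
-/

set_option autoImplicit false

namespace Pool.Agent.MP3145b1.UI

open Finset Pool.Agent.MP3145b1 Pool.Agent.MP3145b1.RC Pool.Agent.MP3145b1.RD Pool.Agent.MP3145b1.RT Pool.Agent.MP3145b1.AG

private theorem UFn_hh0 : hh 0 = 0 := by
  unfold hh
  exact Real.negMulLog_zero

private theorem UFn_hh1 : hh 1 = 0 := by
  unfold hh
  exact Real.negMulLog_one

/-- constants -/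
private theorem UFn_const (K : ℝ) (N : ℕ) (c : ℝ) (hc : c = 1 ∨ c = -1) :
    Shp K (fun _ : Fin N → Bool => c) := by
  have h0 : ∀ S : Finset (Fin N), S ≠ ∅ → coeff (fun _ : Fin N → Bool => c) S = 0 := by
    intro S hS
    obtain ⟨i, hi⟩ := Finset.nonempty_iff_ne_empty.mpr hS
    exact Q.coeff_zero _ i S hi (fun _ _ => rfl)
  have h1 : coeff (fun _ : Fin N → Bool => c) ∅ = c := by
    rw [Q.coeff_mean]
    have : (fun x : Fin N → Bool => c * sgn x ∅) = fun _ => c := by
      funext x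
      simp [sgn]
    rw [this, Q.mean_const]
  have h2 : influence (fun _ : Fin N → Bool => c) = 0 := by
    unfold influence
    apply Finset.sum_eq_zero
    intro S _
    by_cases hS : S = ∅
    · subst hS
      simp
    · rw [h0 S hS]
      simp
  have h3 : c ^ 2 = 1 := by
    rcases hc with h | h <;> rw [h] <;> norm_num
  unfold Shp
  rw [h2, h1, h3]
  have h4 : ∑ S ∈ (univ : Finset (Finset (Fin N))).erase ∅,
      hh (coeff (fun _ : Fin N → Bool => c) S ^ 2) = 0 := by
    apply Finset.sum_eq_zero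
    intro S hS
    rw [h0 S (Finset.ne_of_mem_erase hS)]
    norm_num
    exact UFn_hh0
  rw [h4]
  simp

/-- variables -/
private theorem UFn_var (K : ℝ) (N : ℕ) (a : Fin N) :
    Shp K (fun x : Fin N → Bool => if x a then -1 else 1) := by
  set f : (Fin N → Bool) → ℝ := fun x => if x a then -1 else 1 with hf
  have hsg : ∀ x : Fin N → Bool, f x = sgn x {a} := by
    intro x
    simp [hf, sgn]
  have h1 : coeff f {a} = 1 := by
    rw [Q.coeff_mean]
    have : (fun x : Fin N → Bool => f x * sgn x {a}) = fun _ => (1 : ℝ) := by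
      funext x
      rw [hsg, ← pow_two, sgn_sq]
    rw [this, Q.mean_const]
  have hpar : ∑ S : Finset (Fin N), coeff f S ^ 2 = 1 := by
    rw [Q.parseval]
    have : (fun x : Fin N → Bool => f x ^ 2) = fun _ => (1 : ℝ) := by
      funext x
      rw [hsg, sgn_sq]
    rw [this, Q.mean_const]
  have h0 : ∀ S : Finset (Fin N), S ≠ {a} → coeff f S = 0 := by
    intro S hS
    have h2 : coeff f S ^ 2 ≤ 0 := by
      have h3 : coeff f S ^ 2 + coeff f {a} ^ 2 ≤ ∑ S : Finset (Fin N), coeff f S ^ 2 := by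
        rw [← Finset.sum_pair (f := fun S => coeff f S ^ 2) hS]
        exact Finset.sum_le_sum_of_subset_of_nonneg (Finset.subset_univ _)
          (fun _ _ _ => sq_nonneg _)
      rw [hpar, h1] at h3
      linarith
    exact pow_eq_zero_iff (two_ne_zero) |>.mp (le_antisymm h2 (sq_nonneg _))
  have h2 : influence f = 1 := by
    unfold influence
    rw [Finset.sum_eq_single ({a} : Finset (Fin N))]
    · rw [h1]
      simp
    · intro S _ hS
      rw [h0 S hS]
      simp
    · intro h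
      exact absurd (Finset.mem_univ _) h
  have h3 : coeff f ∅ = 0 := h0 ∅ (by
    intro h
    exact (Finset.singleton_ne_empty a) h.symm)
  have h4 : ∑ S ∈ (univ : Finset (Finset (Fin N))).erase ∅, hh (coeff f S ^ 2) = 0 := by
    apply Finset.sum_eq_zero
    intro S _
    by_cases hS : S = {a}
    · rw [hS, h1]
      norm_num
      exact UFn_hh1
    · rw [h0 S hS]
      norm_num
      exact UFn_hh0
  unfold Shp
  rw [h4, h2, h3]
  norm_num

private theorem UFn_coeff_neg {N : ℕ} (f : (Fin N → Bool) → ℝ) (S : Finset (Fin N)) :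
    coeff (fun x => - f x) S = - coeff f S := by
  unfold coeff
  rw [← mul_neg, ← Finset.sum_neg_distrib]
  congr 1
  exact Finset.sum_congr rfl fun x _ => by rw [neg_mul]

private theorem UFn_neg (K : ℝ) {N : ℕ} (f : (Fin N → Bool) → ℝ) (hf : Shp K f) :
    Shp K (fun x => - f x) := by
  unfold Shp at hf ⊢
  unfold influence at hf ⊢
  simp only [UFn_coeff_neg, neg_sq]
  exact hf

private theorem UFn_all (h3 : S_UGu) (h4 : S_TGsy) (h5 : S_TPrg) (w m : ℕ) (K0 K : ℝ) (hPG : PG w K0)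
    (hK0 : K0 ≤ K) (hK : 30000 ≤ K) (hKm : 5600 * Real.log ((m : ℝ) + 2) ≤ K)
    (N : ℕ) (f : (Fin N → Bool) → ℝ) (hf : RI w m f) :
    (∀ x, f x = 1 ∨ f x = -1) ∧ Shp K f := by
  induction hf with
  | const c =>
    refine ⟨fun x => ?_, ?_⟩
    · cases c <;> simp
    · exact UFn_const K N _ (by cases c <;> simp)
  | var a =>
    refine ⟨fun x => ?_, UFn_var K N a⟩
    beta_reduce
    split_ifs
    · exact Or.inr rfl
    · exact Or.inl rfl
  | neg f _ ih =>
    refine ⟨fun x => ?_, UFn_neg K f ih.2⟩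
    beta_reduce
    rcases ih.1 x with h | h
    · exact Or.inr (by rw [h])
    · exact Or.inl (by rw [h]; norm_num)
  | prog P u hP hd _ n s v x0 o hr ih =>
    refine ⟨fun x => ?_, h5 w K0 K hPG hK0 N P u ⟨hP, hd, fun i x => (ih i).1 x⟩
      (fun i => (ih i).2) n s v x0 o hr⟩
    beta_reduce
    split_ifs
    · exact Or.inr rfl
    · exact Or.inl rfl
  | int P u hP hd _ M a I hI ih =>
    refine ⟨fun x => ?_, h3 K N M m P u a I (by linarith) hKm ⟨hP, hd, fun i x => (ih i).1 x⟩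
      (fun i => (ih i).2) hI⟩
    beta_reduce
    split_ifs
    · exact Or.inr rfl
    · exact Or.inl rfl
  | sym P u hP hd _ M φ ih =>
    refine ⟨fun x => ?_, h4 K N M P u φ hK ⟨hP, hd, fun i x => (ih i).1 x⟩
      (fun i => (ih i).2)⟩
    beta_reduce
    split_ifs
    · exact Or.inr rfl
    · exact Or.inl rfl

private theorem UFn_hh_le {t : ℝ} (ht : 0 ≤ t) : hh t ≤ 1 - t := by
  unfold hh Real.negMulLog
  rcases ht.eq_or_lt with h | h
  · subst h
    simp
  · have h1 : 1 - t⁻¹ ≤ Real.log t := Real.one_sub_inv_le_log_of_pos h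
    have h2 : t * (1 - t⁻¹) ≤ t * Real.log t := mul_le_mul_of_nonneg_left h1 h.le
    have h3 : t * t⁻¹ = 1 := mul_inv_cancel₀ h.ne'
    have h4 : t * (1 - t⁻¹) = t - 1 := by
      rw [mul_sub, h3, mul_one]
    rw [h4] at h2
    linarith

private theorem UFn_term (c : ℝ) : c ^ 2 * Real.logb 2 (1 / c ^ 2) = hh (c ^ 2) / Real.log 2 := by
  unfold hh Real.negMulLog Real.logb
  rw [one_div, Real.log_inv]
  ring

private theorem UFn_sq_le {N : ℕ} (f : (Fin N → Bool) → ℝ) (hf : ∀ x, f x = 1 ∨ f x = -1)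
    (S : Finset (Fin N)) : coeff f S ^ 2 ≤ 1 := by
  have h1 : ∑ T : Finset (Fin N), coeff f T ^ 2 = 1 := by
    rw [Q.parseval, funext (fun x => (by rcases hf x with h | h <;> rw [h] <;> norm_num :
      f x ^ 2 = (1 : ℝ)))]
    exact Q.mean_const 1
  rw [← h1]
  exact Finset.single_le_sum (f := fun T => coeff f T ^ 2) (fun T _ => sq_nonneg _) (mem_univ S)

/-- **UFn** (final statement) -/
theorem rUFn (h1 : S_GVar) (h2 : S_GPg) (h3 : S_UGu) (h4 : S_TGsy) (h5 : S_TPrg) : S_UFn := by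
  have hlog : 0 < Real.log 2 := Real.log_pos one_lt_two
  refine ⟨(4706 * 7000000 + 5600) / Real.log 2, by positivity, fun w m hw N f hf => ?_⟩
  have hw1 : (1 : ℝ) ≤ (w : ℝ) := by exact_mod_cast hw
  have hm0 : (0 : ℝ) ≤ (m : ℝ) := Nat.cast_nonneg m
  have hL : 0 ≤ Real.log ((m : ℝ) + 2) := Real.log_nonneg (by linarith)
  have hPG : PG w (4706 * (7000000 * (w : ℝ))) := h2 w (7000000 * (w : ℝ)) (by linarith) (h1 w hw)
  have hK0 : 4706 * (7000000 * (w : ℝ)) ≤
      (4706 * 7000000 + 5600) * ((w : ℝ) + Real.log ((m : ℝ) + 2)) := by linarith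
  have hK2 : 30000 ≤ (4706 * 7000000 + 5600) * ((w : ℝ) + Real.log ((m : ℝ) + 2)) := by linarith
  have hKm : 5600 * Real.log ((m : ℝ) + 2) ≤
      (4706 * 7000000 + 5600) * ((w : ℝ) + Real.log ((m : ℝ) + 2)) := by linarith
  have hC : (4706 * 7000000 + 5600) / Real.log 2 * ((w : ℝ) + Real.log ((m : ℝ) + 2)) =
      (4706 * 7000000 + 5600) * ((w : ℝ) + Real.log ((m : ℝ) + 2)) / Real.log 2 := by ring
  rw [hC]
  generalize (4706 * 7000000 + 5600) * ((w : ℝ) + Real.log ((m : ℝ) + 2)) = K at hK0 hK2 hKm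
  have hK1 : 1 ≤ K := by linarith
  obtain ⟨hv, hE⟩ := UFn_all h3 h4 h5 w m _ K hPG hK0 hK2 hKm N f hf
  have h2 : ∑ S ∈ (univ : Finset (Finset (Fin N))).erase ∅, coeff f S ^ 2 * Real.logb 2 (1 / coeff f S ^ 2) ≤
      K / Real.log 2 * (influence f - (1 - coeff f ∅ ^ 2)) := by
    rw [Finset.sum_congr rfl (fun S _ => UFn_term (coeff f S)), ← Finset.sum_div, div_mul_eq_mul_div]
    exact div_le_div_of_nonneg_right hE hlog.le
  have h3 : specEntropy f ≤ K / Real.log 2 * influence f := by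
    unfold specEntropy
    rw [← Finset.add_sum_erase univ (fun S : Finset (Fin N) =>
      coeff f S ^ 2 * Real.logb 2 (1 / coeff f S ^ 2)) (mem_univ ∅)]
    have h4 : coeff f ∅ ^ 2 * Real.logb 2 (1 / coeff f ∅ ^ 2) ≤
        K / Real.log 2 * (1 - coeff f ∅ ^ 2) := by
      rw [UFn_term, div_mul_eq_mul_div]
      refine div_le_div_of_nonneg_right ?_ hlog.le
      have h5 := UFn_hh_le (sq_nonneg (coeff f ∅))
      have h6 := UFn_sq_le f hv ∅
      have h7 : 1 * (1 - coeff f ∅ ^ 2) ≤ K * (1 - coeff f ∅ ^ 2) :=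
        mul_le_mul_of_nonneg_right hK1 (by linarith)
      linarith
    have h8 : K / Real.log 2 * influence f = K / Real.log 2 * (1 - coeff f ∅ ^ 2) +
        K / Real.log 2 * (influence f - (1 - coeff f ∅ ^ 2)) := by ring
    rw [h8]
    exact add_le_add h4 h2
  exact ⟨h2, h3, Q.large f hv _ h3⟩

end Pool.Agent.MP3145b1.UI
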