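import Pool.Agent.Lib.MP_3145b1_co.UI.Spec3

/-!
# MP_3145b1_co, project UI, module UGA: the gate inequality, weights of both signs
-/

set_option autoImplicit false

namespace Pool.Agent.MP3145b1.UI

open Finset Pool.Agent.MP3145b1 Pool.Agent.MP3145b1.RC Pool.Agent.MP3145b1.RD Pool.Agent.MP3145b1.RT Pool.Agent.MP3145b1.AG Pool.Agent.MP3145b1.LD

theorem rUGA (h1 : S_UFl) (h2 : S_UGI) : S_UGA := by
  intro a p J m F Θ hp hSC hcard z
  obtain ⟨hwt, hco⟩ := h1 a p J F z
  have hHs : Hs a p J F z = Hs (aA a) (pA a p) J F (z + nA a J) := by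
    unfold Hs
    refine Finset.sum_congr rfl fun T hT => ?_
    rw [hwt T, hco T (Finset.mem_powerset.1 (Finset.mem_of_mem_erase hT))]
  have hTi : Ti a p J F z = Ti (aA a) (pA a p) J F (z + nA a J) := by
    unfold Ti
    refine Finset.sum_congr rfl fun T hT => ?_
    rw [hwt T, hco T (Finset.mem_powerset.1 hT)]
  rw [hHs, hTi]
  refine h2 (aA a) (pA a p) J m F Θ (fun i => ?_) (fun i _ => abs_nonneg (a i)) hSC hcard _
  unfold pA
  split_ifs
  · exact ⟨by linarith [(hp i).2], by linarith [(hp i).1]⟩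
  · exact hp i

end Pool.Agent.MP3145b1.UI
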