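import Pool.Agent.Lib.MP_3145b1_co.UI.Spec2

/-!
# MP_3145b1_co, project UI: functions of a linear form with `m` sign changes as gates
-/

set_option autoImplicit false

namespace Pool.Agent.MP3145b1.UI

open Finset Pool.Agent.MP3145b1 Pool.Agent.MP3145b1.RC Pool.Agent.MP3145b1.RD Pool.Agent.MP3145b1.RT Pool.Agent.MP3145b1.AG

private theorem UGm_neg {N : ℕ} (g : (Fin N → Bool) → ℝ) (S : Finset (Fin N)) :
    coeff (fun x => - g x) S = - coeff g S := by
  unfold coeff
  rw [show (∑ x : Fin N → Bool, -g x * ∏ i ∈ S, (if x i then (-1 : ℝ) else 1)) =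
      -∑ x : Fin N → Bool, g x * ∏ i ∈ S, (if x i then (-1 : ℝ) else 1) by
    rw [← Finset.sum_neg_distrib]
    exact Finset.sum_congr rfl fun x _ => by ring]
  ring

private theorem UGm_sq {N : ℕ} (g : (Fin N → Bool) → ℝ) (S : Finset (Fin N)) :
    coeff (fun x => - g x) S ^ 2 = coeff g S ^ 2 := by
  rw [UGm_neg, neg_sq]

private theorem UGm_shp {K : ℝ} {N : ℕ} (g : (Fin N → Bool) → ℝ) (h : Shp K g) :
    Shp K (fun x => - g x) := by
  have hi : influence (fun x => - g x) = influence g := by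
    unfold influence
    exact Finset.sum_congr rfl fun T _ => by rw [UGm_sq]
  unfold Shp at h ⊢
  rw [hi, UGm_sq]
  rw [Finset.sum_congr rfl fun S _ => by rw [UGm_sq g S]]
  exact h

/-- the hypothesis of S_TCmp from the sharp gate inequality -/
private theorem UGm_key (h2 : S_TPar) (a p : ℕ → ℝ) (J : Finset ℕ) (F : ℝ → ℝ) (z K : ℝ)
    (hF : ∀ y, F y = 1 ∨ F y = -1) (h : Hs a p J F z ≤ K * Dd a p J F z) :
    ∑ T ∈ J.powerset, wt p T * hh (Co a p J T F z ^ 2) ≤ hh (Co a p J ∅ F z ^ 2) +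
      K * (∑ T ∈ J.powerset, (T.card : ℝ) * (wt p T * Co a p J T F z ^ 2) - (1 - Co a p J ∅ F z ^ 2)) := by
  have hw : wt p ∅ = 1 := by unfold wt; exact Finset.prod_empty
  have hmem : (∅ : Finset ℕ) ∈ J.powerset := Finset.empty_mem_powerset J
  have hpar : ∑ T ∈ J.powerset, wt p T * Co a p J T F z ^ 2 = 1 := by
    rw [(h2 a p J ∅ F z (Finset.empty_subset J)).1]
    have hc : (fun y => F y ^ 2) = fun _ : ℝ => (1 : ℝ) := by
      funext y
      rcases hF y with h | h <;> rw [h] <;> norm_num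
    rw [hc, Av_const]
  have e1 : ∑ T ∈ J.powerset, wt p T * hh (Co a p J T F z ^ 2) = hh (Co a p J ∅ F z ^ 2) + Hs a p J F z := by
    rw [← Finset.add_sum_erase _ _ hmem, hw, one_mul]
    rfl
  have e2 : ∑ T ∈ J.powerset, wt p T * Co a p J T F z ^ 2 =
      Co a p J ∅ F z ^ 2 + ∑ T ∈ J.powerset.erase ∅, wt p T * Co a p J T F z ^ 2 := by
    rw [← Finset.add_sum_erase _ _ hmem, hw, one_mul]
  have e3 : ∑ T ∈ J.powerset, (T.card : ℝ) * (wt p T * Co a p J T F z ^ 2) =
      ∑ T ∈ J.powerset.erase ∅, (T.card : ℝ) * (wt p T * Co a p J T F z ^ 2) := by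
    rw [← Finset.add_sum_erase _ _ hmem, Finset.card_empty, Nat.cast_zero, zero_mul, zero_add]
  have e4 : Dd a p J F z = ∑ T ∈ J.powerset.erase ∅, (T.card : ℝ) * (wt p T * Co a p J T F z ^ 2) -
      ∑ T ∈ J.powerset.erase ∅, wt p T * Co a p J T F z ^ 2 := by
    unfold Dd
    rw [← Finset.sum_sub_distrib]
    exact Finset.sum_congr rfl fun T _ => by ring
  have e5 : ∑ T ∈ J.powerset, (T.card : ℝ) * (wt p T * Co a p J T F z ^ 2) - (1 - Co a p J ∅ F z ^ 2) =
      Dd a p J F z := by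
    rw [e4, e3]
    linarith
  rw [e1, e5]
  linarith

/-- **UGm.** Functions of a linear form with at most `m` sign changes preserve the sharp inequality. -/
theorem rUGm (h1 : S_Vsm) (h2 : S_TPar) (h3 : S_TCfo) (h4 : S_TCmp) (h5 : S_USh) : S_UGm := by
  intro K N M m P u a F Θ z hK hKm hC hS hSC hm
  obtain ⟨u', hu'⟩ : ∃ u' : ℕ → (Fin N → Bool) → ℝ,
      u' = fun i => if 0 ≤ a i then u i else fun x => - u i x := ⟨_, rfl⟩
  have hup : ∀ i, 0 ≤ a i → u' i = u i := fun i hi => by rw [hu']; exact if_pos hi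
  have hun : ∀ i, ¬ 0 ≤ a i → u' i = fun x => - u i x := fun i hi => by rw [hu']; exact if_neg hi
  have hC' : Cp P u' := by
    obtain ⟨c1, c2, c3⟩ := hC
    refine ⟨c1, fun i => ?_, fun i x => ?_⟩
    · by_cases hi : 0 ≤ a i
      · rw [hup i hi]; exact c2 i
      · rw [hun i hi]
        intro x y hxy
        show - u i x = - u i y
        rw [c2 i x y hxy]
    · by_cases hi : 0 ≤ a i
      · rw [hup i hi]; exact c3 i x
      · rw [hun i hi]
        show - u i x = 1 ∨ - u i x = -1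
        rcases c3 i x with h | h
        · right; rw [h]
        · left; rw [h]; norm_num
  have hS' : ∀ i, Shp K (u' i) := by
    intro i
    by_cases hi : 0 ≤ a i
    · rw [hup i hi]; exact hS i
    · rw [hun i hi]; exact UGm_shp (u i) (hS i)
  obtain ⟨σ, hσ⟩ : ∃ σ : ℝ, σ = ∑ i ∈ range M, (if 0 ≤ a i then 0 else a i) := ⟨_, rfl⟩
  have hsum : ∀ x : Fin N → Bool, ∑ i ∈ range M, (if u i x = -1 then a i else 0) =
      σ + ∑ i ∈ range M, (if u' i x = -1 then (fun j : ℕ => |a j|) i else 0) := by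
    intro x
    rw [hσ, ← Finset.sum_add_distrib]
    refine Finset.sum_congr rfl fun i _ => ?_
    show _ = _ + (if u' i x = -1 then |a i| else 0)
    by_cases hi : 0 ≤ a i
    · rw [hup i hi, if_pos hi, abs_of_nonneg hi, zero_add]
    · rw [hun i hi, if_neg hi, abs_of_neg (not_le.1 hi)]
      show _ = a i + (if - u i x = -1 then - a i else 0)
      rcases hC.2.2 i x with h | h
      · rw [h]; norm_num
      · rw [h]; norm_num
  have hfe : (fun x : Fin N → Bool => F (z + ∑ i ∈ range M, (if u i x = -1 then a i else 0))) =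
      (fun x => F ((z + σ) + ∑ i ∈ range M, (if u' i x = -1 then (fun j : ℕ => |a j|) i else 0))) := by
    funext x
    rw [hsum x, add_assoc]
  rw [hfe]
  refine h4 K N M P u' _ (fun T => Co (fun j : ℕ => |a j|) (pb u') (range M) T F (z + σ)) hC' ?_ ?_ hS'
  · intro S
    exact h3 N M (fun j : ℕ => |a j|) F P u' hC' (z + σ) S
  · exact UGm_key h2 (fun j : ℕ => |a j|) (pb u') (range M) F (z + σ) K hSC.1
      (h5 (fun j : ℕ => |a j|) (pb u') (range M) m F Θ K (fun i => (h1 N P u' hC' i).1)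
        (fun i _ => abs_nonneg _) hSC hm hK hKm (z + σ))

end Pool.Agent.MP3145b1.UI
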