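import Pool.Agent.Lib.MP_3145b1_co.UI.Spec2

/-!
# MP_3145b1_co, project UI, module UGu: unions of intervals as gates
-/

set_option autoImplicit false

namespace Pool.Agent.MP3145b1.UI

open Finset Pool.Agent.MP3145b1 Pool.Agent.MP3145b1.RC Pool.Agent.MP3145b1.RD Pool.Agent.MP3145b1.RT Pool.Agent.MP3145b1.AG

private theorem UGu_log (m : ℕ) :
    2800 * Real.log (((2 * m : ℕ) : ℝ) + 2) ≤ 5600 * Real.log ((m : ℝ) + 2) := by
  have hm : (0 : ℝ) ≤ (m : ℝ) := Nat.cast_nonneg m
  have h1 : ((2 * m : ℕ) : ℝ) + 2 ≤ ((m : ℝ) + 2) ^ 2 := by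
    push_cast
    nlinarith
  have h2 : Real.log (((2 * m : ℕ) : ℝ) + 2) ≤ Real.log (((m : ℝ) + 2) ^ 2) := by
    refine Real.log_le_log ?_ h1
    push_cast
    linarith
  rw [Real.log_pow] at h2
  push_cast at h2 ⊢
  linarith

/-- **UGu** (unions of intervals as gates) -/
theorem rUGu (h1 : S_UGm) (h2 : S_UInt) : S_UGu := by
  classical
  intro K N M m P u a I hK hlog hCp hu hI
  obtain ⟨F, Θ, hSC, hcard, hF⟩ := h2 m I
    (Finset.univ.image (fun x : Fin N → Bool => ∑ i ∈ range M, (if u i x = -1 then a i else 0))) hI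
  have h3 := h1 K N M (2 * m) P u a F Θ 0 hK ((UGu_log m).trans hlog) hCp hu hSC hcard
  have h4 : (fun x : Fin N → Bool => F (0 + ∑ i ∈ range M, (if u i x = -1 then a i else 0))) =
      fun x => if ∃ j, j < m ∧ ∑ i ∈ range M, (if u i x = -1 then a i else 0) ∈ I j then (-1 : ℝ) else 1 := by
    funext x
    rw [zero_add]
    have h5 := hF (∑ i ∈ range M, (if u i x = -1 then a i else 0))
      (Finset.mem_image.2 ⟨x, Finset.mem_univ x, rfl⟩)
    by_cases h6 : ∃ j, j < m ∧ ∑ i ∈ range M, (if u i x = -1 then a i else 0) ∈ I j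
    · rw [if_pos h6]
      exact h5.2 h6
    · rw [if_neg h6]
      rcases hSC.1 (∑ i ∈ range M, (if u i x = -1 then a i else 0)) with h7 | h7
      · exact h7
      · exact absurd (h5.1 h7) h6
  rw [h4] at h3
  convert h3 using 2

end Pool.Agent.MP3145b1.UI
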