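import Pool.Agent.Lib.MP_3145b1_co.UI.Spec3

/-!
# MP_3145b1_co, project UI, module UHi: unions of `m` intervals of a linear form satisfy `AG.Hd`
-/

set_option autoImplicit false

namespace Pool.Agent.MP3145b1.UI

open Finset Pool.Agent.MP3145b1 Pool.Agent.MP3145b1.RC Pool.Agent.MP3145b1.RD Pool.Agent.MP3145b1.RT Pool.Agent.MP3145b1.AG Pool.Agent.MP3145b1.LD

private theorem UHi_Ph (φ : Finset ℕ → Bool) (V : Finset ℕ) :
    Ph φ (∑ i ∈ V, tw i) = if φ V then -1 else 1 := by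
  have e : ∑ i ∈ V, tw i = ((∑ i ∈ V, 2 ^ i : ℕ) : ℝ) := by
    push_cast
    rfl
  rw [Ph, e, Nat.floor_natCast, Finset.toFinset_bitIndices_sum_two_pow]

private theorem UHi_log (m : ℕ) :
    Real.log (((2 * m : ℕ) : ℝ) + 2) ≤ 2 * Real.log ((m : ℝ) + 2) := by
  have hm : (0 : ℝ) ≤ m := Nat.cast_nonneg m
  have h1 : ((2 * m : ℕ) : ℝ) + 2 ≤ ((m : ℝ) + 2) ^ 2 := by
    push_cast
    nlinarith
  have h2 : (0 : ℝ) < ((2 * m : ℕ) : ℝ) + 2 := by positivity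
  calc Real.log (((2 * m : ℕ) : ℝ) + 2) ≤ Real.log (((m : ℝ) + 2) ^ 2) := Real.log_le_log h2 h1
    _ = 2 * Real.log ((m : ℝ) + 2) := by
        rw [Real.log_pow]
        norm_num

private theorem UHi_Ti (a p : ℕ → ℝ) (J : Finset ℕ) (F : ℝ → ℝ) (z : ℝ)
    (hp : ∀ i, 0 ≤ p i ∧ p i ≤ 1) : 0 ≤ Ti a p J F z := by
  unfold Ti
  exact Finset.sum_nonneg fun T _ =>
    mul_nonneg (Nat.cast_nonneg _) (mul_nonneg (wt_pos_le hp T) (sq_nonneg _))

private theorem UHi_core (h3 : MS.S_MCo) (a p : ℕ → ℝ) (M : ℕ) (φ : Finset ℕ → Bool) (F : ℝ → ℝ)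
    (hFe : ∀ V, V ⊆ range M → F (∑ i ∈ V, a i) = if φ V then -1 else 1) (J U : Finset ℕ)
    (hJ : J ⊆ range M) (hU : U ⊆ range M \ J) :
    Hs tw p J (Ph φ) (∑ i ∈ U, tw i) = Hs a p J F (∑ i ∈ U, a i) ∧
      Ti tw p J (Ph φ) (∑ i ∈ U, tw i) = Ti a p J F (∑ i ∈ U, a i) := by
  have hCo : ∀ T, T ⊆ J → Co tw p J T (Ph φ) (∑ i ∈ U, tw i) = Co a p J T F (∑ i ∈ U, a i) := by
    apply h3
    intro V hV
    have hdis : Disjoint U V := by
      rw [Finset.disjoint_left]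
      intro i hi hiV
      exact (Finset.mem_sdiff.1 (hU hi)).2 (hV hiV)
    rw [← Finset.sum_union hdis, ← Finset.sum_union hdis, UHi_Ph, hFe]
    intro i hi
    rcases Finset.mem_union.1 hi with h | h
    · exact (Finset.mem_sdiff.1 (hU h)).1
    · exact hJ (hV h)
  constructor
  · unfold Hs
    refine Finset.sum_congr rfl fun T hT => ?_
    rw [hCo T (Finset.mem_powerset.1 (Finset.mem_of_mem_erase hT))]
  · unfold Ti
    refine Finset.sum_congr rfl fun T hT => ?_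
    rw [hCo T (Finset.mem_powerset.1 hT)]

open Classical in
theorem rUHi (h1 : S_UInt) (h2 : S_UGA) (h3 : MS.S_MCo) : S_UHi := by
  intro m M a p I hI hp J U hJ hU
  obtain ⟨F, Θ, hSC, hcard, hF⟩ :=
    h1 m I (((range M).powerset).image (fun V => ∑ i ∈ V, a i)) hI
  have hFe : ∀ V, V ⊆ range M → F (∑ i ∈ V, a i) =
      if decide (∃ j, j < m ∧ ∑ i ∈ V, a i ∈ I j) = true then -1 else 1 := by
    intro V hV
    have h4 := hF (∑ i ∈ V, a i)
      (Finset.mem_image.2 ⟨V, Finset.mem_powerset.2 hV, rfl⟩)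
    by_cases hv : ∃ j, j < m ∧ ∑ i ∈ V, a i ∈ I j
    · rw [if_pos (decide_eq_true hv)]
      exact h4.2 hv
    · rw [if_neg (fun hc => hv (of_decide_eq_true hc))]
      rcases hSC.1 (∑ i ∈ V, a i) with h | h
      · exact h
      · exact absurd (h4.1 h) hv
  obtain ⟨e1, e2⟩ := UHi_core h3 a p M
    (fun U => decide (∃ j, j < m ∧ ∑ i ∈ U, a i ∈ I j)) F hFe J U hJ hU
  rw [e1, e2]
  have h5 := h2 a p J (2 * m) F Θ hp hSC hcard (∑ i ∈ U, a i)
  have h6 := UHi_Ti a p J F (∑ i ∈ U, a i) hp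
  have h7 := UHi_log m
  calc Hs a p J F (∑ i ∈ U, a i)
      ≤ 700 * Real.log (((2 * m : ℕ) : ℝ) + 2) * Ti a p J F (∑ i ∈ U, a i) := h5
    _ ≤ 1400 * Real.log ((m : ℝ) + 2) * Ti a p J F (∑ i ∈ U, a i) := by
        apply mul_le_mul_of_nonneg_right _ h6
        linarith

end Pool.Agent.MP3145b1.UI
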