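import Pool.Agent.Lib.MP_3145b1_co.UI.Spec2

/-!
# MP_3145b1_co, project UI, module UInt: unions of intervals on a finite set
-/

set_option autoImplicit false

namespace Pool.Agent.MP3145b1.UI

open Finset Pool.Agent.MP3145b1 Pool.Agent.MP3145b1.RC Pool.Agent.MP3145b1.RD Pool.Agent.MP3145b1.RT Pool.Agent.MP3145b1.AG

private theorem UInt_ends (J : Set ℝ) (hJ : J.OrdConnected) (V : Finset ℝ) (v0 : ℝ) (h0 : v0 ∈ V)
    (h0J : v0 ∈ J) : ∃ l r : ℝ, ∀ v ∈ V, (v ∈ J ↔ l ≤ v ∧ v < r) := by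
  classical
  obtain ⟨l, hl, hlmin⟩ := Finset.exists_min_image (V.filter (· ∈ J)) id
    ⟨v0, Finset.mem_filter.2 ⟨h0, h0J⟩⟩
  obtain ⟨l', hl', hlmax⟩ := Finset.exists_max_image (V.filter (· ∈ J)) id
    ⟨v0, Finset.mem_filter.2 ⟨h0, h0J⟩⟩
  obtain ⟨r, hr1, hr2⟩ : ∃ r : ℝ, l' < r ∧ ∀ v ∈ V, l' < v → r ≤ v := by
    by_cases h : (V.filter (fun v => l' < v)).Nonempty
    · obtain ⟨r, hr, hrmin⟩ := Finset.exists_min_image (V.filter (fun v => l' < v)) id h
      refine ⟨r, (Finset.mem_filter.1 hr).2, fun v hv hlv => ?_⟩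
      exact hrmin v (Finset.mem_filter.2 ⟨hv, hlv⟩)
    · refine ⟨l' + 1, by linarith, fun v hv hlv => ?_⟩
      exact absurd ⟨v, Finset.mem_filter.2 ⟨hv, hlv⟩⟩ h
  refine ⟨l, r, fun v hv => ⟨fun hvJ => ?_, fun ⟨h1, h2⟩ => ?_⟩⟩
  · have h1 : l ≤ v := hlmin v (Finset.mem_filter.2 ⟨hv, hvJ⟩)
    have h2 : v ≤ l' := hlmax v (Finset.mem_filter.2 ⟨hv, hvJ⟩)
    exact ⟨h1, lt_of_le_of_lt h2 hr1⟩
  · have h3 : v ≤ l' := by
      by_contra h
      exact absurd (hr2 v hv (not_le.1 h)) (not_le.2 h2)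
    exact hJ.out (Finset.mem_filter.1 hl).2 (Finset.mem_filter.1 hl').2 ⟨h1, h3⟩

open Classical in
theorem rUInt : S_UInt := by
  intro m I V hI
  induction m with
  | zero =>
    refine ⟨fun _ => 1, ∅, ⟨fun _ => Or.inl rfl, fun _ _ _ _ => rfl⟩, by simp, fun v _ => ?_⟩
    constructor
    · intro h
      norm_num at h
    · rintro ⟨j, hj, _⟩
      exact absurd hj (Nat.not_lt_zero j)
  | succ m ih =>
    obtain ⟨F, Θ, ⟨hF1, hF2⟩, hc, hv⟩ := ih
    by_cases h0 : ∃ v ∈ V, v ∈ I m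
    · obtain ⟨v0, h0V, h0I⟩ := h0
      obtain ⟨l, r, hlr⟩ := UInt_ends (I m) (hI m) V v0 h0V h0I
      refine ⟨fun y => if l ≤ y ∧ y < r then -1 else F y, insert l (insert r Θ), ⟨?_, ?_⟩, ?_, ?_⟩
      · intro y
        by_cases h : l ≤ y ∧ y < r
        · right
          simp only [h, and_self, if_true]
        · simp only [h, if_false]
          exact hF1 y
      · intro y y' hy hΘ
        have h1 := hΘ l (Finset.mem_insert_self l _)
        have h2 := hΘ r (Finset.mem_insert_of_mem (Finset.mem_insert_self r Θ))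
        have h3 : F y = F y' := hF2 y y' hy fun θ hθ =>
          hΘ θ (Finset.mem_insert_of_mem (Finset.mem_insert_of_mem hθ))
        have h4 : (l ≤ y ∧ y < r) ↔ (l ≤ y' ∧ y' < r) := by
          constructor
          · rintro ⟨ha, hb⟩
            refine ⟨by linarith, ?_⟩
            by_contra hcon
            exact h2 ⟨hb, not_lt.1 hcon⟩
          · rintro ⟨ha, hb⟩
            refine ⟨?_, by linarith⟩
            by_contra hcon
            exact h1 ⟨not_le.1 hcon, ha⟩
        by_cases h : l ≤ y ∧ y < r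
        · have h' := h4.1 h
          simp only [h, h', and_self, if_true]
        · have h' : ¬ (l ≤ y' ∧ y' < r) := fun hcon => h (h4.2 hcon)
          simp only [h, h', if_false]
          exact h3
      · have h1 := Finset.card_insert_le l (insert r Θ)
        have h2 := Finset.card_insert_le r Θ
        omega
      · intro v hvV
        by_cases h : l ≤ v ∧ v < r
        · simp only [h, and_self, if_true, true_iff]
          exact ⟨m, Nat.lt_succ_self m, (hlr v hvV).2 h⟩
        · simp only [h, if_false]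
          rw [hv v hvV]
          constructor
          · rintro ⟨j, hj, hjv⟩
            exact ⟨j, Nat.lt_succ_of_lt hj, hjv⟩
          · rintro ⟨j, hj, hjv⟩
            rcases Nat.lt_succ_iff_lt_or_eq.1 hj with h5 | h5
            · exact ⟨j, h5, hjv⟩
            · rw [h5] at hjv
              exact absurd ((hlr v hvV).1 hjv) h
    · refine ⟨F, Θ, ⟨hF1, hF2⟩, by omega, fun v hvV => ?_⟩
      rw [hv v hvV]
      constructor
      · rintro ⟨j, hj, hjv⟩
        exact ⟨j, Nat.lt_succ_of_lt hj, hjv⟩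
      · rintro ⟨j, hj, hjv⟩
        rcases Nat.lt_succ_iff_lt_or_eq.1 hj with h5 | h5
        · exact ⟨j, h5, hjv⟩
        · rw [h5] at hjv
          exact absurd ⟨v, hvV, hjv⟩ h0

end Pool.Agent.MP3145b1.UI
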