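import Pool.Agent.Lib.MP_3145b1_co.UI.Spec

/-!
# MP_3145b1_co, project UI, module UPt1: the small sums
-/

set_option autoImplicit false

namespace Pool.Agent.MP3145b1.UI

open Finset Pool.Agent.MP3145b1 Pool.Agent.MP3145b1.RC Pool.Agent.MP3145b1.RD Pool.Agent.MP3145b1.RT

private theorem UPt1_abs {F : ℝ → ℝ} {Θ : Finset ℝ} (hF : SC F Θ) (A y : ℝ) :
    |hA A F y| = hA A F y ^ 2 := by
  rcases hF.h_sq A y with h | h
  · rw [h.2]; norm_num
  · rw [h.2.1, h.2.2]

private theorem UPt1_av (a : ℕ → ℝ) {p : ℕ → ℝ} (hp : ∀ i, 0 ≤ p i ∧ p i ≤ 1) (G : Finset ℕ)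
    {F : ℝ → ℝ} {Θ : Finset ℝ} (hF : SC F Θ) (A z : ℝ) :
    |Av a p G (hA A F) z| ≤ Av a p G (fun y => hA A F y ^ 2) z := by
  rw [abs_le]
  constructor
  · have h := Av_mono a hp G (F := fun y => -1 * hA A F y ^ 2) (G := hA A F) (fun y => by
      have h1 := neg_abs_le (hA A F y)
      rw [UPt1_abs hF A y] at h1
      linarith) z
    rw [Av_mul a p G (-1) (fun y => hA A F y ^ 2)] at h
    linarith
  · exact Av_mono a hp G (fun y => (le_abs_self _).trans (UPt1_abs hF A y).le) z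

private theorem UPt1_one (a : ℕ → ℝ) {p : ℕ → ℝ} (hp : ∀ i, 0 ≤ p i ∧ p i ≤ 1) (G : Finset ℕ)
    {F : ℝ → ℝ} {Θ : Finset ℝ} (hF : SC F Θ) (A z : ℝ) : |Av a p G (hA A F) z| ≤ 1 := by
  refine (UPt1_av a hp G hF A z).trans (Av_le_const a hp G (fun y => ?_) z)
  rcases hF.h_sq A y with h | h
  · show hA A F y ^ 2 ≤ 1
    rw [h.2]; norm_num
  · exact h.2.1.le

/-- the sets which are disjoint from `G` -/
private theorem UPt1_pre (h1 : S_TPar) (a : ℕ → ℝ) {p : ℕ → ℝ} (hp : ∀ i, 0 ≤ p i ∧ p i ≤ 1)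
    {J G : Finset ℕ} (hG : G ⊆ J) {A : ℝ} {F : ℝ → ℝ} {Θ : Finset ℝ} (hF : SC F Θ) {c : ℝ}
    (H : ∀ z, |Av a p G (hA A F) z| ≤ c) (z : ℝ) :
    ∑ T ∈ J.powerset.filter (fun T => Disjoint T G), wt p T * Co a p J T (hA A F) z ^ 2 ≤
      c * Av a p J (fun y => hA A F y ^ 2) z := by
  rw [(h1 a p J G (hA A F) z hG).2.1, Av_sdiff a p J G hG (fun y => hA A F y ^ 2) z, ← Av_mul]
  refine Av_mono a hp _ (fun y => ?_) z
  rw [← sq_abs, sq]
  exact mul_le_mul (H y) (UPt1_av a hp G hF A y) (abs_nonneg _) ((abs_nonneg _).trans (H y))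

private theorem UPt1_ext (J : Finset ℕ) (P : Finset ℕ → Prop) [DecidablePred P]
    (f : Finset ℕ → ℝ) {c : ℝ} (hc : 0 ≤ c) (hf : ∀ T, 0 ≤ f T) :
    ∑ T ∈ J.powerset.erase ∅, (if P T then c * f T else 0) ≤
      c * ∑ T ∈ J.powerset.filter P, f T := by
  rw [Finset.mul_sum, Finset.sum_filter]
  refine Finset.sum_le_sum_of_subset_of_nonneg (Finset.erase_subset _ _) fun T _ _ => ?_
  split_ifs
  · exact mul_nonneg hc (hf T)
  · exact le_rfl

theorem rUPt1 (h1 : S_TPar) (h2 : S_USml) (h3 : S_ULev) (h4 : S_UHar) : S_UPt1 := by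
  intro a p t m R F Θ hp hat ha hF hm z
  obtain ⟨_, hlev, _⟩ := h3 a p t hp hat ha
  have hW0 : 0 ≤ WW a p F t z := WW_nonneg a hp F t z
  have hκ1 : 1 ≤ 640 * (m + 1) := by omega
  have hκ : ((640 * (m + 1) : ℕ) : ℝ) = 640 * ((m : ℝ) + 1) := by push_cast; ring
  rw [Finset.sum_comm]
  have h5 : ∀ r ∈ range R, (∑ T ∈ (range t).powerset.erase ∅,
      (if 1 ≤ r ∧ Disjoint T (Gr a p t r) then
        1 / (r : ℝ) * (wt p T * Co a p (range t) T (hA (a t) F) z ^ 2) else 0)) ≤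
      (if 1 ≤ r then 1 / (r : ℝ) * min 1 (((640 * (m + 1) : ℕ) : ℝ) / Real.sqrt r) else 0) *
        WW a p F t z := by
    intro r _
    by_cases hr : 1 ≤ r
    · rw [if_pos hr]
      have hr0 : (0 : ℝ) ≤ 1 / (r : ℝ) := by positivity
      have hmin : (0 : ℝ) ≤ min 1 (((640 * (m + 1) : ℕ) : ℝ) / Real.sqrt r) :=
        le_min zero_le_one (by positivity)
      simp only [hr, true_and]
      by_cases hex : ∃ i, i < t ∧ r ≤ lev a p t i
      · have hG : Gr a p t r ⊆ range t := by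
          intro i hi
          exact Finset.mem_range.2 ((mem_Gr a p t r i).1 hi).1
        have hBd : Bd a p (Gr a p t r) (a t) :=
          ⟨fun i hi => ha i (Finset.mem_range.1 (hG hi)), hp⟩
        have H : ∀ y, |Av a p (Gr a p t r) (hA (a t) F) y| ≤
            min 1 (((640 * (m + 1) : ℕ) : ℝ) / Real.sqrt r) := by
          intro y
          refine le_min (UPt1_one a hp _ hF _ y) ?_
          rw [hκ]
          exact h2 a p _ F Θ (a t) y m r hat hF hm hBd hr (hlev r hr hex)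
        have h6 := UPt1_pre h1 a hp hG hF H z
        have h7 := UPt1_ext (range t) (fun T => Disjoint T (Gr a p t r))
          (fun T => wt p T * Co a p (range t) T (hA (a t) F) z ^ 2) hr0
          (fun T => mul_nonneg (wt_nonneg hp T) (sq_nonneg _))
        rw [mul_assoc]
        exact h7.trans (mul_le_mul_of_nonneg_left h6 hr0)
      · have hG : range t ⊆ Gr a p t r := by
          intro i hi
          have hi' := Finset.mem_range.1 hi
          refine (mem_Gr a p t r i).2 ⟨hi', ?_⟩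
          by_contra hc
          exact hex ⟨i, hi', not_lt.1 hc⟩
        refine le_trans (le_of_eq ?_) (mul_nonneg (mul_nonneg hr0 hmin) hW0)
        refine Finset.sum_eq_zero fun T hT => if_neg fun hd => ?_
        obtain ⟨hT0, hTJ⟩ := Finset.mem_erase.1 hT
        obtain ⟨i, hi⟩ := Finset.nonempty_iff_ne_empty.2 hT0
        exact Finset.disjoint_left.1 hd hi (hG (Finset.mem_powerset.1 hTJ hi))
    · rw [if_neg hr, zero_mul]
      exact le_of_eq (Finset.sum_eq_zero fun T _ => if_neg fun h => hr h.1)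
  refine (Finset.sum_le_sum h5).trans ?_
  rw [← Finset.sum_mul]
  refine mul_le_mul_of_nonneg_right ?_ hW0
  have h6 := h4 (640 * (m + 1)) R hκ1
  rw [hκ] at h6 ⊢
  exact h6

end Pool.Agent.MP3145b1.UI
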