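import Pool.Agent.Lib.MP_3145b1_co.UI.Spec2

/-! Project UI (MP_3145b1_co), part 2, statement `USh`: the sharp gate inequality. -/

set_option autoImplicit false

namespace Pool.Agent.MP3145b1.UI

open Finset Pool.Agent.MP3145b1 Pool.Agent.MP3145b1.RC Pool.Agent.MP3145b1.RD Pool.Agent.MP3145b1.RT Pool.Agent.MP3145b1.AG

theorem rUSh (h1 : S_AHr) (h2 : S_UGI) : S_USh := by
  intro a p J m F Θ K hp ha hSC hΘ hK1 hK2 z
  have hm : (0 : ℝ) ≤ (m : ℝ) := Nat.cast_nonneg m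
  have hlog : 0 ≤ Real.log ((m : ℝ) + 2) := Real.log_nonneg (by linarith)
  refine h1 a p F (700 * Real.log ((m : ℝ) + 2)) K hp hSC.1 (by positivity) hK1 (by linarith) J z ?_
  intro J' U hJ' _
  exact h2 a p J' m F Θ hp (fun i hi => ha i (hJ' hi)) hSC hΘ _

end Pool.Agent.MP3145b1.UI
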