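import Pool.Agent.Lib.MP_3145b1_co.UI.Spec2

/-!
# MP_3145b1_co, project UI, module UTrf: renaming of the variables
-/

set_option autoImplicit false

namespace Pool.Agent.MP3145b1.UI

open Finset Pool.Agent.MP3145b1 Pool.Agent.MP3145b1.RC Pool.Agent.MP3145b1.RD Pool.Agent.MP3145b1.RT Pool.Agent.MP3145b1.AG

private theorem UTrf_notMem (e : ℕ → ℕ) (B : Finset ℕ) (i : ℕ) (hi : i ∉ B)
    (hinj : ∀ j ∈ insert i B, ∀ k ∈ insert i B, e j = e k → j = k) : e i ∉ B.image e := by
  intro h
  obtain ⟨j, hj, hje⟩ := Finset.mem_image.1 h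
  have h1 := hinj j (Finset.mem_insert_of_mem hj) i (Finset.mem_insert_self i B) hje
  exact hi (h1 ▸ hj)

private theorem UTrf_av (a p : ℕ → ℝ) (e : ℕ → ℕ) (B : Finset ℕ) : (∀ j ∈ B, ∀ k ∈ B, e j = e k → j = k) →
    ∀ (G : ℝ → ℝ) (y : ℝ), Av a p (B.image e) G y = Av (fun i => a (e i)) (fun i => p (e i)) B G y := by
  induction B using Finset.induction_on with
  | empty =>
    intro _ G y
    rw [Finset.image_empty, Av_empty, Av_empty]
  | insert i B hi ih =>
    intro hinj G y
    have h1 := UTrf_notMem e B i hi hinj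
    have h2 := ih fun j hj k hk => hinj j (Finset.mem_insert_of_mem hj) k (Finset.mem_insert_of_mem hk)
    rw [Finset.image_insert, Av_insert _ _ _ _ h1, Av_insert _ _ _ _ hi, h2, h2]

private theorem UTrf_df (a : ℕ → ℝ) (e : ℕ → ℕ) (B : Finset ℕ) : (∀ j ∈ B, ∀ k ∈ B, e j = e k → j = k) →
    ∀ (G : ℝ → ℝ) (y : ℝ), Df a (B.image e) G y = Df (fun i => a (e i)) B G y := by
  induction B using Finset.induction_on with
  | empty =>
    intro _ G y
    rw [Finset.image_empty, Df_empty, Df_empty]
  | insert i B hi ih =>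
    intro hinj G y
    have h1 := UTrf_notMem e B i hi hinj
    have h2 := ih fun j hj k hk => hinj j (Finset.mem_insert_of_mem hj) k (Finset.mem_insert_of_mem hk)
    rw [Finset.image_insert, Df_insert _ _ _ h1, Df_insert _ _ _ hi, h2, h2]

theorem rUTrf : S_UTrf := by
  intro a p e n hinj
  have hI : ∀ j ∈ range n, ∀ k ∈ range n, e j = e k → j = k := fun j hj k hk h =>
    hinj j k (Finset.mem_range.1 hj) (Finset.mem_range.1 hk) h
  have hInj : ∀ T, T ⊆ range n → ∀ j ∈ T, ∀ k ∈ T, e j = e k → j = k := fun T hT j hj k hk h =>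
    hI j (hT hj) k (hT hk) h
  refine ⟨?_, ?_⟩
  · intro Φ
    symm
    refine Finset.sum_bij (fun T _ => T.image e) ?_ ?_ ?_ ?_
    · intro T hT
      exact Finset.mem_powerset.2 (Finset.image_subset_image (Finset.mem_powerset.1 hT))
    · have key : ∀ T, T ⊆ range n → ∀ T', T' ⊆ range n → T.image e = T'.image e → T ⊆ T' := by
        intro T hT T' hT' h i hi
        have h1 : e i ∈ T'.image e := h ▸ Finset.mem_image_of_mem e hi
        obtain ⟨j, hj, hje⟩ := Finset.mem_image.1 h1
        have h2 := hI j (hT' hj) i (hT hi) hje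
        exact h2 ▸ hj
      intro T hT T' hT' h
      exact Finset.Subset.antisymm (key T (Finset.mem_powerset.1 hT) T' (Finset.mem_powerset.1 hT') h)
        (key T' (Finset.mem_powerset.1 hT') T (Finset.mem_powerset.1 hT) h.symm)
    · intro S hS
      have hS' := Finset.mem_powerset.1 hS
      refine ⟨(range n).filter (fun i => e i ∈ S), Finset.mem_powerset.2 (Finset.filter_subset _ _), ?_⟩
      ext x
      rw [Finset.mem_image]
      constructor
      · rintro ⟨i, hi, rfl⟩
        exact (Finset.mem_filter.1 hi).2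
      · intro hx
        obtain ⟨i, hi, rfl⟩ := Finset.mem_image.1 (hS' hx)
        exact ⟨i, Finset.mem_filter.2 ⟨hi, hx⟩, rfl⟩
    · intro T _
      rfl
  · intro T hT
    refine ⟨Finset.card_image_of_injOn fun j hj k hk h => hInj T hT j hj k hk h, ?_, ?_⟩
    · unfold wt
      rw [Finset.prod_image fun j hj k hk h => hInj T hT j hj k hk h]
    · intro F z
      unfold Co
      have h1 : (range n).image e \ T.image e = (range n \ T).image e := by
        ext x
        rw [Finset.mem_sdiff, Finset.mem_image, Finset.mem_image, Finset.mem_image]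
        constructor
        · rintro ⟨⟨i, hi, rfl⟩, h2⟩
          exact ⟨i, Finset.mem_sdiff.2 ⟨hi, fun h => h2 ⟨i, h, rfl⟩⟩, rfl⟩
        · rintro ⟨i, hi, rfl⟩
          obtain ⟨h3, h4⟩ := Finset.mem_sdiff.1 hi
          refine ⟨⟨i, h3, rfl⟩, ?_⟩
          rintro ⟨j, hj, hje⟩
          exact h4 (hI j (hT hj) i h3 hje ▸ hj)
      rw [h1, UTrf_av a p e _ (hInj _ Finset.sdiff_subset)]
      exact Av_congr _ _ _ (fun y => UTrf_df a e T (hInj T hT) F y) z

end Pool.Agent.MP3145b1.UI
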