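import Pool.Agent.Lib.MP_3145b1_co.RT.Asm
import Pool.Agent.Lib.MP_3145b1_co.AG.ATl
import Pool.Agent.Lib.MP_3145b1_co.AG.ARc
import Pool.Agent.Lib.MP_3145b1_co.AG.AFk
import Pool.Agent.Lib.MP_3145b1_co.AG.ANd
import Pool.Agent.Lib.MP_3145b1_co.AG.AHr
import Pool.Agent.Lib.MP_3145b1_co.UI.UHd
import Pool.Agent.Lib.MP_3145b1_co.UI.UWin
import Pool.Agent.Lib.MP_3145b1_co.UI.USgl
import Pool.Agent.Lib.MP_3145b1_co.UI.UFar
import Pool.Agent.Lib.MP_3145b1_co.UI.USml
import Pool.Agent.Lib.MP_3145b1_co.UI.ULev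
import Pool.Agent.Lib.MP_3145b1_co.UI.UBlk
import Pool.Agent.Lib.MP_3145b1_co.UI.UHar
import Pool.Agent.Lib.MP_3145b1_co.UI.UPt1
import Pool.Agent.Lib.MP_3145b1_co.UI.UPt2
import Pool.Agent.Lib.MP_3145b1_co.UI.UNod
import Pool.Agent.Lib.MP_3145b1_co.UI.UTel
import Pool.Agent.Lib.MP_3145b1_co.UI.UInf
import Pool.Agent.Lib.MP_3145b1_co.UI.UChg
import Pool.Agent.Lib.MP_3145b1_co.UI.UCls
import Pool.Agent.Lib.MP_3145b1_co.UI.USmc
import Pool.Agent.Lib.MP_3145b1_co.UI.UGat
import Pool.Agent.Lib.MP_3145b1_co.UI.UEn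
import Pool.Agent.Lib.MP_3145b1_co.UI.UTrf
import Pool.Agent.Lib.MP_3145b1_co.UI.UGI
import Pool.Agent.Lib.MP_3145b1_co.UI.USh
import Pool.Agent.Lib.MP_3145b1_co.UI.UGm
import Pool.Agent.Lib.MP_3145b1_co.UI.UInt
import Pool.Agent.Lib.MP_3145b1_co.UI.UGu
import Pool.Agent.Lib.MP_3145b1_co.UI.UFn
import Pool.Agent.Lib.MP_3145b1_co.UI.UFl
import Pool.Agent.Lib.MP_3145b1_co.UI.UGA
import Pool.Agent.Lib.MP_3145b1_co.UI.UHi
import Pool.Agent.Lib.MP_3145b1_co.MS.MCo

/-!
# MP_3145b1_co, project UI: assembly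
-/

set_option autoImplicit false

namespace Pool.Agent.MP3145b1.UI

open Finset Pool.Agent.MP3145b1 Pool.Agent.MP3145b1.RC Pool.Agent.MP3145b1.RD Pool.Agent.MP3145b1.RT Pool.Agent.MP3145b1.AG

theorem uWin : S_UWin := rUWin rUHd

theorem uSgl : S_USgl := rUSgl uWin

theorem uFar : S_UFar := rUFar tPos uWin

theorem uSml : S_USml := rUSml tEsn

theorem uBlk : S_UBlk := rUBlk rTPar uSgl uFar rULev

theorem uPt1 : S_UPt1 := rUPt1 rTPar uSml rULev rUHar

theorem uPt2 : S_UPt2 := rUPt2 rTSrs uBlk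

theorem uNod : S_UNod := rUNod rTPar rTPtw uPt1 uPt2

theorem uTel : S_UTel := rUTel (rGTw rMTg)

theorem uInf : S_UInf := rUInf rTPar

theorem uChg : S_UChg := rUChg rTPar

theorem uSmc : S_USmc := rUSmc rULev rUCls

theorem uGat : S_UGat := rUGat uNod uTel uInf uChg uSmc

/-- the gate inequality for every finite set of variables with nonnegative weights -/
theorem uGI : S_UGI := rUGI rUEn rUTrf uGat

theorem uAHr : S_AHr := rAHr rTPar (rARc rTPar) (rAFk rTPar) (rANd rTPar rTBig (rATl (rGTw rMTg)))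

/-- the sharp gate inequality -/
theorem uSh : S_USh := rUSh uAHr uGI

/-- functions of a linear form with few sign changes as gates -/
theorem uGm : S_UGm := rUGm aVsm rTPar tCfo tCmp uSh

/-- unions of `m` intervals of a linear form as gates -/
theorem uGu : S_UGu := rUGu uGm rUInt

/-- the entropy-influence inequality for read-once compositions of branching programs of width `w`,
unions of `m` intervals of linear forms and symmetric gates -/
theorem uFn : S_UFn := rUFn gVar gPg uGu tGsy tPrg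

/-- the gate inequality for weights of both signs -/
theorem uGA : S_UGA := rUGA rUFl uGI

/-- unions of `m` intervals of a linear form satisfy the hereditary inequality -/
theorem uHi : S_UHi := rUHi rUInt uGA MS.rMCo

end Pool.Agent.MP3145b1.UI
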