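import Pool.Agent.Lib.MP_3145b1_co.RT.Spec

/-!
# MP_3145b1_co, project UI (architect helper90): functions of a linear form with `m` sign changes

THEOREM (note 5253). There is an absolute constant `C` such that for `w ≥ 1`, `u_i` in `RG w` on disjoint sets of variables,
real weights `a_i` and every `F : ℝ → {1, -1}` with at most `m` sign changes, `f = F (z + ∑_{i<M} a_i [u_i = -1])` satisfies
`Ent(f) ≤ C (w + log (m+2)) I(f)`. In particular this holds for every union of `m` intervals of a linear form.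

RULES. Module X: file Pool/Agent/Lib/MP_3145b1_co/UI/X.lean, `import Pool.Agent.Lib.MP_3145b1_co.UI.Spec`,
`set_option autoImplicit false`, `namespace Pool.Agent.MP3145b1.UI`,
`open Finset Pool.Agent.MP3145b1 Pool.Agent.MP3145b1.RC Pool.Agent.MP3145b1.RD Pool.Agent.MP3145b1.RT`, final theorem
`theorem rX (h1 : S_A) ... : S_X` (the statements under Uses, in this order, are the hypotheses). Auxiliary lemmas
private, names X_. READ FIRST: RT/Def.lean (Av, Df, Co, mn, vr, Bd, Wn, gA, hA and all basic lemmas) and the definitions below.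
Notation in the proofs: `v_i = p i (1 - p i)`, `Var_B F z = Av B (F^2) z - (Av B F z)^2` (`≥ 0`, `≤ Av B ((F - c)^2) z`: Av_var_nonneg, Av_var_le).
For values `1, -1` of `F`: `hA A F y` is `0`, `1` or `-1`, it is `0` iff `F y = F (y + A)`, and then `gA q A F y = F y`; `|h| = h^2`; `|gA q A F y| ≤ 1` (hA_zero, gA_eq, SC.h_sq, SC.g_abs).
-/

set_option autoImplicit false

namespace Pool.Agent.MP3145b1.UI

open Finset Pool.Agent.MP3145b1 Pool.Agent.MP3145b1.RC Pool.Agent.MP3145b1.RD Pool.Agent.MP3145b1.RT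

/-- values `1`, `-1`, constant where there is no threshold -/
def SC (F : ℝ → ℝ) (Θ : Finset ℝ) : Prop :=
  (∀ y, F y = 1 ∨ F y = -1) ∧ ∀ y y', y < y' → (∀ θ ∈ Θ, ¬ (y < θ ∧ θ ≤ y')) → F y = F y'

/-- not resonant: no two thresholds at a distance in `[A/2, 2 A]` -/
def NR (Θ : Finset ℝ) (A : ℝ) : Prop := ∀ θ ∈ Θ, ∀ θ' ∈ Θ, θ < θ' → θ' - θ < A / 2 ∨ 2 * A < θ' - θ

/-- head of a cluster of thresholds -/
def Hd (Θ : Finset ℝ) (A : ℝ) (β : ℝ) : Prop := β ∈ Θ ∧ ∀ θ ∈ Θ, ¬ (β - A / 2 < θ ∧ θ < β)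

/-- level of the variable `i` for the step `t` (variance of the weights between `i` and `t`, in units of `a t ^2 / 512`) -/
noncomputable def lev (a p : ℕ → ℝ) (t i : ℕ) : ℕ := ⌊512 * vr a p (Ico i t) / a t ^ 2⌋₊

/-- the variables `i < t` of the level `b` -/
noncomputable def Bl (a p : ℕ → ℝ) (t b : ℕ) : Finset ℕ := (range t).filter (fun i => lev a p t i = b)

/-- the variables `i < t` of a level smaller than `r` -/
noncomputable def Gr (a p : ℕ → ℝ) (t r : ℕ) : Finset ℕ := (range r).biUnion (Bl a p t)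

/-- pivotal probability of the step `t` -/
noncomputable def WW (a p : ℕ → ℝ) (F : ℝ → ℝ) (t : ℕ) (z : ℝ) : ℝ :=
  Av a p (range t) (fun y => hA (a t) F y ^ 2) z

/-- the charge of the variable `i` in the step `t` -/
noncomputable def ch (a p : ℕ → ℝ) (F : ℝ → ℝ) (t i : ℕ) (z : ℝ) : ℝ :=
  ∑ T ∈ (range t).powerset.filter (fun T => i ∈ T), wt p T * Co a p (range t) T (gA (p t) (a t) F) z ^ 2

open Classical in
/-- `1` if the variable `i` is charged in the step `t` (weight near `a t`, or `t` resonant), otherwise `0` -/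
noncomputable def cg (a : ℕ → ℝ) (Θ : Finset ℝ) (t i : ℕ) : ℝ := if a t < 2 * a i ∨ ¬ NR Θ (a t) then 1 else 0

/-- node cost of the step `t` -/
noncomputable def Nd (a p : ℕ → ℝ) (F : ℝ → ℝ) (t : ℕ) (z : ℝ) : ℝ :=
  ∑ T ∈ (range t).powerset, wt p T * (Co a p (range t) T (hA (a t) F) z ^ 2 *
    (1 + lg |Co a p (range t) T (gA (p t) (a t) F) z| (2 * Co a p (range t) T (hA (a t) F) z)))

/-- influence of the variable `t` among the first `n` variables -/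
noncomputable def Iv (a p : ℕ → ℝ) (F : ℝ → ℝ) (n t : ℕ) (z : ℝ) : ℝ :=
  Av a p ((range n).erase t) (fun y => hA (a t) F y ^ 2) z

theorem mem_Bl (a p : ℕ → ℝ) (t b i : ℕ) : i ∈ Bl a p t b ↔ i < t ∧ lev a p t i = b := by
  unfold Bl; rw [Finset.mem_filter, Finset.mem_range]

theorem mem_Gr (a p : ℕ → ℝ) (t r i : ℕ) : i ∈ Gr a p t r ↔ i < t ∧ lev a p t i < r := by
  unfold Gr
  rw [Finset.mem_biUnion]
  constructor
  · rintro ⟨b, hb, hi⟩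
    rw [mem_Bl] at hi
    exact ⟨hi.1, by rw [hi.2]; exact Finset.mem_range.1 hb⟩
  · rintro ⟨h1, h2⟩
    exact ⟨lev a p t i, Finset.mem_range.2 h2, (mem_Bl a p t _ i).2 ⟨h1, rfl⟩⟩

theorem cg_nonneg (a : ℕ → ℝ) (Θ : Finset ℝ) (t i : ℕ) : 0 ≤ cg a Θ t i := by
  unfold cg; split_ifs <;> norm_num

theorem cg_le_one (a : ℕ → ℝ) (Θ : Finset ℝ) (t i : ℕ) : cg a Θ t i ≤ 1 := by
  unfold cg; split_ifs <;> norm_num

theorem cg_near (a : ℕ → ℝ) (Θ : Finset ℝ) (t i : ℕ) (h : a t < 2 * a i) : cg a Θ t i = 1 := by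
  unfold cg; rw [if_pos (Or.inl h)]

theorem cg_res (a : ℕ → ℝ) (Θ : Finset ℝ) (t i : ℕ) (h : ¬ NR Θ (a t)) : cg a Θ t i = 1 := by
  unfold cg; rw [if_pos (Or.inr h)]

theorem cg_zero (a : ℕ → ℝ) (Θ : Finset ℝ) (t i : ℕ) (h : 2 * a i ≤ a t) (h' : NR Θ (a t)) : cg a Θ t i = 0 := by
  unfold cg
  rw [if_neg]
  rintro (h1 | h1)
  · exact absurd h1 (not_lt.2 h)
  · exact h1 h'

theorem ch_nonneg (a : ℕ → ℝ) {p : ℕ → ℝ} (hp : ∀ i, 0 ≤ p i ∧ p i ≤ 1) (F : ℝ → ℝ) (t i : ℕ) (z : ℝ) :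
    0 ≤ ch a p F t i z := by
  unfold ch
  exact Finset.sum_nonneg fun T _ => mul_nonneg (wt_nonneg hp T) (sq_nonneg _)

theorem WW_nonneg (a : ℕ → ℝ) {p : ℕ → ℝ} (hp : ∀ i, 0 ≤ p i ∧ p i ≤ 1) (F : ℝ → ℝ) (t : ℕ) (z : ℝ) :
    0 ≤ WW a p F t z := by
  unfold WW
  exact Av_nonneg a hp _ (fun y => sq_nonneg _) z

theorem hA_zero {F : ℝ → ℝ} {A : ℝ} (y : ℝ) : hA A F y = 0 ↔ F y = F (y + A) := by
  unfold hA
  constructor
  · intro h; linarith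
  · intro h; rw [h]; ring

theorem SC.h_sq {F : ℝ → ℝ} {Θ : Finset ℝ} (h : SC F Θ) (A y : ℝ) :
    (F y = F (y + A) ∧ hA A F y = 0) ∨ (F y ≠ F (y + A) ∧ hA A F y ^ 2 = 1 ∧ |hA A F y| = 1) := by
  unfold hA
  rcases h.1 y with h1 | h1 <;> rcases h.1 (y + A) with h2 | h2
  · left; rw [h1, h2]; norm_num
  · right; rw [h1, h2]; norm_num
  · right; rw [h1, h2]; norm_num
  · left; rw [h1, h2]; norm_num

theorem gA_eq {F : ℝ → ℝ} {A : ℝ} (q y : ℝ) (h : F y = F (y + A)) : gA q A F y = F y := by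
  unfold gA; rw [← h]; ring

theorem SC.g_abs {F : ℝ → ℝ} {Θ : Finset ℝ} (h : SC F Θ) {q : ℝ} (h0 : 0 ≤ q) (h1 : q ≤ 1) (A y : ℝ) :
    |gA q A F y| ≤ 1 := by
  unfold gA
  rw [abs_le]
  rcases h.1 y with h2 | h2 <;> rcases h.1 (y + A) with h3 | h3 <;> rw [h2, h3] <;> constructor <;> linarith

/-! ## Part 1: thresholds and windows -/

/-- **UHd** (heads). Uses: nothing.
Proof. First part: `β` = the least element of the finite set `{θ' ∈ Θ : θ - A/2 < θ', θ' ≤ θ}` (it contains `θ`); `β ≤ θ < β + A/2`. If `θ'' ∈ Θ`, `β - A/2 < θ'' < β`: `θ'' > θ - A/2` contradicts the minimality, and `θ'' ≤ θ - A/2` gives `A/2 ≤ θ - θ'' < θ - β + A/2 < A ≤ 2 A`, against NR.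
Second part, `β` a head. (a) there is no `θ ∈ Θ` with `β - 2 A ≤ θ < β` (`θ > β - A/2`: Hd; `θ ≤ β - A/2`: `β - θ ∈ [A/2, 2A]`, NR), so SC for the pair `β - 2A < y`. (b) there is no `θ ∈ Θ` with `β + A/2 ≤ θ ≤ β + 2 A` (NR), SC for the pair `y`, `β + A` in the right order.
(c) If `y' ≥ β + A/2`: there is no `θ ∈ Θ` with `β + A/2 ≤ θ ≤ y'` (its head `β'` (first part) has `β' ≤ y'`, so `β' ≤ β` by the hypothesis, so `θ < β' + A/2 ≤ β + A/2`), so `F (β + A/2) = F y'` (SC or equality) and `F (β + A/2) = F (β + A)` by (b). If `y' < β + A/2`: `y' + A ∈ [β + A/2, β + 2A]`, so `F y' = F (y' + A) = F (β + A)` by (b). -/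
def S_UHd : Prop := ∀ (F : ℝ → ℝ) (Θ : Finset ℝ) (A : ℝ), 0 < A → SC F Θ → NR Θ A →
  (∀ θ ∈ Θ, ∃ β, Hd Θ A β ∧ β ≤ θ ∧ θ < β + A / 2) ∧
  ∀ β, Hd Θ A β → (∀ y, β - 2 * A ≤ y → y < β → F y = F (β - 2 * A)) ∧
    (∀ y, β + A / 2 ≤ y → y ≤ β + 2 * A → F y = F (β + A)) ∧
    ∀ y', β ≤ y' → F y' = F (y' + A) → (∀ β', Hd Θ A β' → ¬ (β < β' ∧ β' ≤ y')) → F y' = F (β + A)

/-- **UWin** (windows, Lemma W). Uses: S_UHd.
Proof. Strong induction on the number of `θ ∈ Θ` with `y < θ ≤ y'`. Case 1: no head in `(y, y']`. If there is a head `≤ y`, let `α` be the largest one (heads are elements of the finite set `Θ`); no heads in `(α, y']`, so by S_UHd (c) for `y` and for `y'`: `F y = F (α + A) = F y'`, a contradiction. If there is no head `≤ y` then there is no head `≤ y'`, so no `θ ∈ Θ` with `θ ≤ y'` (S_UHd, first part), so `F y = F y'` by SC, a contradiction.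
Case 2: let `β` be the largest head in `(y, y']`; no heads in `(β, y']`, so `F y' = F (β + A)` (S_UHd (c)); `s = F (β - 2 A)` is the value of `F` on `[β - 2A, β)`. (2a) `s ≠ F (β + A)`: for `u ∈ [β - A/2, β)`: `F u = s` and `u + A ∈ [β + A/2, β + A)`, `F (u + A) = F (β + A) ≠ F u`. So `y < β - A/2` (otherwise `y` is in this window, but `F y = F (y + A)`), and `θ = β` works.
(2b) `s = F (β + A)`: `y < β - 3A/2`, otherwise `F y = s = F (β + A) = F y'`. `y'' = β - 3A/2`: `F y'' = s = F (y'' + A)` (`y'' + A = β - A/2`) and `F y'' = F y' ≠ F y`. The pair `(y, y'')` has fewer thresholds (not `β`): induction gives `θ` with `y < θ - A/2`, `θ ≤ y'' ≤ y'`. -/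
def S_UWin : Prop := ∀ (F : ℝ → ℝ) (Θ : Finset ℝ) (A : ℝ), 0 < A → SC F Θ → NR Θ A → ∀ y y' : ℝ, y < y' →
  F y = F (y + A) → F y' = F (y' + A) → F y ≠ F y' →
  ∃ θ ∈ Θ, y < θ - A / 2 ∧ θ ≤ y' ∧ ∀ u, θ - A / 2 ≤ u → u < θ → F u ≠ F (u + A)

/-- **USgl** (one light variable). Uses: S_UWin.
Proof. `g = gA q A F`, `h = hA A F`. `Av {i} G z = p_i G z + (1 - p_i) G (z + a_i)` (Av_insert, Av_empty), so `Var = v_i (g z - g (z + a_i))^2`. If `h z = 0` and `h (z + a_i) = 0`: `g z = F z`, `g (z + a_i) = F (z + a_i)`, and these are equal: otherwise `a_i > 0` and S_UWin for `z < z + a_i` gives `z < θ - A/2`, `θ ≤ z + a_i`, so `a_i > A/2`. So `Var = 0`.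
Otherwise `(g z - g (z + a_i))^2 ≤ 4`, `v_i ≤ p_i` and `v_i ≤ 1 - p_i`, so `Var ≤ 4 (p_i h(z)^2 + (1 - p_i) h(z + a_i)^2)`. -/
def S_USgl : Prop := ∀ (a p : ℕ → ℝ) (i : ℕ) (F : ℝ → ℝ) (Θ : Finset ℝ) (A q z : ℝ), 0 < A → SC F Θ → NR Θ A →
  (∀ i, 0 ≤ p i ∧ p i ≤ 1) → 0 ≤ a i → 2 * a i ≤ A → 0 ≤ q → q ≤ 1 →
  Av a p {i} (fun y => gA q A F y ^ 2) z - Av a p {i} (gA q A F) z ^ 2 ≤ 4 * Av a p {i} (fun y => hA A F y ^ 2) z

/-- **UFar** (a group of light variables). Uses: S_TPos, S_UWin.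
Proof. `g`, `h` as before, `μ = z + mn a p B`. `Win` = the set of the `θ ∈ Θ` with `F u ≠ F (u + A)` for all `u ∈ [θ - A/2, θ)`. `θ1` = the least `θ ∈ Win` with `θ - A/4 > μ`, `θ2` = the largest `θ ∈ Win` with `θ - A/4 ≤ μ` (each may not exist). Claim: if `y < y'`, `F y = F (y + A)`, `F y' = F (y' + A)`, (`θ2 - A/2 ≤ y` if `θ2` exists), (`y' < θ1` if `θ1` exists) then `F y = F y'`: otherwise S_UWin gives `θ ∈ Win`,
`y < θ - A/2`, `θ ≤ y'`; if `θ - A/4 > μ` then `θ1 ≤ θ ≤ y'`, a contradiction; if `θ - A/4 ≤ μ` then `θ ≤ θ2`, `y < θ2 - A/2`, a contradiction. So there is `c ∈ {1, -1}` such that `F y = c` for all `y` with `h y = 0`, `θ2 - A/2 ≤ y` (if it exists), `y < θ1` (if it exists). Hence for all `y`: `(g y - c)^2 ≤ 4 (h y ^2 + (Hv θ1 y if it exists) + ([y < θ2 - A/2] if it exists))`.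
S_TPos with `A/2` in place of `A` (`Bd a p B (A/2)`, `vr ≤ (A/2)^2/64`): (1) for `θ1`: `Av (Hv θ1) ≤ 4 Av (Wn θ1 (A/2)) ≤ 4 Av (h^2)` (on the window `h^2 = 1`), (2) for `θ2` the same. Av_var_le: `Var g ≤ Av ((g - c)^2) ≤ 4 (1 + 4 + 4) Av (h^2)`. (Four cases of existence; or prove first: there is a function `E1 : ℝ → ℝ`, `0 ≤ E1`, `Av B E1 z ≤ 4 Av B (h^2) z`, ...) -/
def S_UFar : Prop := ∀ (a p : ℕ → ℝ) (B : Finset ℕ) (F : ℝ → ℝ) (Θ : Finset ℝ) (A q z : ℝ), 0 < A → SC F Θ → NR Θ A →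
  Bd a p B (A / 2) → vr a p B ≤ A ^ 2 / 256 → 0 ≤ q → q ≤ 1 →
  Av a p B (fun y => gA q A F y ^ 2) z - Av a p B (gA q A F) z ^ 2 ≤ 36 * Av a p B (fun y => hA A F y ^ 2) z

/-- **USml** (small ball). Uses: S_TEsn.
Proof. `h = hA A F`, `|h y| ≤ 1` and `|h y| ≤ ∑ θ ∈ Θ, Wn θ A y` (if no `θ ∈ Θ` has `y < θ ≤ y + A` then `F y = F (y + A)` by SC, `h y = 0`; otherwise the sum is `≥ 1`). `r < 1024`: `|Av h| ≤ 1 ≤ 32/sqrt r ≤ 640 (m+1)/sqrt r`. `r ≥ 1024`: `N = ⌊sqrt (r/1024)⌋₊ ≥ 1`, `N ≥ sqrt (r/1024)/2`, `N^2 A^2 ≤ r A^2/1024 ≤ vr G` (`r/512 - 1/4 ≥ r/1024`); S_TEsn for every `θ`: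
`|Av h| ≤ Av |h| ≤ m 10/N ≤ 20 m sqrt 1024/sqrt r = 640 m/sqrt r` (Av_sum). -/
def S_USml : Prop := ∀ (a p : ℕ → ℝ) (G : Finset ℕ) (F : ℝ → ℝ) (Θ : Finset ℝ) (A z : ℝ) (m r : ℕ), 0 < A → SC F Θ →
  Θ.card ≤ m → Bd a p G A → 1 ≤ r → (r : ℝ) * A ^ 2 / 512 - A ^ 2 / 4 ≤ vr a p G →
  |Av a p G (hA A F) z| ≤ 640 * ((m : ℝ) + 1) / Real.sqrt r

/-! ## Part 2: levels and the node inequality -/

/-- **ULev** (levels). Uses: nothing.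
Proof. (1) Nat.lt_floor_add_one. Also `lev * a_t^2 ≤ 512 vr (Ico i t)` (Nat.floor_le, the quotient is `≥ 0`), and `lev t j ≤ lev t i` for `i ≤ j` (`Ico j t ⊆ Ico i t`, vr is monotone, Nat.floor_mono). (2) let `i0` be the largest `i < t` with `r ≤ lev t i`. For `i0 < i < t`: `lev t i < r`, so `Ico (i0+1) t ⊆ Gr r` (mem_Gr), and `vr (Ico i0 t) = v_{i0} a_{i0}^2 + vr (Ico (i0+1) t)`, `v ≤ 1/4`, `a_{i0} ≤ a_t`, `r a_t^2 ≤ lev a_t^2 ≤ 512 vr (Ico i0 t)`.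
(3) `i' = B.min'`; `B.erase i ⊆ Ico i' i`, so `vr (B.erase i) ≤ vr (Ico i' i) = vr (Ico i' t) - vr (Ico i t) ≤ (b + 1) a_t^2/512 - b a_t^2/512` (both levels are `b`; Finset.sum_Ico_consecutive). -/
def S_ULev : Prop := ∀ (a p : ℕ → ℝ) (t : ℕ), (∀ i, 0 ≤ p i ∧ p i ≤ 1) → 0 < a t → (∀ i, i < t → 0 ≤ a i ∧ a i ≤ a t) →
  (∀ i, 512 * vr a p (Ico i t) ≤ ((lev a p t i : ℝ) + 1) * a t ^ 2) ∧
  (∀ r : ℕ, 1 ≤ r → (∃ i, i < t ∧ r ≤ lev a p t i) → (r : ℝ) * a t ^ 2 / 512 - a t ^ 2 / 4 ≤ vr a p (Gr a p t r)) ∧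
  ∀ (b : ℕ) (B : Finset ℕ) (i : ℕ), B ⊆ Bl a p t b → i ∈ B → (∀ j ∈ B, j ≤ i) → vr a p (B.erase i) ≤ a t ^ 2 / 256

/-- **UBlk** (block inequality). Uses: S_TPar, S_USgl, S_UFar, S_ULev.
Proof. `J = range t`, `g = gA (p t) (a t) F`, `U T = Co J T g z`, `X B = ∑_{T ⊆ J, T meets B} wt T (U T)^2`; `X (B ∪ C) ≤ X B + X C`, `X {i} = ch t i` (`¬ Disjoint T {i}` iff `i ∈ T`), and by induction `X B ≤ ∑_{i ∈ B} ch t i`. If `¬ NR Θ (a t)`: all `cg = 1` (cg_res), so `X (Bl b) ≤ ∑_{i ∈ Bl b} cg ch`, and `40 WW ≥ 0`. If `NR Θ (a t)`: `L` = the `i ∈ Bl b` with `2 a_i ≤ a_t`, the others have `cg = 1` (cg_near).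
`X (Bl b) ≤ X L + ∑_{i ∈ Bl b, i ∉ L} cg ch`. If `L ≠ ∅`: `i` = its largest element, `B' = L.erase i`, `X L ≤ X {i} + X B'`; S_TPar (3) with `B = {i}` and `B = B'`: `X B = Av (J \ B) (Var_B g) z ≤ c Av (J \ B) (fun y => Av B (h^2) y) z = c WW` (Av_mono, Av_mul, Av_sdiff), `c = 4` by S_USgl, `c = 36` by S_UFar with S_ULev (3). -/
def S_UBlk : Prop := ∀ (a p : ℕ → ℝ) (t b : ℕ) (F : ℝ → ℝ) (Θ : Finset ℝ), (∀ i, 0 ≤ p i ∧ p i ≤ 1) → 0 < a t →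
  (∀ i, i < t → 0 ≤ a i ∧ a i ≤ a t) → SC F Θ → ∀ z : ℝ,
  ∑ T ∈ (range t).powerset.filter (fun T => ¬ Disjoint T (Bl a p t b)),
    wt p T * Co a p (range t) T (gA (p t) (a t) F) z ^ 2 ≤
  40 * WW a p F t z + ∑ i ∈ Bl a p t b, cg a Θ t i * ch a p F t i z

/-- **UHar** (a sum). Uses: nothing.
Proof. `k = κ^2`. (i) for `1 ≤ s`: `∑_{1 ≤ r < s+1} 1/r ≤ 1 + log s` by induction (`1/(s+1) ≤ log (s+1) - log s`, i.e. `log x ≥ 1 - 1/x` with `x = (s+1)/s`), or Mathlib harmonic bounds. (ii) for `r ≥ 2`: `1/(r sqrt r) ≤ 2/sqrt (r-1) - 2/sqrt r` (with `x = sqrt (r-1)`, `y = sqrt r`, `y^2 = x^2 + 1`: `2/x - 2/y = 2 (y - x)/(x y) = 2/(x y (x + y)) ≥ 1/y^3`).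
For `R ≤ k + 1` bound the minimum by `1`: `≤ 1 + log k = 1 + 2 log κ`. For `R > k + 1` by induction on `R` from `k + 1`: the sum is `≤ 1 + 2 log κ + κ (2/κ - 2/sqrt (R-1)) ≤ 3 + 2 log κ` (use `κ/(r sqrt r)` for `r > k`; `sqrt k = κ`). -/
def S_UHar : Prop := ∀ κ R : ℕ, 1 ≤ κ →
  ∑ r ∈ range R, (if 1 ≤ r then 1 / (r : ℝ) * min 1 ((κ : ℝ) / Real.sqrt r) else 0) ≤ 3 + 2 * Real.log κ

/-- **UPt1** (the small sums). Uses: S_TPar, S_USml, S_ULev, S_UHar.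
Proof. `h = hA (a t) F`, `κ = 640 (m+1)`. For fixed `r ≥ 1` the sum over the `T ≠ ∅` disjoint from `Gr r` of `wt T Co(h)^2` is `≤ min 1 (κ/sqrt r) WW`: if there is no `i < t` with `r ≤ lev t i` then `Gr r = range t` and there is no such `T` (right side `≥ 0`). Otherwise it is `≤` the same sum with `T = ∅`, which is `Av (range t \ Gr r) ((Av (Gr r) h)^2)` by S_TPar (2);
`|Av (Gr r) h y| ≤ Av (Gr r) (h^2) y ≤ 1` (`|h| = h^2 ≤ 1`) and `|Av (Gr r) h y| ≤ κ/sqrt r` (S_USml, S_ULev (2), Bd), so `(Av (Gr r) h y)^2 ≤ min 1 (κ/sqrt r) Av (Gr r) (h^2) y`; Av_mono, Av_mul, Av_sdiff. Sum over `r`: S_UHar. -/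
def S_UPt1 : Prop := ∀ (a p : ℕ → ℝ) (t m R : ℕ) (F : ℝ → ℝ) (Θ : Finset ℝ), (∀ i, 0 ≤ p i ∧ p i ≤ 1) → 0 < a t →
  (∀ i, i < t → 0 ≤ a i ∧ a i ≤ a t) → SC F Θ → Θ.card ≤ m → ∀ z : ℝ,
  ∑ T ∈ (range t).powerset.erase ∅, ∑ r ∈ range R, (if 1 ≤ r ∧ Disjoint T (Gr a p t r) then
    1 / (r : ℝ) * (wt p T * Co a p (range t) T (hA (a t) F) z ^ 2) else 0) ≤
  (3 + 2 * Real.log (640 * ((m : ℝ) + 1))) * WW a p F t z

/-- **UPt2** (the large sums). Uses: S_TSrs, S_UBlk.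
Proof. Exchange the sums (Finset.sum_comm, Finset.sum_filter); S_UBlk for every `b`, times `1/(b+1)^2 ≥ 0`; `∑_{b<R} 1/(b+1)^2 ≤ 2` (S_TSrs); `∑_{b<R} ∑_{i ∈ Bl b} 1/(b+1)^2 cg ch = ∑_{i<t, lev t i < R} cg/(lev t i + 1)^2 ch ≤` the sum over all `i < t` (for `i ∈ Bl b`: `lev t i = b`; the blocks are disjoint; Finset.sum_fiberwise_of_maps_to or Finset.sum_comm; terms `≥ 0`: cg_nonneg, ch_nonneg). -/
def S_UPt2 : Prop := ∀ (a p : ℕ → ℝ) (t R : ℕ) (F : ℝ → ℝ) (Θ : Finset ℝ), (∀ i, 0 ≤ p i ∧ p i ≤ 1) → 0 < a t →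
  (∀ i, i < t → 0 ≤ a i ∧ a i ≤ a t) → SC F Θ → ∀ z : ℝ,
  ∑ T ∈ (range t).powerset.erase ∅, ∑ b ∈ range R, (if ¬ Disjoint T (Bl a p t b) then
    1 / ((b : ℝ) + 1) ^ 2 * (wt p T * Co a p (range t) T (gA (p t) (a t) F) z ^ 2) else 0) ≤
  80 * WW a p F t z + ∑ i ∈ range t, cg a Θ t i / ((lev a p t i : ℝ) + 1) ^ 2 * ch a p F t i z

/-- **UNod** (node inequality). Uses: S_TPar, S_TPtw, S_UPt1, S_UPt2.
Proof. `a t = 0`: `hA 0 F = 0`, all coefficients of `h` are `0` (Co_hA with `A = 0`), `Nd = 0`, the right side is `≥ 0`. `a t > 0`: `d = Co (range t) T h z`, `U = Co (range t) T g z`, `M = m + 2`, `R` = a number larger than all `lev t i`, `i < t`. (i) `∑_T wt d^2 = WW` (S_TPar (1)). (ii) `T = ∅`: `d = Av h z`, `|U| ≤ 1` (Co_empty, SC.g_abs, Av_le_const), `d^2 lg |U| (2d) ≤ |d|/2` (`log x ≤ x`), `|d| ≤ WW` (`|h| = h^2`): `≤ WW/2`.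
(iii) `T ≠ ∅`: `T` meets `Bl b` for `b = lev t i < R`, `i ∈ T`. `lg |U| (2d) ≤ log M + lg |U/M| (2d)` (`M ≥ 1`; `max 0 (x + log M) ≤ max 0 x + log M`; if `U = 0` or `d = 0`: the left side is `0`); S_TPtw with `U/M`: `d^2 lg |U| (2d) ≤ d^2 log M + ∑_{r<R} (if 1 ≤ r ∧ Disjoint T (Gr r) then 1/r d^2 else 0) + M^(-2) ∑_{b<R} (if T meets Bl b then 1/(b+1)^2 U^2 else 0)`. Multiply by `wt`, sum over `T ≠ ∅`: S_UPt1, S_UPt2.
Total: `WW (1 + 1/2 + log M + 3 + 2 log (640 (m+1)) + 80/M^2)` + charges/`M^2`; `log (640 (m+1)) ≤ 10 log 2 + log (m+2) ≤ 11 log (m+2)`, `80/M^2 ≤ 20`, `log (m+2) ≥ log 2 ≥ 0.693`: `24.5 + 23 log (m+2) ≤ 60 log (m+2)`. -/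
def S_UNod : Prop := ∀ (a p : ℕ → ℝ) (t m : ℕ) (F : ℝ → ℝ) (Θ : Finset ℝ), (∀ i, 0 ≤ p i ∧ p i ≤ 1) → 0 ≤ a t →
  (∀ i, i < t → 0 ≤ a i ∧ a i ≤ a t) → SC F Θ → Θ.card ≤ m → ∀ z : ℝ,
  Nd a p F t z ≤ 60 * Real.log ((m : ℝ) + 2) * WW a p F t z +
    1 / ((m : ℝ) + 2) ^ 2 * ∑ i ∈ range t, cg a Θ t i / ((lev a p t i : ℝ) + 1) ^ 2 * ch a p F t i z

/-! ## Part 3: the gate inequality -/

/-- **UTel** (telescoping). Uses: S_GTw.
Proof. Induction on `n` for all `z`. `n = 0`: `T = ∅`, `Co ∅ ∅ F z = F z = ± 1`, `hh 1 = 0` (Real.negMulLog_one). `n + 1`: `range (n+1) = insert n (range n)`, `c0 T = Co (range n) T F z`, `c1 T = Co (range n) T F (z + a n)`; Finset.sum_powerset_insert, Co_insert_not, Co_insert_mem, wt_insert: the left side is `∑_{T ⊆ range n} wt T (hh (U^2) + 4 v hh (Om^2))`, `U = p c0 + (1-p) c1 = Co T (gA (p n) (a n) F) z` (Co_gA), `Om = (c0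 - c1)/2 = Co T (hA (a n) F) z` (Co_hA),
`hh (U^2) + 4 v hh (Om^2) = dlp p c0 c1 + p hh (c0^2) + (1-p) hh (c1^2)` (definition of dlp) and S_GTw: `dlp p c0 c1 ≤ 7 v (2 Om)^2 (1 + lg |U| (2 Om))`. So left side `≤ 28 v_n Nd n z + p E(n)(z) + (1-p) E(n)(z + a n)`; induction for `z` and `z + a n`; `Ico (t+1) (n+1) = insert n (Ico (t+1) n)` for `t < n` (Av_insert), `Ico (n+1) (n+1) = ∅` (Av_empty). -/
def S_UTel : Prop := ∀ (a p : ℕ → ℝ) (n : ℕ) (F : ℝ → ℝ), (∀ i, 0 ≤ p i ∧ p i ≤ 1) → (∀ y, F y = 1 ∨ F y = -1) → ∀ z : ℝ,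
  ∑ T ∈ (range n).powerset, wt p T * hh (Co a p (range n) T F z ^ 2) ≤
    ∑ t ∈ range n, 28 * (p t * (1 - p t)) * Av a p (Ico (t + 1) n) (Nd a p F t) z

/-- **UInf** (influences). Uses: S_TPar.
Proof. (1) `T.card = ∑_{t<n} (if t ∈ T then 1 else 0)`; `∑_{T ⊆ range n, t ∈ T} wt Co^2 = Av (range n \ {t}) (fun y => Av {t} (F^2) y - (Av {t} F y)^2) z` (S_TPar (3), `B = {t}`; `¬ Disjoint T {t}` iff `t ∈ T`), and `Av {t} (F^2) y - (Av {t} F y)^2 = v_t (F y - F (y + a_t))^2 = 4 v_t h_t(y)^2` (Av_insert, Av_empty). (2) `(range n).erase t = Ico (t+1) n ∪ range t`, disjoint, Av_union. -/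
def S_UInf : Prop := ∀ (a p : ℕ → ℝ) (n : ℕ) (F : ℝ → ℝ) (z : ℝ),
  (∑ T ∈ (range n).powerset, (T.card : ℝ) * (wt p T * Co a p (range n) T F z ^ 2) =
    ∑ t ∈ range n, 4 * (p t * (1 - p t)) * Iv a p F n t z) ∧
  ∀ t, t < n → Iv a p F n t z = Av a p (Ico (t + 1) n) (WW a p F t) z

/-- **UChg** (charges). Uses: S_TPar.
Proof. `ch t i y = Av (range t \ {i}) (fun y' => v_i (g y' - g (y' + a_i))^2) y`, `g = gA (p t) (a t) F` (S_TPar (3), `B = {i}`, as in S_UInf). With `h = hA (a i) F`: `g y' - g (y' + a_i) = 2 (p_t h y' + (1 - p_t) h (y' + a_t))`, its square is `≤ 4 (p_t h(y')^2 + (1 - p_t) h(y' + a_t)^2) = 4 Av {t} (h^2) y'` (convexity: the difference is `4 v_t (..)^2`). So `ch t i y ≤ 4 v_i Av (range t \ {i}) (Av {t} (h^2)) y = 4 v_i Av ((range t \ {i}) ∪ {t}) (h^2) y`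
(Av_mono, Av_mul, Av_union), and `Ico (t+1) n ∪ ((range t \ {i}) ∪ {t}) = (range n).erase i` (disjoint), Av_union. -/
def S_UChg : Prop := ∀ (a p : ℕ → ℝ) (n t i : ℕ) (F : ℝ → ℝ) (z : ℝ), (∀ i, 0 ≤ p i ∧ p i ≤ 1) → i < t → t < n →
  Av a p (Ico (t + 1) n) (ch a p F t i) z ≤ 4 * (p i * (1 - p i)) * Iv a p F n i z

/-- **UCls** (class lemma). Uses: nothing.
Proof. `s N = ∑ u ∈ (Ico (i+1) N).filter P, v u ≥ 0`. Claim by induction on `N ≥ i + 1`: `∑ t ∈ (Ico (i+1) N).filter P, v t/(l t)^2 ≤ 9/2 (1 - 1/(1 + s N))`. Step for `t = N` with `P N`: `x = s N`, `w = v N ∈ [0, 1/4]`, `l N ≥ max 1 x`: `w/(l N)^2 ≤ 9/2 (1/(1+x) - 1/(1+x+w)) = 9/2 w/((1+x)(1+x+w))`, because `(1+x)(1+x+w) ≤ (1+x)(5/4+x) ≤ 9/2 (l N)^2` (`x ≤ 1`: `2 * 9/4`; `x ≥ 1`: `2 x * (9/4) x`). -/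
def S_UCls : Prop := ∀ (v l : ℕ → ℝ) (P : ℕ → Prop) [DecidablePred P] (i n : ℕ), (∀ t, 0 ≤ v t ∧ v t ≤ 1 / 4) →
  (∀ t, 1 ≤ l t) → (∀ t, i < t → t < n → P t → ∑ u ∈ (Ico (i + 1) t).filter P, v u ≤ l t) →
  ∑ t ∈ (Ico (i + 1) n).filter P, v t / l t ^ 2 ≤ 9 / 2

/-- **USmc** (sum over the classes). Uses: S_ULev, S_UCls.
Proof. A class with the parameter `L > 0`: `P t := L ≤ a t ∧ a t ≤ 4 L`. S_UCls with `v t = p t (1 - p t)`, `l t = lev t i + 1`: for `i < t < n`, `P t`: `s = ∑_{u ∈ Ico (i+1) t, P u} v_u`; `L^2 s ≤ ∑ v_u a_u^2 ≤ vr (Ico i t)`, S_ULev (1): `512 L^2 s ≤ (lev + 1) a_t^2 ≤ (lev + 1) 16 L^2`, so `s ≤ (lev + 1)/32`. So the sum of `v_t/(lev+1)^2` over a class is `≤ 9/2`.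
If `cg a Θ t i ≠ 0`, `i < t < n`: either `a t < 2 a i` and then `a i ≤ a t`, `0 < a i` (`0 ≤ a t < 2 a i`): the class `L = a i`; or `¬ NR Θ (a t)`: there are `θ < θ'` in `Θ` with `a t/2 ≤ θ' - θ ≤ 2 a t`: the class `L = (θ' - θ)/2` (`a t ≤ 2 (θ' - θ) = 4 L`). So the indicator `cg` is at most the sum of the indicators of the classes: `a i` (if `0 < a i`) and the pairs `(θ, θ') ∈ Θ ×ˢ Θ` with `θ < θ'` (at most `m^2`). -/
def S_USmc : Prop := ∀ (a p : ℕ → ℝ) (n m i : ℕ) (Θ : Finset ℝ), (∀ i, 0 ≤ p i ∧ p i ≤ 1) →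
  (∀ i j, i ≤ j → j < n → 0 ≤ a i ∧ a i ≤ a j) → Θ.card ≤ m →
  ∑ t ∈ Ico (i + 1) n, p t * (1 - p t) * (cg a Θ t i / ((lev a p t i : ℝ) + 1) ^ 2) ≤ 9 / 2 * ((m : ℝ) ^ 2 + 1)

/-- **UGat** (gate inequality). Uses: S_UNod, S_UTel, S_UInf, S_UChg, S_USmc.
Proof. `L = log (m+2) ≥ 0.693`, `M = m + 2`. S_UTel, S_UNod (Av_mono, Av_add, Av_mul, Av_sum), S_UInf (2): `E ≤ ∑_{t<n} 28 v_t (60 L Iv t + M^(-2) ∑_{i<t} cg/(lev+1)^2 Av (Ico (t+1) n) (ch t i) z)`, S_UChg: `Av .. (ch t i) ≤ 4 v_i Iv i`. Exchange the sums over `t` and `i` (`∑_{t<n} ∑_{i<t} = ∑_{i<n} ∑_{t ∈ Ico (i+1) n}`): `E ≤ 420 L ∑_t 4 v_t Iv t + 28 M^(-2) ∑_i 4 v_i Iv i ∑_{t ∈ Ico (i+1) n} v_t cg/(lev+1)^2`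
`≤ (420 L + 28 (9/2) (m^2+1)/(m+2)^2) ∑_i 4 v_i Iv i` (S_USmc), `≤ (420 L + 126) ..`, `126 ≤ 182 L`, S_UInf (1). -/
def S_UGat : Prop := ∀ (a p : ℕ → ℝ) (n m : ℕ) (F : ℝ → ℝ) (Θ : Finset ℝ), (∀ i, 0 ≤ p i ∧ p i ≤ 1) →
  (∀ i j, i ≤ j → j < n → 0 ≤ a i ∧ a i ≤ a j) → SC F Θ → Θ.card ≤ m → ∀ z : ℝ,
  ∑ T ∈ (range n).powerset, wt p T * hh (Co a p (range n) T F z ^ 2) ≤
    700 * Real.log ((m : ℝ) + 2) * ∑ T ∈ (range n).powerset, (T.card : ℝ) * (wt p T * Co a p (range n) T F z ^ 2)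

/-! Part 4 (compositions): UI/Spec2.lean. -/

end Pool.Agent.MP3145b1.UI
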