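import Pool.Agent.Lib.MP_3145b1_co.UI.Spec2
import Pool.Agent.Lib.MP_3145b1_co.MS.Spec

/-!
# MP_3145b1_co, project UI, part 3 (architect helper90): weights of both signs, the hereditary form `Hd`

So that unions of `m` intervals of linear forms are gates (gen) of the classes `RH` and `UH` (project AG, helper45).

RULES: as in UI/Spec2.lean, import Pool.Agent.Lib.MP_3145b1_co.UI.Spec3; open in addition Pool.Agent.MP3145b1.LD. `AG.Hd` is the hereditary property of AG/Spec2.lean (write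
AG.Hd, inside the namespace UI the name Hd means UI.Hd), `MS.S_MCo` is in MS/Spec.lean.
-/

set_option autoImplicit false

namespace Pool.Agent.MP3145b1.UI

open Finset Pool.Agent.MP3145b1 Pool.Agent.MP3145b1.RC Pool.Agent.MP3145b1.RD Pool.Agent.MP3145b1.RT Pool.Agent.MP3145b1.AG Pool.Agent.MP3145b1.LD

/-- the weights with the sign changed at the negative ones -/
noncomputable def aA (a : ℕ → ℝ) (i : ℕ) : ℝ := |a i|

/-- the probabilities exchanged at the negative weights -/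
noncomputable def pA (a p : ℕ → ℝ) (i : ℕ) : ℝ := if a i < 0 then 1 - p i else p i

/-- sum of the negative weights of `J` -/
noncomputable def nA (a : ℕ → ℝ) (J : Finset ℕ) : ℝ := ∑ i ∈ J, (if a i < 0 then a i else 0)

/-- **UFl** (change of signs). Uses: nothing.
Proof. (1) `4 (p (1-p))` is the same for `p` and `1 - p`. (2) Finset.induction_on `J` for all `T ⊆ J`, all `z`. `J = ∅`: clear. `insert i J`: if `0 ≤ a i`: `aA = a i`, `pA = p i`, `nA (insert i J) = nA J`; Co_insert_not, Co_insert_mem and the induction hypothesis. If `a i < 0`: `a i = - aA`, `nA (insert i J) = a i + nA J`; for `i ∉ T`: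
`p c(z) + (1-p) c(z + a i)` with `c(z) = ± c'(z + nA J)` is `± ((1 - pA) c'(z + nA J) + pA c'(z + a i + nA J))`, and this is the average for `pA` at the point `z' = z + a i + nA J` (`z' + aA = z + nA J`). For `i ∈ T` (`T = insert i T'`): `(c(z) - c(z + a i))/2 = - ± (c'(z') - c'(z' + aA))/2`. The square is enough: state and prove `Co .. = s T * Co ..`
with `s T = ∏ i ∈ T, (if a i < 0 then -1 else 1)`, `s T ^2 = 1`. -/
def S_UFl : Prop := ∀ (a p : ℕ → ℝ) (J : Finset ℕ) (F : ℝ → ℝ) (z : ℝ), (∀ T, wt (pA a p) T = wt p T) ∧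
  ∀ T, T ⊆ J → Co a p J T F z ^ 2 = Co (aA a) (pA a p) J T F (z + nA a J) ^ 2

/-- **UGA** (the gate inequality, weights of both signs). Uses: S_UFl, S_UGI.
Proof. `Hs a p J F z = Hs (aA a) (pA a p) J F (z + nA a J)`, the same for `Ti` (S_UFl, sums over `T ⊆ J`); S_UGI for `aA a ≥ 0`, `0 ≤ pA ≤ 1`. -/
def S_UGA : Prop := ∀ (a p : ℕ → ℝ) (J : Finset ℕ) (m : ℕ) (F : ℝ → ℝ) (Θ : Finset ℝ), (∀ i, 0 ≤ p i ∧ p i ≤ 1) →
  SC F Θ → Θ.card ≤ m → ∀ z : ℝ, Hs a p J F z ≤ 700 * Real.log ((m : ℝ) + 2) * Ti a p J F z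

open Classical in
/-- **UHi** (unions of `m` intervals of a linear form satisfy `AG.Hd`). Uses: S_UInt, S_UGA, MS.S_MCo. MODEL: MS/MEn.lean (the last part).
Proof. `V` = the image of `(range M).powerset` under `U ↦ ∑ i ∈ U, a i`; `F`, `Θ` from S_UInt (`2 m` thresholds): for `U ⊆ range M`: `F (∑ i ∈ U, a i) = Ph φ (∑ i ∈ U, tw i)` (both are `-1` iff the sum is in the union; `⌊∑ i ∈ U, tw i⌋₊.bitIndices.toFinset = U` as in MS/MEn.lean, UM/UUa.lean). For `J ⊆ range M`, `U ⊆ range M \ J`, `U' ⊆ J`: both sides at `U ∪ U'`; MS.S_MCo: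
`Hs tw p J (Ph φ) (∑ i ∈ U, tw i) = Hs a p J F (∑ i ∈ U, a i)`, the same for `Ti`. S_UGA with `2 m`: `700 log (2 m + 2) ≤ 1400 log (m + 2)` (`2 m + 2 ≤ (m + 2)^2`), `Ti ≥ 0`. -/
def S_UHi : Prop := ∀ (m M : ℕ) (a p : ℕ → ℝ) (I : ℕ → Set ℝ), (∀ j, (I j).OrdConnected) → (∀ i, 0 ≤ p i ∧ p i ≤ 1) →
  AG.Hd (1400 * Real.log ((m : ℝ) + 2)) p M (fun U => decide (∃ j, j < m ∧ ∑ i ∈ U, a i ∈ I j))

end Pool.Agent.MP3145b1.UI
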